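import Pool.Agent.Lib.MP_3240be_co.H43.Defs

/-!
# MP_3240be_co: all 2-connected bipartite graphs

Definitions and statements of the rows (board WHV, helper43).  Paper: finding 4492 (Theorem W').
-/

set_option autoImplicit false

namespace MP3240W

open Finset MP3240T
open Pool.Agent.Lib.MP_3240be_co.H36.Chrom (Sparse)

/-- `H` is bipartite, `κ = true` is the class `A`, `|A| = h + 1 ≤ |B|`; `α ∈ A` has a neighbour
`β₁` such that the neighbourhoods of all its other neighbours contain together at most `h / 2`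
vertices besides `α`. -/
structure StarD {n : ℕ} (H : SimpleGraph (Fin n)) (κ : Fin n → Bool) (h : ℕ) where
  prop : ∀ i j, H.Adj i j → κ i ≠ κ j
  cardA : (clA κ).card = h + 1
  cardB : h + 1 ≤ (univ.filter (fun x => κ x = false)).card
  α : Fin n
  β₁ : Fin n
  hα : κ α = true
  adj : H.Adj α β₁
  Q : Finset (Fin n)
  hQ : ∀ β x, β ≠ β₁ → H.Adj α β → H.Adj β x → x ≠ α → x ∈ Q
  hQA : ∀ x ∈ Q, κ x = true ∧ x ≠ α
  small : 2 * Q.card ≤ h

/-- Row ZD2 (paper (Z)): `P` = the `col`-hubs of the first low `l₁`, `S = P ∩ U`, `N` = the lows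
`l₁, …, l_δ`, `v` the outside vertex. -/
def Zd2Statement : Prop :=
  ∀ (n h : ℕ) (H : SimpleGraph (Fin n)) (κ : Fin n → Bool) (D : StarD H κ h) (V : Type)
    (G : SimpleGraph V) (P S N : Finset V) (l₁ v : V), P.card = h → S ⊆ P → h ≤ 2 * S.card →
    Many G n P → v ∉ P → Disjoint N P → l₁ ∈ N → (nb H D.α).card ≤ N.card →
    (∀ x ∈ N, G.Adj v x) → (∀ x ∈ N, ∀ y ∈ S, G.Adj y x) → (∀ y ∈ P, G.Adj y l₁) → Emb H G

/-- Row NOA: no `(h + 1)`-set has many common neighbours. -/
def NoaStatement : Prop :=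
  ∀ (n h : ℕ) (H : SimpleGraph (Fin n)) (κ : Fin n → Bool) (_ : StarD H κ h) (V : Type)
    (G : SimpleGraph V) (R : Finset V), h + 1 ≤ R.card → Many G n R → Emb H G

/-- Row PC2 (pieces): as `PclStatement`, but two gadgets may share a point `μ m t`. -/
def Pc2Statement : Prop :=
  ∀ (n : ℕ) (H : SimpleGraph (Fin n)) (X I J M T : Type) (δ : M → T → I) (w : I → J)
    (f : Fin n → X) (wld : J → Set X) (gdg : M → Set X) (μ : M → T → X), 0 < n →
    TwoC (ed H) → (∀ u, ∃ v, H.Adj u v) → Function.Injective f → Function.Injective w →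
    (∀ m, Function.Injective (δ m)) → Sparse (n * n) δ →
    (∀ u v, H.Adj u v → (∃ j, f u ∈ wld j ∧ f v ∈ wld j) ∨ ∃ m, f u ∈ gdg m ∧ f v ∈ gdg m) →
    (∀ j j' x, x ∈ wld j → x ∈ wld j' → j = j') →
    (∀ m m' x, m ≠ m' → x ∈ gdg m → x ∈ gdg m' → ∃ t t', x = μ m t ∧ δ m t = δ m' t') →
    (∀ j m x, x ∈ wld j → x ∈ gdg m → ∃ t, x = μ m t ∧ j = w (δ m t)) →
    (∃ j, ∀ v, f v ∈ wld j) ∨ ∃ m, ∀ v, f v ∈ gdg m

/-! ## The host -/

/-- The vertices of the host: `u` the common hubs, `ch i` the hubs of the index `i`, `l i j` the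
lows of the index `i`, `z m j v` the free vertices of the gadget `(m, j)`. -/
inductive VV (n h g : ℕ) (I M : Type) : Type
  | u : Fin h → VV n h g I M
  | ch : I → Fin h → VV n h g I M
  | l : I → Fin g → VV n h g I M
  | z : M → Fin g → Fin n → VV n h g I M

/-- Two slots of the same blob, none of them `x` or `y`, whose labels are adjacent in `H`. -/
def blobAdj {n N : ℕ} (H : SimpleGraph (Fin n)) (x y : Fin n) (t t' : Slot n N) : Prop :=
  t.1 = t'.1 ∧ t.2.1 = t'.2.1 ∧ t.2.2.1 = t'.2.2.1 ∧ inner x y t ∧ inner x y t' ∧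
    H.Adj t.2.2.2 t'.2.2.2

/-- The free vertex `v` is joined to the slot `t`. -/
def zAdj {n N : ℕ} (H : SimpleGraph (Fin n)) (x y v : Fin n) (t : Slot n N) : Prop :=
  H.Adj t.1 t.2.1 ∧ inner x y t ∧ ((v = t.1 ∧ H.Adj x t.2.2.2) ∨ (v = t.2.1 ∧ H.Adj y t.2.2.2))

/-- The edges of the host, in one direction.  The low `l (δ m (t, j)) j` plays the slot `t` in the
gadget `(m, j)`. -/
def relV {n h g N : ℕ} {I M : Type} (H : SimpleGraph (Fin n)) (x y : Fin n)
    (δ : M → Slot n N × Fin g → I) : VV n h g I M → VV n h g I M → Prop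
  | .u _, .l _ _ => True
  | .ch i _, .l i' _ => i = i'
  | .l i j, .l i' j' => j = j' ∧ ∃ m t t', δ m (t, j) = i ∧ δ m (t', j) = i' ∧ blobAdj H x y t t'
  | .z m j v, .l i j' => j = j' ∧ ∃ t, δ m (t, j) = i ∧ zAdj H x y v t
  | .z m j v, .z m' j' v' => m = m' ∧ j = j' ∧ H.Adj v v'
  | _, _ => False

/-- The host. -/
def FV {n h g N : ℕ} {I M : Type} (H : SimpleGraph (Fin n)) (x y : Fin n)
    (δ : M → Slot n N × Fin g → I) : SimpleGraph (VV n h g I M) :=
  SimpleGraph.fromRel (relV H x y δ)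

/-- The red edges of the good colouring, in one direction. -/
def redV {n h g : ℕ} {I M : Type} : VV n h g I M → VV n h g I M → Prop
  | .u _, .l _ _ => True
  | .z _ _ _, .z _ _ _ => True
  | _, _ => False

/-- The good colouring (`true` = red). -/
noncomputable def cV {n h g : ℕ} {I M : Type} (a b : VV n h g I M) : Bool := by
  classical exact decide (redV a b ∨ redV b a)

/-- Row RDV: the red copies of `H` are the sets `z m j`. -/
def RdvStatement : Prop :=
  ∀ (n h g N : ℕ) (H : SimpleGraph (Fin n)) (x y : Fin n) (I M : Type)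
    (δ : M → Slot n N × Fin g → I) (κ : Fin n → Bool), StarD H κ h → H.Connected →
    ∀ f : Fin n → VV n h g I M, Function.Injective f →
      (∀ i j, H.Adj i j → (cls (FV H x y δ) cV true).Adj (f i) (f j)) →
      ∃ m j, ∀ i, ∃ v, f i = .z m j v

/-- Row BV1: a blue copy of `H` in the gadgets of one hyperedge. -/
def Bv1Statement : Prop :=
  ∀ (n h g N : ℕ) (H : SimpleGraph (Fin n)) (x y : Fin n) (I M : Type)
    (δ : M → Slot n N × Fin g → I), 2 ≤ n → H.Adj x y → TwoC (ed H) → H.Connected →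
    (∀ m, Function.Injective (δ m)) → Sparse (n * n) δ →
    ∀ (f : Fin n → VV n h g I M) (m : M), Function.Injective f →
      (∀ i j, H.Adj i j → (cls (FV H x y δ) cV false).Adj (f i) (f j)) →
      ¬ ∀ i, (∃ j v, f i = .z m j v) ∨ ∃ t j, f i = .l (δ m (t, j)) j

/-- Row BV2: no blue copy of `H`. -/
def Bv2Statement : Prop :=
  ∀ (n h g N : ℕ) (H : SimpleGraph (Fin n)) (x y : Fin n) (I M : Type)
    (δ : M → Slot n N × Fin g → I) (κ : Fin n → Bool), StarD H κ h → 2 ≤ n → H.Adj x y →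
    TwoC (ed H) → H.Connected → (∀ m, Function.Injective (δ m)) → Sparse (n * n) δ →
    ¬ Emb H (cls (FV (h := h) H x y δ) cV false)

/-- Row NFV: the host is not Ramsey for `H'`. -/
def NfvStatement : Prop :=
  ∀ (n n' h g N : ℕ) (H : SimpleGraph (Fin n)) (H' : SimpleGraph (Fin n')) (x y : Fin n)
    (I M : Type) (δ : M → Slot n N × Fin g → I) (κ : Fin n → Bool), StarD H κ h → 2 ≤ n →
    H.Adj x y → TwoC (ed H) → H.Connected → (∀ m, Function.Injective (δ m)) →
    Sparse (n * n) δ → H'.Connected → Emb H H' → ¬ Emb H' H →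
    ¬ Arr (FV (h := h) H x y δ) H'

/-- Row ARV: the host is Ramsey for `H`. -/
def ArvStatement : Prop :=
  ∀ (n h g N : ℕ) (H : SimpleGraph (Fin n)) (x y : Fin n) (I M : Type) [Finite I] [Finite M]
    (δ : M → Slot n N × Fin g → I) (κ : Fin n → Bool) (D : StarD H κ h), H.Adj x y →
    N + 1 = 2 * (nb H D.α).card → n * 2 ^ (2 * h) < g → (∀ m, Function.Injective (δ m)) →
    Sparse (n * n) δ →
    (∀ (lab : I → Fin g → Finset (Fin h ⊕ Fin h)) (bad : I → Finset M),
      (∀ i, (bad i).card ≤ g * n) →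
      ∃ m, (∀ t t', lab (δ m t) = lab (δ m t')) ∧ ∀ t, m ∉ bad (δ m t)) →
    Arr (FV (h := h) H x y δ) H

/-- Row MNV: Theorem W'. -/
def MnvStatement : Prop :=
  ∀ (n n' h : ℕ) (H : SimpleGraph (Fin n)) (H' : SimpleGraph (Fin n')) (κ : Fin n → Bool),
    StarD H κ h → H.Connected → TwoC (ed H) → H'.Connected → Emb H H' → ¬ Emb H' H →
    ∃ (m : ℕ) (F : SimpleGraph (Fin m)), Arr F H ∧ ¬ Arr F H'

/-- `H` stays connected (and nonempty) after the deletion of `a` and `b`, which may be equal. -/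
def Stay {n : ℕ} (H : SimpleGraph (Fin n)) (a b : Fin n) : Prop :=
  (H.induce {x | x ≠ a ∧ x ≠ b}).Connected

/-- Row COV: a 2-connected bipartite graph that is disconnected by some `a ∈ A`, `b ∈ B` has the
star data.  Proof: `n ≥ 4` (else nothing is disconnected), `H - a - b` is nonempty and has a
component; take a union `K` of components with `1 ≤ |K ∩ A| ≤ h / 2` (a component or its
complement; both contain neighbours of `b`, which are in `A`, because `a` is not a cut vertex);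
`α ∈ K ∩ A`, `β₁ = b` if adjacent, else any neighbour, `Q = (K ∩ A \ α) ∪ {a}`. -/
def CovStatement : Prop :=
  ∀ (n : ℕ) (H : SimpleGraph (Fin n)) (κ : Fin n → Bool), 3 ≤ n →
    (∀ i j, H.Adj i j → κ i ≠ κ j) → (∀ a, Stay H a a) →
    (clA κ).card ≤ (univ.filter (fun x => κ x = false)).card →
    ∀ a b, κ a = true → κ b = false → ¬ Stay H a b → ∃ h, Nonempty (StarD H κ h)

end MP3240W
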