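import Pool.Agent.Lib.MP_3240be_co.H43.Defs

/-!
Row G0 of board WHW (a special case of Theorem G of helper12).
-/

set_option autoImplicit false

namespace MP3240W

open Finset MP3240T

/-- a map which is injective on a set of vertices is injective on the pairs inside the set -/
theorem map_inj_of {X Y : Type} (φ : X → Y) (S : Set X)
    (hinj : ∀ u ∈ S, ∀ v ∈ S, φ u = φ v → u = v) (e e' : Sym2 X) (he : ∀ v ∈ e, v ∈ S)
    (he' : ∀ v ∈ e', v ∈ S) (h : e.map φ = e'.map φ) : e = e' := by
  induction e using Sym2.ind with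
  | _ a b =>
    induction e' using Sym2.ind with
    | _ a' b' =>
      rw [Sym2.map_mk, Sym2.map_mk, Sym2.eq_iff] at h
      have ha := he a (Sym2.mem_mk_left a b)
      have hb := he b (Sym2.mem_mk_right a b)
      have ha' := he' a' (Sym2.mem_mk_left a' b')
      have hb' := he' b' (Sym2.mem_mk_right a' b')
      rw [Sym2.eq_iff]
      rcases h with ⟨h1, h2⟩ | ⟨h1, h2⟩
      · exact Or.inl ⟨hinj a ha a' ha' h1, hinj b hb b' hb' h2⟩
      · exact Or.inr ⟨hinj a ha b' hb' h1, hinj b hb a' ha' h2⟩

/-- the 2-line lemma: replace one part of a 2-separation by the edge `st` -/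
theorem TwoC.line {X : Type} [DecidableEq X] {I J O : Finset (Sym2 X)} {s t : X}
    (hT : TwoC I) (hJO : Disjoint J O) (hI : ∀ e, e ∈ I ↔ e ∈ J ∨ e ∈ O) (hO : O.Nonempty)
    (hst : s(s, t) ∉ J) (hsh : ∀ v, Shares J O v → v = s ∨ v = t) :
    TwoC (insert s(s, t) J) := by
  classical
  -- one half, with `st` in the first part
  have half : ∀ K K' : Finset (Sym2 X), K'.Nonempty → Disjoint K K' →
      (∀ e, e ∈ insert s(s, t) J ↔ e ∈ K ∨ e ∈ K') → s(s, t) ∈ K →
      ∃ u v, u ≠ v ∧ Shares K K' u ∧ Shares K K' v := by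
    intro K K' hK' hd hp hsK
    have hK'J : ∀ e ∈ K', e ∈ J := by
      intro e he
      rcases Finset.mem_insert.mp ((hp e).mpr (Or.inr he)) with h | h
      · rw [h] at he
        exact absurd he (Finset.disjoint_left.mp hd hsK)
      · exact h
    obtain ⟨u, v, huv, hu, hv⟩ := hT ((K.filter (· ∈ J)) ∪ O) K'
      (hO.mono Finset.subset_union_right) hK'
      (by
        rw [Finset.disjoint_left]
        intro e he he'
        rcases Finset.mem_union.mp he with h | h
        · exact Finset.disjoint_left.mp hd (Finset.mem_filter.mp h).1 he'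
        · exact Finset.disjoint_left.mp hJO (hK'J e he') h)
      (by
        intro e
        rw [hI e, Finset.mem_union, Finset.mem_filter]
        constructor
        · rintro (h | h)
          · rcases (hp e).mp (Finset.mem_insert_of_mem h) with h2 | h2
            · exact Or.inl (Or.inl ⟨h2, h⟩)
            · exact Or.inr h2
          · exact Or.inl (Or.inr h)
        · rintro ((h | h) | h)
          · exact Or.inl h.2
          · exact Or.inr h
          · exact Or.inl (hK'J e h))
    have conv : ∀ w, Shares ((K.filter (· ∈ J)) ∪ O) K' w → Shares K K' w := by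
      rintro w ⟨⟨e, he, hwe⟩, ⟨e', he', hwe'⟩⟩
      refine ⟨?_, e', he', hwe'⟩
      rcases Finset.mem_union.mp he with h | h
      · exact ⟨e, (Finset.mem_filter.mp h).1, hwe⟩
      · refine ⟨s(s, t), hsK, ?_⟩
        rcases hsh w ⟨⟨e', hK'J e' he', hwe'⟩, ⟨e, h, hwe⟩⟩ with h2 | h2
        · rw [h2]
          exact Sym2.mem_mk_left s t
        · rw [h2]
          exact Sym2.mem_mk_right s t
    exact ⟨u, v, huv, conv u hu, conv v hv⟩
  intro K K' hK hK' hd hp
  rcases (hp s(s, t)).mp (Finset.mem_insert_self _ _) with h | h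
  · exact half K K' hK' hd hp h
  · obtain ⟨u, v, huv, hu, hv⟩ := half K' K hK hd.symm (fun e => (hp e).trans or_comm) h
    exact ⟨u, v, huv, ⟨hu.2, hu.1⟩, ⟨hv.2, hv.1⟩⟩

/-- transport of 2-connectedness by a map that is injective on the vertices -/
theorem TwoC.map {X Y : Type} [DecidableEq Y] {I : Finset (Sym2 X)} (hT : TwoC I) (φ : X → Y)
    (hinj : ∀ u v, (∃ e ∈ I, u ∈ e) → (∃ e ∈ I, v ∈ e) → φ u = φ v → u = v) :
    TwoC (I.image (Sym2.map φ)) := by
  classical
  intro L L' hL hL' hd hp
  obtain ⟨u, v, huv, hu, hv⟩ := hT (I.filter (fun e => e.map φ ∈ L))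
    (I.filter (fun e => e.map φ ∈ L'))
    (by
      obtain ⟨x, hx⟩ := hL
      obtain ⟨e, he, hex⟩ := Finset.mem_image.mp ((hp x).mpr (Or.inl hx))
      exact ⟨e, Finset.mem_filter.mpr ⟨he, by rw [hex]; exact hx⟩⟩)
    (by
      obtain ⟨x, hx⟩ := hL'
      obtain ⟨e, he, hex⟩ := Finset.mem_image.mp ((hp x).mpr (Or.inr hx))
      exact ⟨e, Finset.mem_filter.mpr ⟨he, by rw [hex]; exact hx⟩⟩)
    (by
      rw [Finset.disjoint_left]
      intro e he he'
      exact Finset.disjoint_left.mp hd (Finset.mem_filter.mp he).2 (Finset.mem_filter.mp he').2)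
    (by
      intro e
      rw [Finset.mem_filter, Finset.mem_filter]
      constructor
      · intro he
        rcases (hp _).mp (Finset.mem_image_of_mem (Sym2.map φ) he) with h | h
        · exact Or.inl ⟨he, h⟩
        · exact Or.inr ⟨he, h⟩
      · rintro (h | h)
        · exact h.1
        · exact h.1)
  have conv : ∀ w, Shares (I.filter (fun e => e.map φ ∈ L)) (I.filter (fun e => e.map φ ∈ L')) w →
      Shares L L' (φ w) := by
    rintro w ⟨⟨e, he, hwe⟩, ⟨e', he', hwe'⟩⟩
    exact ⟨⟨e.map φ, (Finset.mem_filter.mp he).2, Sym2.mem_map.mpr ⟨w, hwe, rfl⟩⟩,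
      ⟨e'.map φ, (Finset.mem_filter.mp he').2, Sym2.mem_map.mpr ⟨w, hwe', rfl⟩⟩⟩
  refine ⟨φ u, φ v, ?_, conv u hu, conv v hv⟩
  intro h
  apply huv
  apply hinj u v _ _ h
  · obtain ⟨⟨e, he, hwe⟩, -⟩ := hu
    exact ⟨e, (Finset.mem_filter.mp he).1, hwe⟩
  · obtain ⟨⟨e, he, hwe⟩, -⟩ := hv
    exact ⟨e, (Finset.mem_filter.mp he).1, hwe⟩

theorem g0_proof : G0Statement := by
  classical
  intro n H D D' e0 s t φ hT hdis hpart he0 hD' hst hsh hinj hmap hst0
  have hDH : ∀ e ∈ D, e ∈ ed H := fun e he => (hpart e).mpr (Or.inl he)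
  set Op : Finset (Sym2 (Fin n)) → Finset (Sym2 (Fin n)) := fun I =>
    (I.filter (· ∈ D)).image (Sym2.map φ) ∪ (if I ⊆ D then ∅ else {e0}) with hOp
  have hmem : ∀ (I : Finset (Sym2 (Fin n))) (x : Sym2 (Fin n)), x ∈ Op I ↔
      (∃ e ∈ I, e ∈ D ∧ e.map φ = x) ∨ (¬ I ⊆ D ∧ x = e0) := by
    intro I x
    simp only [hOp, Finset.mem_union, Finset.mem_image, Finset.mem_filter]
    constructor
    · rintro (⟨e, ⟨h1, h2⟩, h3⟩ | h)
      · exact Or.inl ⟨e, h1, h2, h3⟩
      · by_cases hI : I ⊆ D
        · rw [if_pos hI] at h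
          exact absurd h (Finset.notMem_empty x)
        · rw [if_neg hI] at h
          exact Or.inr ⟨hI, Finset.mem_singleton.mp h⟩
    · rintro (⟨e, h1, h2, h3⟩ | ⟨hI, h⟩)
      · exact Or.inl ⟨e, ⟨h1, h2⟩, h3⟩
      · right
        rw [if_neg hI, h]
        exact Finset.mem_singleton_self e0
  have hmono : ∀ I I' : Finset (Sym2 (Fin n)), I ⊆ I' → Op I ⊆ Op I' := by
    intro I I' hII x hx
    rw [hmem] at hx ⊢
    rcases hx with ⟨e, h1, h2, h3⟩ | ⟨hI, h⟩
    · exact Or.inl ⟨e, hII h1, h2, h3⟩
    · exact Or.inr ⟨fun h2 => hI (hII.trans h2), h⟩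
  have key : ∀ N : ℕ, ∀ I : Finset (Sym2 (Fin n)), I.card = N → TwoC I → e0 ∈ I → Op I ⊆ I →
      I ⊆ ed H → False := by
    intro N
    induction N using Nat.strong_induction_on with
    | _ N ih =>
      intro I hN hTI he hOI hIH
      by_cases hID : I ⊆ D
      · have h1 : I.image (Sym2.map φ) ⊆ I := by
          intro x hx
          obtain ⟨e, h2, h3⟩ := Finset.mem_image.mp hx
          exact hOI ((hmem I x).mpr (Or.inl ⟨e, h2, hID h2, h3⟩))
        have h2 : (I.image (Sym2.map φ)).card = I.card := by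
          apply Finset.card_image_of_injOn
          intro e h3 e' h4 h5
          exact map_inj_of φ {u | ∃ e ∈ D, u ∈ e} (fun u hu v hv h => hinj u v hu hv h) e e'
            (fun v hv => ⟨e, hID h3, hv⟩) (fun v hv => ⟨e', hID h4, hv⟩) h5
        have h3 := Finset.eq_of_subset_of_card_le h1 h2.ge
        have h4 : e0 ∈ I.image (Sym2.map φ) := by
          rw [h3]
          exact he
        obtain ⟨e, he1, he2⟩ := Finset.mem_image.mp h4
        exact (hmap e (hID he1)).2 he2
      · set J := I.filter (· ∈ D) with hJ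
        set O := I.filter (fun e => e ∉ D) with hO
        have hJO : Disjoint J O := by
          rw [Finset.disjoint_left]
          intro e h1 h2
          exact (Finset.mem_filter.mp h2).2 (Finset.mem_filter.mp h1).2
        have hI2 : ∀ e, e ∈ I ↔ e ∈ J ∨ e ∈ O := by
          intro e
          rw [hJ, hO, Finset.mem_filter, Finset.mem_filter]
          constructor
          · intro h
            by_cases h2 : e ∈ D
            · exact Or.inl ⟨h, h2⟩
            · exact Or.inr ⟨h, h2⟩
          · rintro (h | h)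
            · exact h.1
            · exact h.1
        have hOne : O.Nonempty := by
          by_contra hne
          apply hID
          intro e h
          by_contra h2
          exact hne ⟨e, Finset.mem_filter.mpr ⟨h, h2⟩⟩
        have hJne : J.Nonempty := ⟨e0, Finset.mem_filter.mpr ⟨he, he0⟩⟩
        have hOD' : ∀ e ∈ O, e ∈ D' := by
          intro e h
          rcases (hpart e).mp (hIH (Finset.mem_filter.mp h).1) with h2 | h2
          · exact absurd h2 (Finset.mem_filter.mp h).2
          · exact h2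
        have hshJ : ∀ v, Shares J O v → v = s ∨ v = t := by
          rintro v ⟨⟨e, h1, h2⟩, ⟨e', h3, h4⟩⟩
          exact hsh v ⟨⟨e, (Finset.mem_filter.mp h1).2, h2⟩, ⟨e', hOD' e' h3, h4⟩⟩
        have hstJ : s(s, t) ∉ J := by
          intro h
          exact hst (mem_ed.mp (hDH _ (Finset.mem_filter.mp h).2))
        -- both `s` and `t` are shared
        obtain ⟨u, v, huv, hu, hv⟩ := hTI J O hJne hOne hJO hI2
        have hboth : Shares J O s ∧ Shares J O t ∧ s ≠ t := by
          rcases hshJ u hu with h1 | h1 <;> rcases hshJ v hv with h2 | h2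
          · exact absurd (h1.trans h2.symm) huv
          · exact ⟨h1 ▸ hu, h2 ▸ hv, fun h => huv (by rw [h1, h2, h])⟩
          · exact ⟨h2 ▸ hv, h1 ▸ hu, fun h => huv (by rw [h1, h2, h])⟩
          · exact absurd (h1.trans h2.symm) huv
        obtain ⟨hs, ht, hne⟩ := hboth
        have hO2 : 2 ≤ O.card := by
          by_contra hlt
          push Not at hlt
          have h1 : O.card = 1 := by
            have := hOne.card_pos
            omega
          obtain ⟨e, h2⟩ := Finset.card_eq_one.mp h1
          obtain ⟨-, ⟨e1, h3, h4⟩⟩ := hs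
          obtain ⟨-, ⟨e2, h5, h6⟩⟩ := ht
          rw [h2, Finset.mem_singleton] at h3 h5
          rw [h3] at h4
          rw [h5] at h6
          have h7 : e = s(s, t) := (Sym2.mem_and_mem_iff hne).mp ⟨h4, h6⟩
          have h8 : e ∈ ed H := (hpart e).mpr (Or.inr (hOD' e (by rw [h2]; simp)))
          rw [h7] at h8
          exact hst (mem_ed.mp h8)
        have hVD : ∀ w, (∃ e ∈ insert s(s, t) J, w ∈ e) → ∃ e ∈ D, w ∈ e := by
          rintro w ⟨e, h1, h2⟩
          rcases Finset.mem_insert.mp h1 with h | h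
          · rw [h, Sym2.mem_iff] at h2
            rcases h2 with h3 | h3
            · obtain ⟨⟨e1, h4, h5⟩, -⟩ := hs
              exact ⟨e1, (Finset.mem_filter.mp h4).2, by rw [h3]; exact h5⟩
            · obtain ⟨⟨e1, h4, h5⟩, -⟩ := ht
              exact ⟨e1, (Finset.mem_filter.mp h4).2, by rw [h3]; exact h5⟩
          · exact ⟨e, (Finset.mem_filter.mp h).2, h2⟩
        have hT1 := (hTI.line hJO hI2 hOne hstJ hshJ).map φ
          (fun u v hu hv h => hinj u v (hVD u hu) (hVD v hv) h)
        have hOpI : Op I = (insert s(s, t) J).image (Sym2.map φ) := by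
          ext x
          rw [hmem, Finset.mem_image]
          constructor
          · rintro (⟨e, h1, h2, h3⟩ | ⟨-, h⟩)
            · exact ⟨e, Finset.mem_insert_of_mem (Finset.mem_filter.mpr ⟨h1, h2⟩), h3⟩
            · exact ⟨s(s, t), Finset.mem_insert_self _ _, by rw [Sym2.map_mk, hst0, h]⟩
          · rintro ⟨e, h1, h2⟩
            rcases Finset.mem_insert.mp h1 with h | h
            · right
              refine ⟨hID, ?_⟩
              rw [← h2, h, Sym2.map_mk, hst0]
            · exact Or.inl ⟨e, (Finset.mem_filter.mp h).1, (Finset.mem_filter.mp h).2, h2⟩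
        have hcard : (Op I).card < N := by
          have h1 : (Op I).card ≤ J.card + 1 := by
            rw [hOpI]
            exact Finset.card_image_le.trans (Finset.card_insert_le _ _)
          have h2 : J.card + O.card = I.card := by
            rw [hJ, hO]
            exact Finset.card_filter_add_card_filter_not (fun e => e ∈ D)
          omega
        refine ih _ hcard (Op I) rfl (by rw [hOpI]; exact hT1) ?_ (hmono _ _ hOI)
          (hOI.trans hIH)
        rw [hmem]
        exact Or.inr ⟨hID, rfl⟩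
  refine key _ (ed H) rfl hT (hDH e0 he0) ?_ (Finset.Subset.refl _)
  intro x hx
  rcases (hmem _ x).mp hx with ⟨e, -, h2, h3⟩ | ⟨-, h⟩
  · rw [← h3]
    exact (hmap e h2).1
  · rw [h]
    exact hDH e0 he0

end MP3240W
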