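import Pool.Agent.Lib.MP_3240be_co.H43.Defs2

/-!
# MP_3240be_co, board WHV, row ARV: the host is Ramsey for `H`
-/

set_option autoImplicit false

namespace MP3240W

open Finset MP3240T
open Pool.Agent.Lib.MP_3240be_co.H36.Chrom (Sparse Leaf)

namespace Arv

/-- In a sparse hypergraph two hyperedges share at most one point. -/
theorem linear {T V M : Type} {g : ℕ} (hg : 2 ≤ g) {δ : M → T → V} (hs : Sparse g δ) {m m' : M}
    (hm : m ≠ m') {a b a' b' : T} (h1 : δ m a = δ m' a') (h2 : δ m b = δ m' b') :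
    δ m a = δ m b := by
  classical
  obtain ⟨m1, hm1, m2, hm2, hne, hl1, hl2⟩ := hs {m, m'} (by rw [card_pair hm])
    (by rw [card_pair hm]; exact hg)
  have key : Leaf δ {m, m'} m := by
    rcases mem_insert.1 hm1 with e1 | e1
    · exact e1 ▸ hl1
    · rcases mem_insert.1 hm2 with e2 | e2
      · exact e2 ▸ hl2
      · exact absurd ((mem_singleton.1 e1).trans (mem_singleton.1 e2).symm) hne
  exact key m' (by simp) m' (by simp) hm.symm hm.symm a a' b b' h1 h2

variable {n h g N : ℕ} {I M : Type} (H : SimpleGraph (Fin n)) (x y : Fin n)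
  (δ : M → Slot n N × Fin g → I)

/-- The hubs of the index `i`. -/
def hub (i : I) : Fin h ⊕ Fin h → VV n h g I M
  | .inl l => .u l
  | .inr l => .ch i l

theorem hub_inj (i : I) : Function.Injective (hub (n := n) (h := h) (g := g) (M := M) i) := by
  rintro (a | a) (b | b) hab
  · injection hab with h1
    exact congrArg _ h1
  · cases hab
  · cases hab
  · injection hab with _ h1
    exact congrArg _ h1

theorem adj_iff (a b : VV n h g I M) : (FV H x y δ).Adj a b ↔
    a ≠ b ∧ (relV H x y δ a b ∨ relV H x y δ b a) := SimpleGraph.fromRel_adj _ _ _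

theorem adj_hub (i : I) (s : Fin h ⊕ Fin h) (j : Fin g) :
    (FV H x y δ).Adj (hub i s) (.l i j) := by
  rcases s with l | l
  · exact (adj_iff H x y δ _ _).2 ⟨by simp [hub], Or.inl trivial⟩
  · exact (adj_iff H x y δ _ _).2 ⟨by simp [hub], Or.inl rfl⟩

theorem adj_u (l : Fin h) (i : I) (j : Fin g) :
    (FV H x y δ).Adj (.u l : VV n h g I M) (.l i j) :=
  (adj_iff H x y δ _ _).2 ⟨by simp, Or.inl trivial⟩

theorem adj_z_z (m : M) (j : Fin g) {v v' : Fin n} (hv : H.Adj v v') :
    (FV (h := h) H x y δ).Adj (.z m j v) (.z m j v') :=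
  (adj_iff H x y δ _ _).2 ⟨by
    intro he
    injection he with _ _ h2
    exact hv.ne h2, Or.inl ⟨rfl, rfl, hv⟩⟩

theorem adj_z_l (m : M) (j : Fin g) {v : Fin n} {t : Slot n N} (hv : zAdj H x y v t) :
    (FV (h := h) H x y δ).Adj (.z m j v) (.l (δ m (t, j)) j) :=
  (adj_iff H x y δ _ _).2 ⟨by simp, Or.inl ⟨rfl, t, rfl, hv⟩⟩

theorem adj_l_l (hδ : ∀ m, Function.Injective (δ m)) (m : M) (j : Fin g) {t t' : Slot n N}
    (htt : blobAdj H x y t t') :
    (FV (h := h) H x y δ).Adj (.l (δ m (t, j)) j) (.l (δ m (t', j)) j) :=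
  (adj_iff H x y δ _ _).2 ⟨by
    intro he
    injection he with h1 _
    have h2 := congrArg Prod.fst (hδ m h1)
    simp only at h2
    rw [h2] at htt
    exact H.loopless.irrefl _ htt.2.2.2.2.2, Or.inl ⟨rfl, m, t, t', rfl, rfl, htt⟩⟩

end Arv

open Arv

theorem arv_proof (hZ : Zd2Statement) (hNo : NoaStatement) : ArvStatement := by
  classical
  intro n h g N H x y I M hI hM δ κ D hxy hN hg hδ hsp hhyp c hc
  by_contra hcon
  have hno : ∀ b, ¬ Emb H (cls (FV H x y δ) c b) := fun b hb => hcon ⟨b, hb⟩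
  have hMf : Fintype M := Fintype.ofFinite M
  have hn2 : 2 ≤ n := by
    have h1 := x.isLt
    have h2 := y.isLt
    have h3 : x.val ≠ y.val := fun e => hxy.ne (Fin.ext e)
    omega
  have hnn : 2 ≤ n * n := by nlinarith
  have hδn : (nb H D.α).card ≤ n := by
    have h1 := card_le_univ (nb H D.α)
    rwa [Fintype.card_fin] at h1
  have hδ1 : 0 < (nb H D.α).card := by omega
  have hb' : ∀ c' b : Bool, c' ≠ b → c' = !b := by decide
  -- patterns
  let pat : I → Fin g → Finset (Fin h ⊕ Fin h) := fun i j =>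
    univ.filter (fun s => c (hub i s) (.l i j) = true)
  let cp : Bool → Finset (Fin h ⊕ Fin h) → Finset (Fin h ⊕ Fin h) := fun b p =>
    if b then p else pᶜ
  have hcp : ∀ b i j s, s ∈ cp b (pat i j) ↔ c (hub i s) (.l i j) = b := by
    intro b i j s
    cases b with
    | true => simp [cp, pat]
    | false => simp [cp, pat]
  let nonrare : I → Finset (Fin h ⊕ Fin h) → Prop := fun i p =>
    n ≤ (univ.filter (fun j => pat i j = p)).card
  have hmany : ∀ b i p, nonrare i p →
      Many (cls (FV H x y δ) c b) n ((cp b p).image (hub i)) := by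
    intro b i p hp
    refine ⟨(univ.filter (fun j => pat i j = p)).image (fun j => .l i j), ?_, ?_⟩
    · rw [card_image_of_injective]
      · exact hp
      · intro j j' hjj
        injection hjj
    · intro z hz u hu
      obtain ⟨j, hj, rfl⟩ := mem_image.1 hz
      obtain ⟨s, hs, rfl⟩ := mem_image.1 hu
      rw [← (mem_filter.1 hj).2] at hs
      have h1 := (hcp b i j s).1 hs
      exact ⟨adj_hub H x y δ i s j, h1, (hc _ _).trans h1⟩
  have hle : ∀ b i p, nonrare i p → (cp b p).card ≤ h := by
    intro b i p hp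
    by_contra hlt
    refine hno b (hNo n h H κ D _ _ ((cp b p).image (hub i)) ?_ (hmany b i p hp))
    rw [card_image_of_injective _ (hub_inj i)]
    omega
  have hcard : ∀ b i p, nonrare i p → (cp b p).card = h := by
    intro b i p hp
    have h1 := hle true i p hp
    have h2 := hle false i p hp
    have h3 : p.card + pᶜ.card = 2 * h := by
      rw [card_add_card_compl, Fintype.card_sum, Fintype.card_fin]
      omega
    simp only [cp, if_true] at h1
    simp only [cp, Bool.false_eq_true, if_false] at h2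
    cases b with
    | true =>
      simp only [cp, if_true]
      omega
    | false =>
      simp only [cp, Bool.false_eq_true, if_false]
      omega
  -- majority colour
  let Sp : Bool → Finset (Fin h ⊕ Fin h) → Finset (Fin h) := fun b p =>
    univ.filter (fun l => Sum.inl l ∈ cp b p)
  let mj : Finset (Fin h ⊕ Fin h) → Bool := fun p => decide (h ≤ 2 * (Sp true p).card)
  have hmj : ∀ p, h ≤ 2 * (Sp (mj p) p).card := by
    intro p
    by_cases h1 : h ≤ 2 * (Sp true p).card
    · have h2 : mj p = true := decide_eq_true h1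
      rw [h2]
      exact h1
    · have h2 : mj p = false := decide_eq_false h1
      rw [h2]
      have h3 := card_filter_add_card_filter_not (s := (univ : Finset (Fin h)))
        (fun l => Sum.inl l ∈ cp true p)
      have h4 : (univ.filter (fun l : Fin h => ¬ Sum.inl l ∈ cp true p)) = Sp false p := by
        ext l
        simp [Sp, cp]
      have h5 : (univ : Finset (Fin h)).card = h := by rw [card_univ, Fintype.card_fin]
      rw [h4, h5] at h3
      have h6 : (univ.filter (fun l : Fin h => Sum.inl l ∈ cp true p)) = Sp true p := rfl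
      rw [h6] at h3
      omega
  -- paper (Z)
  have zz : ∀ (p : Finset (Fin h ⊕ Fin h)) (v : VV n h g I M) (L : Finset I) (j : Fin g),
      (∀ i s, v ≠ hub i s) → (∀ i ∈ L, pat i j = p ∧ nonrare i p ∧
        (FV H x y δ).Adj v (.l i j) ∧ c v (.l i j) = mj p) → L.card < (nb H D.α).card := by
    intro p v L j hv hL
    by_contra hlt
    have hne : L.Nonempty := card_pos.1 (by omega)
    obtain ⟨i1, hi1⟩ := hne
    refine hno (mj p) (hZ n h H κ D _ _ ((cp (mj p) p).image (hub i1))
      ((Sp (mj p) p).image VV.u) (L.image (fun i => .l i j)) (.l i1 j) v ?_ ?_ ?_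
      (hmany _ i1 p (hL i1 hi1).2.1) ?_ ?_ (mem_image.2 ⟨i1, hi1, rfl⟩) ?_ ?_ ?_ ?_)
    · rw [card_image_of_injective _ (hub_inj i1)]
      exact hcard _ i1 p (hL i1 hi1).2.1
    · intro a ha
      obtain ⟨l, hl, rfl⟩ := mem_image.1 ha
      exact mem_image.2 ⟨Sum.inl l, (mem_filter.1 hl).2, rfl⟩
    · rw [card_image_of_injective]
      · exact hmj p
      · intro a b hab
        injection hab
    · intro hvP
      obtain ⟨s, _, hs⟩ := mem_image.1 hvP
      exact hv i1 s hs.symm
    · rw [disjoint_left]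
      intro a ha hb
      obtain ⟨i, _, rfl⟩ := mem_image.1 ha
      obtain ⟨s, _, hs⟩ := mem_image.1 hb
      rcases s with s | s
      · cases hs
      · cases hs
    · rw [card_image_of_injective]
      · omega
      · intro a b hab
        injection hab
    · intro a ha
      obtain ⟨i, hi, rfl⟩ := mem_image.1 ha
      exact ⟨(hL i hi).2.2.1, (hL i hi).2.2.2, (hc _ _).trans (hL i hi).2.2.2⟩
    · intro a ha u hu
      obtain ⟨i, hi, rfl⟩ := mem_image.1 ha
      obtain ⟨l, hl, rfl⟩ := mem_image.1 hu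
      have h1 := (mem_filter.1 hl).2
      rw [← (hL i hi).1] at h1
      have h2 : c (.u l) (.l i j) = mj (pat i j) := (hcp _ i j (Sum.inl l)).1 h1
      rw [(hL i hi).1] at h2
      exact ⟨adj_u H x y δ l i j, h2, (hc _ _).trans h2⟩
    · intro u hu
      obtain ⟨s, hs, rfl⟩ := mem_image.1 hu
      rw [← (hL i1 hi1).1] at hs
      have h2 := (hcp _ i1 j s).1 hs
      rw [(hL i1 hi1).1] at h2
      exact ⟨adj_hub H x y δ i1 s j, h2, (hc _ _).trans h2⟩
  -- the bad sets
  let badj : I → Fin g → Finset M := fun i j => univ.filter (fun m => ∃ t, δ m (t, j) = i ∧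
    ∃ t', blobAdj H x y t t' ∧ pat (δ m (t', j)) j = pat i j ∧
      nonrare (δ m (t', j)) (pat i j) ∧
      c (.l i j) (.l (δ m (t', j)) j) = mj (pat i j))
  have hbadj : ∀ i j, (badj i j).card ≤ n := by
    intro i j
    have h1 : ∀ m : {m // m ∈ badj i j}, ∃ t, δ m.1 (t, j) = i ∧
      ∃ t', blobAdj H x y t t' ∧ pat (δ m.1 (t', j)) j = pat i j ∧
      nonrare (δ m.1 (t', j)) (pat i j) ∧
      c (.l i j) (.l (δ m.1 (t', j)) j) = mj (pat i j) := fun m => (mem_filter.1 m.2).2
    choose t ht t' ht1 ht2 ht3 ht4 using h1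
    have h2 := zz (pat i j) (.l i j) (univ.image (fun m => δ m.1 (t' m, j))) j
      (by
        rintro i' (s | s) e
        · cases e
        · cases e)
      (by
        intro i' hi'
        obtain ⟨m, _, rfl⟩ := mem_image.1 hi'
        refine ⟨ht2 m, ht3 m, ?_, ht4 m⟩
        have h3 := adj_l_l (h := h) H x y δ hδ m.1 j (ht1 m)
        rwa [ht m] at h3)
    rw [card_image_of_injective, card_univ, Fintype.card_coe] at h2
    · omega
    · intro m m' hmm
      by_contra hne
      have hne' : m.1 ≠ m'.1 := fun e => hne (Subtype.ext e)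
      have h4 := linear hnn hsp hne' (a := (t m, j)) (a' := (t m', j)) (b := (t' m, j))
        (b' := (t' m', j)) ((ht m).trans (ht m').symm) hmm
      have h5 := congrArg Prod.fst (hδ _ h4)
      simp only at h5
      have h6 := ht1 m
      rw [h5] at h6
      exact H.loopless.irrefl _ h6.2.2.2.2.2
  obtain ⟨m, hm1, hm2⟩ := hhyp pat (fun i => univ.biUnion (fun j => badj i j)) (fun i => by
    refine (card_biUnion_le).trans ?_
    refine (sum_le_card_nsmul _ _ n (fun j _ => hbadj i j)).trans ?_
    rw [card_univ, Fintype.card_fin, smul_eq_mul])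
  have hg0 : 0 < g := by omega
  have hN1 : 0 < N := by omega
  -- the common pattern function
  let t0 : Slot n N × Fin g := ((x, x, ⟨0, hN1⟩, x), ⟨0, hg0⟩)
  have hφ : ∀ t j, pat (δ m t) j = pat (δ m t0) j := fun t j => congrFun (hm1 t t0) j
  obtain ⟨p, hp⟩ := Fintype.exists_le_card_fiber_of_mul_le_card (f := pat (δ m t0)) (n := n) (by
    rw [Fintype.card_finset, Fintype.card_sum, Fintype.card_fin, Fintype.card_fin]
    have h1 : h + h = 2 * h := by omega
    rw [h1, mul_comm]
    exact hg.le)
  obtain ⟨j, hj⟩ : ∃ j, pat (δ m t0) j = p := by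
    have h1 : (univ.filter (fun j => pat (δ m t0) j = p)).Nonempty := card_pos.1 (by omega)
    obtain ⟨j, hj⟩ := h1
    exact ⟨j, (mem_filter.1 hj).2⟩
  have hnr : ∀ t, nonrare (δ m t) p := by
    intro t
    have h1 : (univ.filter (fun j => pat (δ m t) j = p)) =
        univ.filter (fun j => pat (δ m t0) j = p) := by
      ext j'
      simp only [mem_filter, mem_univ, true_and, hφ t j']
    show n ≤ (univ.filter (fun j => pat (δ m t) j = p)).card
    rw [h1]
    exact hp
  have hpj : ∀ t, pat (δ m (t, j)) j = p := fun t => (hφ _ j).trans hj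
  obtain ⟨b, hb⟩ : ∃ b, b = mj p := ⟨_, rfl⟩
  have hblue : ∀ t t', blobAdj H x y t t' →
      c (.l (δ m (t, j)) j) (.l (δ m (t', j)) j) = !b := by
    intro t t' htt
    apply hb'
    intro hcol
    apply hm2 (t, j)
    refine mem_biUnion.2 ⟨j, mem_univ _, mem_filter.2 ⟨mem_univ _, t, rfl, t', htt, ?_, ?_, ?_⟩⟩
    · rw [hpj, hpj]
    · rw [hpj]
      exact hnr _
    · rw [hpj, hcol, hb]
  -- free vertices see few majority edges
  have zed : ∀ (v : Fin n) (S : Finset (Slot n N)),
      (∀ t ∈ S, zAdj H x y v t ∧ c (.z m j v) (.l (δ m (t, j)) j) = b) →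
      S.card < (nb H D.α).card := by
    intro v S hS'
    have h1 := zz p (.z m j v) (S.image (fun t => δ m (t, j))) j
      (by
        rintro i' (s | s) e
        · cases e
        · cases e)
      (by
        intro i hi
        obtain ⟨t, ht, rfl⟩ := mem_image.1 hi
        exact ⟨hpj t, hnr _, adj_z_l H x y δ m j (hS' t ht).1, (hS' t ht).2.trans hb⟩)
    rwa [card_image_of_injective] at h1
    intro t t' htt
    exact congrArg Prod.fst (hδ m htt)
  have hred : ∀ v v', H.Adj v v' → c (.z m j v) (.z m j v') = b := by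
    intro v v' hvv
    by_contra hne
    have hne' := hb' _ _ hne
    let R1 : Finset (Fin N) := univ.filter (fun ν => ∃ w, (w ≠ x ∧ w ≠ y) ∧ H.Adj x w ∧
      c (.z m j v) (.l (δ m ((v, v', ν, w), j)) j) = b)
    let R2 : Finset (Fin N) := univ.filter (fun ν => ∃ w, (w ≠ x ∧ w ≠ y) ∧ H.Adj y w ∧
      c (.z m j v') (.l (δ m ((v, v', ν, w), j)) j) = b)
    have hR1 : R1.card < (nb H D.α).card := by
      have h1 : ∀ ν : {ν // ν ∈ R1}, ∃ w, (w ≠ x ∧ w ≠ y) ∧ H.Adj x w ∧
          c (.z m j v) (.l (δ m ((v, v', ν.1, w), j)) j) = b := fun ν => (mem_filter.1 ν.2).2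
      choose w hw1 hw2 hw3 using h1
      have h2 := zed v (univ.image (fun ν : {ν // ν ∈ R1} => ((v, v', ν.1, w ν) : Slot n N)))
        (fun t ht => by
          obtain ⟨ν, _, rfl⟩ := mem_image.1 ht
          exact ⟨⟨hvv, hw1 ν, Or.inl ⟨rfl, hw2 ν⟩⟩, hw3 ν⟩)
      rw [card_image_of_injective, card_univ, Fintype.card_coe] at h2
      · exact h2
      · intro ν ν' h3
        exact Subtype.ext (congrArg (fun t : Slot n N => t.2.2.1) h3)
    have hR2 : R2.card < (nb H D.α).card := by
      have h1 : ∀ ν : {ν // ν ∈ R2}, ∃ w, (w ≠ x ∧ w ≠ y) ∧ H.Adj y w ∧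
          c (.z m j v') (.l (δ m ((v, v', ν.1, w), j)) j) = b := fun ν => (mem_filter.1 ν.2).2
      choose w hw1 hw2 hw3 using h1
      have h2 := zed v' (univ.image (fun ν : {ν // ν ∈ R2} => ((v, v', ν.1, w ν) : Slot n N)))
        (fun t ht => by
          obtain ⟨ν, _, rfl⟩ := mem_image.1 ht
          exact ⟨⟨hvv, hw1 ν, Or.inr ⟨rfl, hw2 ν⟩⟩, hw3 ν⟩)
      rw [card_image_of_injective, card_univ, Fintype.card_coe] at h2
      · exact h2
      · intro ν ν' h3
        exact Subtype.ext (congrArg (fun t : Slot n N => t.2.2.1) h3)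
    obtain ⟨ν, hν⟩ : ∃ ν, ν ∉ R1 ∪ R2 := by
      by_contra hall
      push Not at hall
      have h1 : (univ : Finset (Fin N)) ⊆ R1 ∪ R2 := fun ν _ => hall ν
      have h2 := card_le_card h1
      have h3 := card_union_le R1 R2
      rw [card_univ, Fintype.card_fin] at h2
      omega
    have hν1 : ∀ w, (w ≠ x ∧ w ≠ y) → H.Adj x w →
        c (.z m j v) (.l (δ m ((v, v', ν, w), j)) j) = !b := by
      intro w hw hxw
      apply hb'
      intro e
      exact hν (mem_union_left _ (mem_filter.2 ⟨mem_univ _, w, hw, hxw, e⟩))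
    have hν2 : ∀ w, (w ≠ x ∧ w ≠ y) → H.Adj y w →
        c (.z m j v') (.l (δ m ((v, v', ν, w), j)) j) = !b := by
      intro w hw hyw
      apply hb'
      intro e
      exact hν (mem_union_right _ (mem_filter.2 ⟨mem_univ _, w, hw, hyw, e⟩))
    let f : Fin n → VV n h g I M := fun w =>
      if w = x then .z m j v else if w = y then .z m j v' else .l (δ m ((v, v', ν, w), j)) j
    have hfx : f x = .z m j v := if_pos rfl
    have hfy : f y = .z m j v' := by
      show (if y = x then _ else if y = y then _ else _) = _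
      rw [if_neg hxy.ne.symm, if_pos rfl]
    have hfw : ∀ w, w ≠ x → w ≠ y → f w = .l (δ m ((v, v', ν, w), j)) j := by
      intro w h1 h2
      show (if w = x then _ else if w = y then _ else _) = _
      rw [if_neg h1, if_neg h2]
    have key : ∀ i j', H.Adj i j' → (FV H x y δ).Adj (f i) (f j') ∧ c (f i) (f j') = !b := by
      intro i j' hij
      by_cases hix : i = x
      · subst hix
        by_cases hjy : j' = y
        · subst hjy
          rw [hfx, hfy]
          exact ⟨adj_z_z H _ _ δ m j hvv, hne'⟩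
        · have hjx : j' ≠ i := hij.ne.symm
          rw [hfx, hfw j' hjx hjy]
          exact ⟨adj_z_l H _ _ δ m j ⟨hvv, ⟨hjx, hjy⟩, Or.inl ⟨rfl, hij⟩⟩,
            hν1 j' ⟨hjx, hjy⟩ hij⟩
      · by_cases hiy : i = y
        · subst hiy
          by_cases hjx : j' = x
          · subst hjx
            rw [hfx, hfy]
            exact ⟨(adj_z_z H _ _ δ m j hvv).symm, (hc _ _).trans hne'⟩
          · have hjy : j' ≠ i := hij.ne.symm
            rw [hfy, hfw j' hjx hjy]
            exact ⟨adj_z_l H _ _ δ m j ⟨hvv, ⟨hjx, hjy⟩, Or.inr ⟨rfl, hij⟩⟩,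
              hν2 j' ⟨hjx, hjy⟩ hij⟩
        · rw [hfw i hix hiy]
          by_cases hjx : j' = x
          · subst hjx
            rw [hfx]
            exact ⟨(adj_z_l H _ _ δ m j ⟨hvv, ⟨hix, hiy⟩, Or.inl ⟨rfl, hij.symm⟩⟩).symm,
              (hc _ _).trans (hν1 i ⟨hix, hiy⟩ hij.symm)⟩
          · by_cases hjy : j' = y
            · subst hjy
              rw [hfy]
              exact ⟨(adj_z_l H _ _ δ m j ⟨hvv, ⟨hix, hiy⟩, Or.inr ⟨rfl, hij.symm⟩⟩).symm,
                (hc _ _).trans (hν2 i ⟨hix, hiy⟩ hij.symm)⟩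
            · rw [hfw j' hjx hjy]
              have h1 : blobAdj (N := N) H x y (v, v', ν, i) (v, v', ν, j') :=
                ⟨rfl, rfl, rfl, ⟨hix, hiy⟩, ⟨hjx, hjy⟩, hij⟩
              exact ⟨adj_l_l H x y δ hδ m j h1, hblue _ _ h1⟩
    refine hno (!b) ⟨f, ?_, fun i j' hij => ⟨(key i j' hij).1, (key i j' hij).2,
      (hc _ _).trans (key i j' hij).2⟩⟩
    intro i i' hij
    by_cases hix : i = x
    · by_cases hjx : i' = x
      · rw [hix, hjx]
      · by_cases hjy : i' = y
        · rw [hix, hjy, hfx, hfy] at hij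
          injection hij with _ _ h2
          exact absurd h2 hvv.ne
        · rw [hix, hfx, hfw i' hjx hjy] at hij
          cases hij
    · by_cases hiy : i = y
      · by_cases hjx : i' = x
        · rw [hiy, hjx, hfx, hfy] at hij
          injection hij with _ _ h2
          exact absurd h2.symm hvv.ne
        · by_cases hjy : i' = y
          · rw [hiy, hjy]
          · rw [hiy, hfy, hfw i' hjx hjy] at hij
            cases hij
      · rw [hfw i hix hiy] at hij
        by_cases hjx : i' = x
        · rw [hjx, hfx] at hij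
          cases hij
        · by_cases hjy : i' = y
          · rw [hjy, hfy] at hij
            cases hij
          · rw [hfw i' hjx hjy] at hij
            injection hij with h2 _
            exact congrArg (fun t : Slot n N × Fin g => t.1.2.2.2) (hδ m h2)
  refine hno b ⟨fun v => .z m j v, ?_, ?_⟩
  · intro v v' hvv
    injection hvv
  · intro v v' hvv
    exact ⟨adj_z_z H x y δ m j hvv, hred v v' hvv, (hc _ _).trans (hred v v' hvv)⟩

end MP3240W
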