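import Pool.Agent.Lib.MP_3240be_co.H43.Defs2

/-!
# Row BV2 (helper52): no blue copy of `H` in the host of Theorem W'

The blue edges lie in worlds (`ch i` against `l i`) and in gadgets; a copy of the 2-connected graph
`H` lies in one of them by row PC2; a world is too small (at most `h` vertices on one side), a
gadget is excluded by row BV1.
-/

set_option autoImplicit false

namespace MP3240W

open Finset MP3240T
open Pool.Agent.Lib.MP_3240be_co.H36.Chrom (Sparse)

namespace Bv2

variable {n h g N : ℕ} {I M : Type}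

/-- The world of a vertex. -/
def lab : VV n h g I M → Option I
  | .u _ => none
  | .ch i _ => some i
  | .l i _ => some i
  | .z _ _ _ => none

/-- The vertex belongs to a gadget of `m`. -/
def gad (δ : M → Slot n N × Fin g → I) (m : M) : VV n h g I M → Prop
  | .l i j => ∃ t, δ m (t, j) = i
  | .z m' _ _ => m' = m
  | _ => False

/-- The vertex is a hub `ch`. -/
def hub : VV n h g I M → Bool
  | .ch _ _ => true
  | _ => false

/-- A blue edge lies in a world or in a gadget. -/
theorem cover (H : SimpleGraph (Fin n)) (x y : Fin n) (δ : M → Slot n N × Fin g → I)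
    (a b : VV n h g I M) (hr : relV H x y δ a b) (hn : ¬ redV a b) :
    (∃ i, lab a = some i ∧ lab b = some i) ∨ ∃ m, gad δ m a ∧ gad δ m b := by
  rcases a with l | ⟨i, l⟩ | ⟨i, j⟩ | ⟨m, j, v⟩ <;>
    rcases b with l' | ⟨i', l'⟩ | ⟨i', j'⟩ | ⟨m', j', v'⟩ <;>
    first
      | exact False.elim hr
      | exact False.elim (hn trivial)
      | skip
  · have h1 : i = i' := hr
    exact Or.inl ⟨i', by rw [h1]; rfl, rfl⟩
  · obtain ⟨rfl, m, t, t', h1, h2, -⟩ := hr
    exact Or.inr ⟨m, ⟨t, h1⟩, ⟨t', h2⟩⟩
  · obtain ⟨rfl, t, h1, -⟩ := hr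
    exact Or.inr ⟨m, rfl, ⟨t, h1⟩⟩

/-- A blue edge inside a world joins a hub and a low. -/
theorem inside (H : SimpleGraph (Fin n)) (x y : Fin n) (δ : M → Slot n N × Fin g → I) (i0 : I)
    (a b : VV n h g I M) (hab : a ≠ b) (hr : relV H x y δ a b) (hn : ¬ redV a b)
    (ha : lab a = some i0) (hb : lab b = some i0) : hub a ≠ hub b := by
  rcases a with l | ⟨i, l⟩ | ⟨i, j⟩ | ⟨m, j, v⟩ <;>
    rcases b with l' | ⟨i', l'⟩ | ⟨i', j'⟩ | ⟨m', j', v'⟩ <;>
    first
      | exact False.elim hr
      | exact False.elim (hn trivial)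
      | skip
  · intro e
    exact Bool.noConfusion e
  · exfalso
    apply hab
    have h1 : i = i' := Option.some_injective _ (ha.trans hb.symm)
    rw [h1, hr.1]
  · exact absurd ha (by simp [lab])

/-- Two proper 2-colourings of a connected graph. -/
theorem two_col (H : SimpleGraph (Fin n)) (hc : H.Connected) (κ κ' : Fin n → Bool)
    (h1 : ∀ i j, H.Adj i j → κ i ≠ κ j) (h2 : ∀ i j, H.Adj i j → κ' i ≠ κ' j) :
    (∀ i, κ' i = κ i) ∨ ∀ i, κ' i = !κ i := by
  have step : ∀ i j, H.Adj i j → (κ' i = κ i ↔ κ' j = κ j) := by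
    intro i j hij
    have e1 := h1 i j hij
    have e2 := h2 i j hij
    revert e1 e2
    cases κ i <;> cases κ j <;> cases κ' i <;> cases κ' j <;> simp
  have walk : ∀ i j, (κ' i = κ i ↔ κ' j = κ j) := by
    intro i j
    obtain ⟨p⟩ := hc.preconnected i j
    induction p with
    | nil => exact Iff.rfl
    | cons hadj _ ih => exact (step _ _ hadj).trans ih
  obtain ⟨i0⟩ := hc.nonempty
  by_cases h0 : κ' i0 = κ i0
  · exact Or.inl fun i => (walk i0 i).1 h0
  · refine Or.inr fun i => ?_
    have h3 : ¬ κ' i = κ i := fun e => h0 ((walk i0 i).2 e)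
    revert h3
    cases κ i <;> cases κ' i <;> simp

end Bv2

open Bv2 in
theorem bv2_proof (h1 : Pc2Statement) (h2 : Bv1Statement) : Bv2Statement := by
  intro n h g N H x y I M δ κ D hn hxy htc hcon hδ hsp hE
  obtain ⟨f, hf, hadj⟩ := hE
  have hblue : ∀ a b : VV n h g I M, (cls (FV H x y δ) cV false).Adj a b →
      a ≠ b ∧ (relV H x y δ a b ∨ relV H x y δ b a) ∧ ¬ redV a b ∧ ¬ redV b a := by
    intro a b hab
    have e1 := (SimpleGraph.fromRel_adj _ _ _).1 hab.1
    have e2 : ¬ (redV a b ∨ redV b a) := by
      have e3 := hab.2.1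
      unfold cV at e3
      classical exact of_decide_eq_false e3
    exact ⟨e1.1, e1.2, fun e => e2 (Or.inl e), fun e => e2 (Or.inr e)⟩
  have hno : ∀ u : Fin n, ∃ v, H.Adj u v := by
    intro u
    have : Nontrivial (Fin n) := Fin.nontrivial_iff_two_le.2 hn
    exact hcon.preconnected.exists_adj_of_nontrivial u
  have hmain := h1 n H (VV n h g I M) I I M (Slot n N × Fin g) δ id f
    (fun i => {a | lab a = some i}) (fun m => {a | gad δ m a})
    (fun m t => VV.l (δ m t) t.2) (by omega) htc hno hf Function.injective_id hδ hsp ?_ ?_ ?_ ?_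
  · rcases hmain with ⟨i0, hi⟩ | ⟨m, hm⟩
    · -- a world is too small
      have hp : ∀ i j, H.Adj i j → hub (f i) ≠ hub (f j) := by
        intro i j hij
        obtain ⟨e0, e1, e2, e3⟩ := hblue _ _ (hadj i j hij)
        rcases e1 with e1 | e1
        · exact inside H x y δ i0 _ _ e0 e1 e2 (hi i) (hi j)
        · exact (inside H x y δ i0 _ _ e0.symm e1 e3 (hi j) (hi i)).symm
      have hlow : (univ.filter (fun v => hub (f v) = true)).card ≤ h := by
        by_contra hlt
        have hlt' : (univ : Finset (Fin h)).card < (univ.filter (fun v => hub (f v) = true)).card := by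
          rw [Finset.card_univ, Fintype.card_fin]
          exact Nat.lt_of_not_le hlt
        have hh : ∀ v, hub (f v) = true → ∃ l, f v = VV.ch i0 l := by
          intro v hv
          have hlab : lab (f v) = some i0 := hi v
          revert hv hlab
          rcases f v with l | ⟨i, l⟩ | ⟨i, j⟩ | ⟨m, j, w⟩ <;> intro hv hlab
          · exact absurd hv (by simp [hub])
          · have e : i = i0 := Option.some_injective _ hlab
            exact ⟨l, by rw [e]⟩
          · exact absurd hv (by simp [hub])
          · exact absurd hv (by simp [hub])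
        have hpos : 0 < h := by
          rcases Nat.eq_zero_or_pos h with h0 | h0
          · subst h0
            obtain ⟨v, hv⟩ := Finset.card_pos.1 (lt_of_le_of_lt (Nat.zero_le _) hlt')
            obtain ⟨l, -⟩ := hh v (Finset.mem_filter.1 hv).2
            exact l.elim0
          · exact h0
        have : Nonempty (Fin h) := ⟨⟨0, hpos⟩⟩
        let c : Fin n → Fin h := fun v => Classical.epsilon (fun l => f v = VV.ch i0 l)
        have hcs : ∀ v, hub (f v) = true → f v = VV.ch i0 (c v) := fun v hv =>
          Classical.epsilon_spec (p := fun l => f v = VV.ch i0 l) (hh v hv)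
        obtain ⟨v, hv, w, hw, hvw, hcvw⟩ := Finset.exists_ne_map_eq_of_card_lt_of_maps_to
          (f := c) hlt' (fun _ _ => Finset.mem_univ _)
        apply hvw
        apply hf
        rw [hcs v (Finset.mem_filter.1 hv).2, hcs w (Finset.mem_filter.1 hw).2, hcvw]
      rcases two_col H hcon κ (fun v => hub (f v)) D.prop hp with e | e
      · have e1 : univ.filter (fun v => hub (f v) = true) = clA κ := by
          ext v
          simp only [clA, Finset.mem_filter, Finset.mem_univ, true_and]
          rw [e v]
        have := D.cardA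
        rw [e1] at hlow
        omega
      · have e1 : univ.filter (fun v => hub (f v) = true) =
            univ.filter (fun v => κ v = false) := by
          ext v
          simp only [Finset.mem_filter, Finset.mem_univ, true_and]
          rw [e v]
          cases κ v <;> simp
        have := D.cardB
        rw [e1] at hlow
        omega
    · apply h2 n h g N H x y I M δ hn hxy htc hcon hδ hsp f m hf hadj
      intro i
      have h4 : gad δ m (f i) := hm i
      revert h4
      rcases f i with l | ⟨i, l⟩ | ⟨i, j⟩ | ⟨m', j, v⟩ <;> intro h4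
      · exact False.elim h4
      · exact False.elim h4
      · obtain ⟨t, rfl⟩ := h4
        exact Or.inr ⟨t, j, rfl⟩
      · have h5 : m' = m := h4
        exact Or.inl ⟨j, v, by rw [h5]⟩
  · intro u v huv
    obtain ⟨-, e1, e2, e3⟩ := hblue _ _ (hadj u v huv)
    rcases e1 with e1 | e1
    · exact cover H x y δ _ _ e1 e2
    · rcases cover H x y δ _ _ e1 e3 with ⟨j, g1, g2⟩ | ⟨m, g1, g2⟩
      · exact Or.inl ⟨j, g2, g1⟩
      · exact Or.inr ⟨m, g2, g1⟩
  · intro j j' a ha ha'
    exact Option.some_injective _ (ha.symm.trans ha')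
  · intro m m' a hmm ha ha'
    have h4 : gad δ m a := ha
    have h6 : gad δ m' a := ha'
    revert h4 h6
    rcases a with l | ⟨i, l⟩ | ⟨i, j⟩ | ⟨m0, j, v⟩ <;> intro h4 h6
    · exact False.elim h4
    · exact False.elim h4
    · obtain ⟨t, rfl⟩ := h4
      obtain ⟨t', h5⟩ := h6
      exact ⟨(t, j), (t', j), rfl, h5.symm⟩
    · have h5 : m0 = m := h4
      have h7 : m0 = m' := h6
      exact absurd (h5.symm.trans h7) hmm
  · intro i0 m a ha hm
    have h4 : gad δ m a := hm
    have h6 : lab a = some i0 := ha
    revert h4 h6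
    rcases a with l | ⟨i, l⟩ | ⟨i, j⟩ | ⟨m0, j, v⟩ <;> intro h4 h6
    · exact False.elim h4
    · exact False.elim h4
    · obtain ⟨t, rfl⟩ := h4
      exact ⟨(t, j), rfl, (Option.some_injective _ h6).symm⟩
    · exact absurd h6 (by simp [lab])

end MP3240W
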