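import Pool.Agent.Lib.MP_3240be_co.H43.Defs2

/-!
# MP_3240be_co, board WHV: the row COV
-/

set_option autoImplicit false

namespace MP3240W

open Finset MP3240T

/-- A closed set that avoids `a` and `b` contains a neighbour of `b` if `a` is not a cut vertex. -/
theorem cov_nbr {n : ℕ} {H : SimpleGraph (Fin n)} {a b : Fin n} (hab : b ≠ a) (hst : Stay H a a)
    (K : Finset (Fin n)) (haK : a ∉ K) (hbK : b ∉ K) (hne : K.Nonempty)
    (hcl : ∀ x ∈ K, ∀ y, H.Adj x y → y ∈ K ∨ y = a ∨ y = b) : ∃ x ∈ K, H.Adj b x := by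
  classical
  by_contra hcon
  push Not at hcon
  obtain ⟨x0, hx0⟩ := hne
  have hx0a : x0 ≠ a := fun h => haK (h ▸ hx0)
  have hreach : (H.induce {x | x ≠ a ∧ x ≠ a}).Reachable ⟨x0, hx0a, hx0a⟩ ⟨b, hab, hab⟩ :=
    hst.preconnected _ _
  have key : ∀ u v : {x : Fin n | x ≠ a ∧ x ≠ a},
      (H.induce {x | x ≠ a ∧ x ≠ a}).Walk u v → u.1 ∈ K → v.1 ∈ K := by
    intro u v w
    induction w with
    | nil => exact fun h => h
    | @cons u v w huv _ ih =>
      intro hu
      apply ih
      have hadj : H.Adj u.1 v.1 := huv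
      rcases hcl u.1 hu v.1 hadj with h | h | h
      · exact h
      · exact absurd h v.2.1
      · exfalso
        rw [h] at hadj
        exact hcon u.1 hu hadj.symm
  obtain ⟨w⟩ := hreach
  exact hbK (key _ _ w hx0)

/-- The star data from a small closed set. -/
theorem cov_star {n : ℕ} {H : SimpleGraph (Fin n)} {κ : Fin n → Bool}
    (hprop : ∀ i j, H.Adj i j → κ i ≠ κ j)
    (hAB : (clA κ).card ≤ (univ.filter (fun x => κ x = false)).card) {a b : Fin n}
    (ha : κ a = true) (hb : κ b = false) (K : Finset (Fin n)) (haK : a ∉ K)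
    (hcl : ∀ x ∈ K, ∀ y, H.Adj x y → y ∈ K ∨ y = a ∨ y = b)
    (hx : ∃ x ∈ K, H.Adj b x)
    (hsmall : 2 * (K.filter (fun x => κ x = true)).card + 1 ≤ (clA κ).card) :
    ∃ h, Nonempty (StarD H κ h) := by
  classical
  obtain ⟨α, hαK, hαb⟩ := hx
  have hα : κ α = true := by
    have := hprop b α hαb
    rw [hb] at this
    cases h : κ α
    · exact absurd h.symm this
    · rfl
  have hαKA : α ∈ K.filter (fun x => κ x = true) := mem_filter.2 ⟨hαK, hα⟩
  refine ⟨(clA κ).card - 1, ⟨⟨hprop, by omega, by omega, α, b, hα, hαb.symm,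
    insert a ((K.filter (fun x => κ x = true)).erase α), ?_, ?_, ?_⟩⟩⟩
  · intro β x hβ hαβ hβx hxα
    have hκβ : κ β = false := by
      have := hprop α β hαβ
      rw [hα] at this
      cases h : κ β
      · rfl
      · exact absurd h.symm this
    have hκx : κ x = true := by
      have := hprop β x hβx
      rw [hκβ] at this
      cases h : κ x
      · exact absurd h.symm this
      · rfl
    have hβK : β ∈ K := by
      rcases hcl α hαK β hαβ with h | h | h
      · exact h
      · rw [h, ha] at hκβ; exact absurd hκβ (by decide)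
      · exact absurd h hβ
    rcases hcl β hβK x hβx with h | h | h
    · exact mem_insert_of_mem (mem_erase.2 ⟨hxα, mem_filter.2 ⟨h, hκx⟩⟩)
    · rw [h]; exact mem_insert_self _ _
    · rw [h, hb] at hκx; exact absurd hκx (by decide)
  · intro x hx
    rcases mem_insert.1 hx with h | h
    · rw [h]
      refine ⟨ha, ?_⟩
      intro h2
      rw [← h2] at hαK
      exact haK hαK
    · have h2 := mem_erase.1 h
      exact ⟨(mem_filter.1 h2.2).2, h2.1⟩
  · have h1 := card_insert_le a ((K.filter (fun x => κ x = true)).erase α)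
    rw [card_erase_of_mem hαKA] at h1
    have h2 : 1 ≤ (K.filter (fun x => κ x = true)).card := card_pos.2 ⟨α, hαKA⟩
    omega

theorem cov_proof : CovStatement := by
  classical
  intro n H κ hn hprop hst hAB a b ha hb hns
  have hab : b ≠ a := by
    intro h
    rw [h, ha] at hb
    exact absurd hb (by decide)
  -- a third vertex
  have hthird : ∃ x : Fin n, x ≠ a ∧ x ≠ b := by
    by_contra hcon
    push Not at hcon
    have h1 : (univ : Finset (Fin n)) ⊆ {a, b} := by
      intro x _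
      rw [mem_insert, mem_singleton]
      by_cases h : x = a
      · exact Or.inl h
      · exact Or.inr (hcon x h)
    have h2 := card_le_card h1
    rw [card_univ, Fintype.card_fin] at h2
    have h3 := card_le_two (a := a) (b := b)
    omega
  have hnp : ¬ (H.induce {x | x ≠ a ∧ x ≠ b}).Preconnected := by
    intro h
    obtain ⟨x, hx⟩ := hthird
    haveI : Nonempty {x : Fin n | x ≠ a ∧ x ≠ b} := ⟨⟨x, hx⟩⟩
    exact hns ⟨h⟩
  have hnp2 : ∃ u v : {x : Fin n | x ≠ a ∧ x ≠ b},
      ¬ (H.induce {x | x ≠ a ∧ x ≠ b}).Reachable u v := by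
    by_contra hcon
    push Not at hcon
    exact hnp (fun u v => hcon u v)
  obtain ⟨u, v, huv⟩ := hnp2
  set K : Finset (Fin n) := univ.filter (fun x => ∃ hx : x ≠ a ∧ x ≠ b,
    (H.induce {x | x ≠ a ∧ x ≠ b}).Reachable u ⟨x, hx⟩) with hK
  set K' : Finset (Fin n) := univ.filter (fun x => (x ≠ a ∧ x ≠ b) ∧ x ∉ K) with hK'
  have memK : ∀ x, x ∈ K ↔ ∃ hx : x ≠ a ∧ x ≠ b,
      (H.induce {x | x ≠ a ∧ x ≠ b}).Reachable u ⟨x, hx⟩ := by
    intro x
    rw [hK, mem_filter]
    exact ⟨fun h => h.2, fun h => ⟨mem_univ _, h⟩⟩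
  have memK' : ∀ x, x ∈ K' ↔ (x ≠ a ∧ x ≠ b) ∧ x ∉ K := by
    intro x
    rw [hK', mem_filter]
    exact ⟨fun h => h.2, fun h => ⟨mem_univ _, h⟩⟩
  have step : ∀ x y, x ∈ K → H.Adj x y → y ≠ a → y ≠ b → y ∈ K := by
    intro x y hx hxy hya hyb
    obtain ⟨hx1, hx2⟩ := (memK x).1 hx
    refine (memK y).2 ⟨⟨hya, hyb⟩, hx2.trans ?_⟩
    exact SimpleGraph.Adj.reachable (by exact hxy)
  have hcl : ∀ x ∈ K, ∀ y, H.Adj x y → y ∈ K ∨ y = a ∨ y = b := by
    intro x hx y hxy
    by_cases hya : y = a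
    · exact Or.inr (Or.inl hya)
    · by_cases hyb : y = b
      · exact Or.inr (Or.inr hyb)
      · exact Or.inl (step x y hx hxy hya hyb)
  have hcl' : ∀ x ∈ K', ∀ y, H.Adj x y → y ∈ K' ∨ y = a ∨ y = b := by
    intro x hx y hxy
    by_cases hya : y = a
    · exact Or.inr (Or.inl hya)
    · by_cases hyb : y = b
      · exact Or.inr (Or.inr hyb)
      · refine Or.inl ((memK' y).2 ⟨⟨hya, hyb⟩, fun hyK => ?_⟩)
        have hx' := (memK' x).1 hx
        exact hx'.2 (step y x hyK hxy.symm hx'.1.1 hx'.1.2)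
  have haK : a ∉ K := fun h => ((memK a).1 h).1.1 rfl
  have hbK : b ∉ K := fun h => ((memK b).1 h).1.2 rfl
  have haK' : a ∉ K' := fun h => ((memK' a).1 h).1.1 rfl
  have hbK' : b ∉ K' := fun h => ((memK' b).1 h).1.2 rfl
  have hne : K.Nonempty := ⟨u.1, (memK u.1).2 ⟨u.2, SimpleGraph.Reachable.refl _⟩⟩
  have hne' : K'.Nonempty := by
    refine ⟨v.1, (memK' v.1).2 ⟨v.2, fun h => ?_⟩⟩
    obtain ⟨h1, h2⟩ := (memK v.1).1 h
    exact huv h2
  have hx := cov_nbr hab (hst a) K haK hbK hne hcl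
  have hx' := cov_nbr hab (hst a) K' haK' hbK' hne' hcl'
  -- the cardinalities
  have hdisj : Disjoint (K.filter (fun x => κ x = true)) (K'.filter (fun x => κ x = true)) := by
    rw [disjoint_left]
    intro x h1 h2
    exact ((memK' x).1 (mem_filter.1 h2).1).2 (mem_filter.1 h1).1
  have hsub : K.filter (fun x => κ x = true) ∪ K'.filter (fun x => κ x = true) ⊆
      (clA κ).erase a := by
    intro x hx
    rw [mem_union] at hx
    simp only [mem_filter] at hx
    rcases hx with h | h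
    · refine mem_erase.2 ⟨fun h2 => haK (h2 ▸ h.1), mem_filter.2 ⟨mem_univ _, h.2⟩⟩
    · refine mem_erase.2 ⟨fun h2 => haK' (h2 ▸ h.1), mem_filter.2 ⟨mem_univ _, h.2⟩⟩
  have hcard := card_le_card hsub
  have haA : a ∈ clA κ := by simp [clA, ha]
  rw [card_union_of_disjoint hdisj, card_erase_of_mem haA] at hcard
  have hpos : 1 ≤ (clA κ).card := card_pos.2 ⟨a, haA⟩
  by_cases hle : (K.filter (fun x => κ x = true)).card ≤ (K'.filter (fun x => κ x = true)).card
  · exact cov_star hprop hAB ha hb K haK hcl hx (by omega)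
  · exact cov_star hprop hAB ha hb K' haK' hcl' hx' (by omega)

end MP3240W
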