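import Pool.Agent.Lib.MP_3240be_co.H43.Defs

/-!
# MP_3240be_co, board WHW, row HYP (helper32)

A sparse hypergraph on which bounded damage at every vertex leaves a hyperedge that is
monochromatic for a given labelling.
-/

set_option autoImplicit false

namespace MP3240W

open Finset
open Pool.Agent.Lib.MP_3240be_co.H36.Chrom (Sparse good)

/-- A digraph of out-degree at most `B` is `(2 B + 1)`-colourable. -/
theorem hyp_col {I : Type} [DecidableEq I] (B : ℕ) (out : I → Finset I)
    (hout : ∀ i, (out i).card ≤ B) (N : ℕ) : ∀ S : Finset I, S.card = N →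
    ∃ col : I → Fin (2 * B + 1), ∀ i ∈ S, ∀ j ∈ S, j ∈ out i → i ≠ j → col i ≠ col j := by
  induction N with
  | zero =>
    intro S hS
    refine ⟨fun _ => 0, fun i hi => ?_⟩
    rw [Finset.card_eq_zero.1 hS] at hi
    exact absurd hi (Finset.notMem_empty _)
  | succ N ih =>
    intro S hS
    -- a vertex of small in-degree
    obtain ⟨v, hv, hvB⟩ : ∃ v ∈ S, (S.filter (fun i => v ∈ out i)).card ≤ B := by
      by_contra hcon
      push Not at hcon
      have h1 : ∑ i ∈ S, (S.filter (fun j => j ∈ out i)).card =
          ∑ j ∈ S, (S.filter (fun i => j ∈ out i)).card :=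
        Finset.sum_card_bipartiteAbove_eq_sum_card_bipartiteBelow (fun i j => j ∈ out i)
      have h2 : ∑ i ∈ S, (S.filter (fun j => j ∈ out i)).card ≤ ∑ _i ∈ S, B := by
        apply Finset.sum_le_sum
        intro i _
        refine le_trans (Finset.card_le_card ?_) (hout i)
        intro j hj
        exact (Finset.mem_filter.1 hj).2
      have h3 : ∑ _j ∈ S, (B + 1) ≤ ∑ j ∈ S, (S.filter (fun i => j ∈ out i)).card :=
        Finset.sum_le_sum (fun j hj => hcon j hj)
      simp only [Finset.sum_const, smul_eq_mul, hS] at h2 h3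
      rw [h1] at h2
      have h4 := le_trans h3 h2
      rw [Nat.mul_le_mul_left_iff (by omega)] at h4
      omega
    obtain ⟨col, hcol⟩ := ih (S.erase v) (by rw [Finset.card_erase_of_mem hv, hS]; rfl)
    -- the colours of the neighbours of `v`
    let Nb : Finset I := out v ∪ S.filter (fun i => v ∈ out i)
    have hNb : (Nb.image col).card ≤ 2 * B := by
      refine le_trans Finset.card_image_le (le_trans (Finset.card_union_le _ _) ?_)
      have := hout v
      omega
    obtain ⟨a, ha⟩ : ∃ a : Fin (2 * B + 1), a ∉ Nb.image col := by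
      by_contra hcon
      push Not at hcon
      have h5 : (Finset.univ : Finset (Fin (2 * B + 1))).card ≤ (Nb.image col).card :=
        Finset.card_le_card (fun x _ => hcon x)
      rw [Finset.card_univ, Fintype.card_fin] at h5
      omega
    refine ⟨Function.update col v a, ?_⟩
    intro i hi j hj hij hne
    by_cases hiv : i = v
    · subst hiv
      rw [Function.update_self, Function.update_of_ne hne.symm]
      intro h
      exact ha (Finset.mem_image.2 ⟨j, Finset.mem_union_left _ hij, h.symm⟩)
    · by_cases hjv : j = v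
      · subst hjv
        rw [Function.update_self, Function.update_of_ne hiv]
        intro h
        exact ha (Finset.mem_image.2
          ⟨i, Finset.mem_union_right _ (Finset.mem_filter.2 ⟨hi, hij⟩), h⟩)
      · rw [Function.update_of_ne hiv, Function.update_of_ne hjv]
        exact hcol i (Finset.mem_erase.2 ⟨hiv, hi⟩) j (Finset.mem_erase.2 ⟨hjv, hj⟩) hij hne

/-- Row HYP. -/
theorem hyp_proof : HypStatement := by
  intro g B T K _ _ _ t0 t1 h01
  classical
  obtain ⟨V, M, hV, hM, δ, hδ, hc, hsp⟩ := good g T (K × Fin (2 * B + 1))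
  refine ⟨V, M, hV, hM, δ, hδ, fun S h2 hg => hsp S h2 (by omega), ?_⟩
  intro lab bad hbad
  have := Fintype.ofFinite V
  -- another vertex of the hyperedge
  let oth : V → M → V := fun i m => if δ m t0 = i then δ m t1 else δ m t0
  have hoth : ∀ i m, oth i m ≠ i := by
    intro i m
    by_cases h : δ m t0 = i
    · simp only [oth, if_pos h]
      intro h'
      exact h01 (hδ m (h.trans h'.symm))
    · simp only [oth, if_neg h]
      exact h
  let out : V → Finset V := fun i => (bad i).image (oth i)
  obtain ⟨col, hcol⟩ := hyp_col B out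
    (fun i => le_trans Finset.card_image_le (hbad i)) _ (Finset.univ : Finset V) rfl
  obtain ⟨m, hm⟩ := hc (fun i => (lab i, col i))
  refine ⟨m, fun t t' => congrArg Prod.fst (hm t t'), fun t hbt => ?_⟩
  have h1 : oth (δ m t) m ∈ out (δ m t) := Finset.mem_image.2 ⟨m, hbt, rfl⟩
  have h2 := hcol (δ m t) (Finset.mem_univ _) (oth (δ m t) m) (Finset.mem_univ _) h1
    (hoth _ _).symm
  apply h2
  by_cases h : δ m t0 = δ m t
  · simp only [oth, if_pos h]
    exact congrArg Prod.snd (hm t t1)
  · simp only [oth, if_neg h]
    exact congrArg Prod.snd (hm t t0)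

end MP3240W
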