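import Pool.Agent.Lib.MP_3240be_co.H43.Defs2
import Pool.Agent.Lib.MP_3240be_co.H30.Cpt

/-!
# MP_3240be_co, board WHV, row MNV: Theorem W'
-/

set_option autoImplicit false

namespace MP3240W

open Finset MP3240T

theorem mnv_proof (hA : ArvStatement) (hN : NfvStatement) (hH : HypStatement) :
    MnvStatement := by
  classical
  intro n n' h H H' κ D hconn h2 hconn' hemb hnemb
  have hy := D.adj
  have hn2 : 2 ≤ n := by
    have h1 := D.α.isLt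
    have h2 := D.β₁.isLt
    have h3 : D.α.val ≠ D.β₁.val := fun e => hy.ne (Fin.ext e)
    omega
  have hpos : 0 < (nb H D.α).card := card_pos.2 ⟨D.β₁, by simp [nb, hy]⟩
  have hN0 : 0 < 2 * (nb H D.α).card - 1 := by omega
  have hg0 : 0 < n * 2 ^ (2 * h) + 1 := by omega
  obtain ⟨I, M, hI, hM, δ, hδ, hsp, hbad⟩ := hH (n * n) ((n * 2 ^ (2 * h) + 1) * n)
    (Slot n (2 * (nb H D.α).card - 1) × Fin (n * 2 ^ (2 * h) + 1))
    (Fin (n * 2 ^ (2 * h) + 1) → Finset (Fin h ⊕ Fin h))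
    ((D.α, D.α, ⟨0, hN0⟩, D.α), ⟨0, hg0⟩) ((D.β₁, D.α, ⟨0, hN0⟩, D.α), ⟨0, hg0⟩)
    (fun e => hy.ne (congrArg (fun t : Slot n (2 * (nb H D.α).card - 1) ×
      Fin (n * 2 ^ (2 * h) + 1) => t.1.1) e))
  exact cpt_proof _ (FV (h := h) H D.α D.β₁ δ) n n' H H'
    (hA n h _ _ H D.α D.β₁ I M δ κ D hy (by omega) (Nat.lt_succ_self _) hδ hsp hbad)
    (hN n n' h _ _ H H' D.α D.β₁ I M δ κ D hn2 hy h2 hconn hδ hsp hconn' hemb hnemb)

end MP3240W
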