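import Pool.Agent.Lib.MP_3240be_co.H43.Defs

/-!
# MP_3240be_co, board WHW, row OVL
-/

set_option autoImplicit false

namespace MP3240W

open Finset MP3240T

namespace OVL

theorem exists_inj_into {α β : Type} [DecidableEq α] (s : Finset α) (t : Finset β)
    (h : s.card ≤ t.card) (b : β) :
    ∃ f : α → β, Set.InjOn f (s : Set α) ∧ ∀ x ∈ s, f x ∈ t := by
  have hle : Fintype.card {x // x ∈ s} ≤ Fintype.card {x // x ∈ t} := by simpa using h
  obtain ⟨e⟩ := Function.Embedding.nonempty_of_card_le hle
  refine ⟨fun x => if h : x ∈ s then (e ⟨x, h⟩ : β) else b, ?_, ?_⟩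
  · intro x hx y hy hxy
    have hx' : x ∈ s := hx
    have hy' : y ∈ s := hy
    simp only [dif_pos hx', dif_pos hy'] at hxy
    exact congrArg Subtype.val (e.injective (Subtype.ext hxy))
  · intro x hx
    simp only [dif_pos hx]
    exact (e ⟨x, hx⟩).2

theorem many_pick {V : Type} {G : SimpleGraph V} {n : ℕ} {R : Finset V}
    (h : Many G n R) (S : Finset V) (hS : S.card < n) :
    ∃ z, z ∉ S ∧ ∀ y ∈ R, G.Adj y z := by
  obtain ⟨Z, hZ, hZ'⟩ := h
  obtain ⟨z, hz, hzS⟩ := Finset.exists_mem_notMem_of_card_lt_card (lt_of_lt_of_le hS hZ)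
  exact ⟨z, hzS, hZ' z hz⟩

end OVL

open OVL in
theorem ovl_proof (hX : ExnStatement) : OvlStatement := by
  classical
  intro n h k H κ D V _ G hno
  have hout : ∀ i, i ∉ clA κ → ∀ j, j ∉ clA κ → ¬ H.Adj i j := by
    intro i hi j hj hij
    simp only [clA, mem_filter, mem_univ, true_and, Bool.not_eq_true] at hi hj
    exact D.prop i j hij (hi.trans hj.symm)
  have hin : ∀ i ∈ clA κ, ∀ j ∈ clA κ, ¬ H.Adj i j := by
    intro i hi j hj hij
    simp only [clA, mem_filter, mem_univ, true_and] at hi hj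
    exact D.prop i j hij (hi.trans hj.symm)
  refine ⟨?_, ?_⟩
  · intro R hR hM
    obtain ⟨v0, hv0⟩ : R.Nonempty := by
      rw [← Finset.card_pos]
      omega
    obtain ⟨φ, hφ1, hφ2⟩ := exists_inj_into (clA κ) R (by rw [D.cardA, hR]) v0
    refine hno (hX V G n H (clA κ) φ hφ1 (fun i hi j hj hij => absurd hij (hin i hi j hj))
      hout ?_)
    intro u _ S hS
    obtain ⟨z, hz1, hz2⟩ := many_pick hM S hS
    exact ⟨z, hz1, fun i hi _ => hz2 _ (hφ2 i hi)⟩
  · intro R R' hR hR' hM hM' hk
    by_contra hne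
    -- an element of `R` outside `R'`
    obtain ⟨y, hy, hy'⟩ : ∃ y ∈ R, y ∉ R' := by
      by_contra hcon
      push Not at hcon
      exact hne (Finset.eq_of_subset_of_card_le (fun y hy => hcon y hy) (by omega))
    -- the separator
    obtain ⟨SX, hSX, hSXc⟩ := Finset.exists_subset_card_eq hk
    let AX := univ.filter (fun x => κ x = true ∧ D.σ x = none)
    let A1 := univ.filter (fun x => κ x = true ∧ D.σ x = some true)
    let A2 := univ.filter (fun x => κ x = true ∧ D.σ x = some false)
    have hAX : AX.card = k := D.cardX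
    have hA1 : 0 < A1.card := by
      obtain ⟨x, hx1, hx2⟩ := D.side true
      exact Finset.card_pos.2 ⟨x, mem_filter.2 ⟨mem_univ _, hx1, hx2⟩⟩
    have hA2 : 0 < A2.card := by
      obtain ⟨x, hx1, hx2⟩ := D.side false
      exact Finset.card_pos.2 ⟨x, mem_filter.2 ⟨mem_univ _, hx1, hx2⟩⟩
    have hsum : AX.card + A1.card + A2.card = h + 1 := by
      rw [← D.cardA]
      have h1 : clA κ = (AX ∪ A1) ∪ A2 := by
        ext x
        simp only [clA, AX, A1, A2, mem_filter, mem_univ, true_and, mem_union]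
        constructor
        · intro hx
          rcases hs : D.σ x with _ | b
          · exact Or.inl (Or.inl ⟨hx, rfl⟩)
          · cases b
            · exact Or.inr ⟨hx, rfl⟩
            · exact Or.inl (Or.inr ⟨hx, rfl⟩)
        · rintro ((hx | hx) | hx)
          · exact hx.1
          · exact hx.1
          · exact hx.1
      rw [h1, card_union_of_disjoint, card_union_of_disjoint]
      · rw [Finset.disjoint_left]
        intro x hx hx'
        have e1 := (mem_filter.1 hx).2.2
        have e2 := (mem_filter.1 hx').2.2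
        rw [e1] at e2
        exact absurd e2 (by simp)
      · rw [Finset.disjoint_left]
        intro x hx hx'
        have e2 := (mem_filter.1 hx').2.2
        rcases mem_union.1 hx with hx | hx
        · have e1 := (mem_filter.1 hx).2.2
          rw [e1] at e2
          exact absurd e2 (by simp)
        · have e1 := (mem_filter.1 hx).2.2
          rw [e1] at e2
          exact absurd e2 (by simp)
    have hSXR : SX ⊆ R := fun x hx => (mem_inter.1 (hSX hx)).1
    have hSXR' : SX ⊆ R' := fun x hx => (mem_inter.1 (hSX hx)).2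
    have hyX : y ∉ SX := fun hc => hy' (hSXR' hc)
    obtain ⟨S1, hS1, hS1', hS1c⟩ := Finset.exists_subsuperset_card_eq
      (s := {y}) (t := R \ SX) (n := A1.card)
      (by
        rw [Finset.singleton_subset_iff]
        exact mem_sdiff.2 ⟨hy, hyX⟩)
      (by
        rw [card_singleton]
        omega)
      (by
        rw [card_sdiff_of_subset hSXR]
        omega)
    have hyS1 : y ∈ S1 := hS1 (mem_singleton_self y)
    have hS2 : A2.card ≤ ((R' \ SX) \ S1).card := by
      have h1 : (R' \ SX).card = h - k := by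
        rw [card_sdiff_of_subset hSXR', hR', hSXc]
      have h2 : (R' \ SX) \ S1 = (R' \ SX) \ (S1.erase y) := by
        ext x
        simp only [mem_sdiff, mem_erase]
        constructor
        · rintro ⟨hx, hx'⟩
          exact ⟨hx, fun hc => hx' hc.2⟩
        · rintro ⟨hx, hx'⟩
          refine ⟨hx, fun hc => hx' ⟨?_, hc⟩⟩
          rintro rfl
          exact hy' hx.1
      have h3 := Finset.le_card_sdiff (S1.erase y) (R' \ SX)
      rw [← h2, card_erase_of_mem hyS1, hS1c] at h3
      omega
    obtain ⟨f0, hf0, hf0'⟩ := exists_inj_into AX SX (by omega) y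
    obtain ⟨f1, hf1, hf1'⟩ := exists_inj_into A1 S1 (by omega) y
    obtain ⟨f2, hf2, hf2'⟩ := exists_inj_into A2 ((R' \ SX) \ S1) hS2 y
    let φ : Fin n → V := fun x => match D.σ x with
      | none => f0 x
      | some true => f1 x
      | some false => f2 x
    have e0 : ∀ x, D.σ x = none → φ x = f0 x := fun x hx => by simp only [φ, hx]
    have e1 : ∀ x, D.σ x = some true → φ x = f1 x := fun x hx => by simp only [φ, hx]
    have e2 : ∀ x, D.σ x = some false → φ x = f2 x := fun x hx => by simp only [φ, hx]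
    have m0 : ∀ x, κ x = true → D.σ x = none → φ x ∈ SX := fun x hx hx' => by
      rw [e0 x hx']
      exact hf0' x (mem_filter.2 ⟨mem_univ _, hx, hx'⟩)
    have m1 : ∀ x, κ x = true → D.σ x = some true → φ x ∈ S1 := fun x hx hx' => by
      rw [e1 x hx']
      exact hf1' x (mem_filter.2 ⟨mem_univ _, hx, hx'⟩)
    have m2 : ∀ x, κ x = true → D.σ x = some false → φ x ∈ (R' \ SX) \ S1 := fun x hx hx' => by
      rw [e2 x hx']
      exact hf2' x (mem_filter.2 ⟨mem_univ _, hx, hx'⟩)
    have d01 : ∀ v, v ∈ SX → v ∉ S1 := fun v hv hc => (mem_sdiff.1 (hS1' hc)).2 hv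
    have d02 : ∀ v, v ∈ SX → v ∉ (R' \ SX) \ S1 := fun v hv hc =>
      (mem_sdiff.1 (mem_sdiff.1 hc).1).2 hv
    have d12 : ∀ v, v ∈ S1 → v ∉ (R' \ SX) \ S1 := fun v hv hc => (mem_sdiff.1 hc).2 hv
    have hinj : Set.InjOn φ (clA κ : Set (Fin n)) := by
      intro x hx x' hx' hxx
      have kx : κ x = true := (mem_filter.1 (Finset.mem_coe.1 hx)).2
      have kx' : κ x' = true := (mem_filter.1 (Finset.mem_coe.1 hx')).2
      rcases hs : D.σ x with _ | b <;> rcases hs' : D.σ x' with _ | b'
      · rw [e0 x hs, e0 x' hs'] at hxx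
        exact hf0 (Finset.mem_coe.2 (mem_filter.2 ⟨mem_univ _, kx, hs⟩))
          (Finset.mem_coe.2 (mem_filter.2 ⟨mem_univ _, kx', hs'⟩)) hxx
      · cases b'
        · exact absurd (hxx ▸ m2 x' kx' hs') (d02 _ (m0 x kx hs))
        · exact absurd (hxx ▸ m1 x' kx' hs') (d01 _ (m0 x kx hs))
      · cases b
        · exact absurd (hxx.symm ▸ m2 x kx hs) (d02 _ (m0 x' kx' hs'))
        · exact absurd (hxx.symm ▸ m1 x kx hs) (d01 _ (m0 x' kx' hs'))
      · cases b <;> cases b'
        · rw [e2 x hs, e2 x' hs'] at hxx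
          exact hf2 (Finset.mem_coe.2 (mem_filter.2 ⟨mem_univ _, kx, hs⟩))
            (Finset.mem_coe.2 (mem_filter.2 ⟨mem_univ _, kx', hs'⟩)) hxx
        · exact absurd (hxx.symm ▸ m2 x kx hs) (d12 _ (m1 x' kx' hs'))
        · exact absurd (hxx ▸ m2 x' kx' hs') (d12 _ (m1 x kx hs))
        · rw [e1 x hs, e1 x' hs'] at hxx
          exact hf1 (Finset.mem_coe.2 (mem_filter.2 ⟨mem_univ _, kx, hs⟩))
            (Finset.mem_coe.2 (mem_filter.2 ⟨mem_univ _, kx', hs'⟩)) hxx
    refine hno (hX V G n H (clA κ) φ hinj (fun i hi j hj hij => absurd hij (hin i hi j hj))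
      hout ?_)
    intro u hu S hS
    have ku : κ u = false := by
      simpa [clA] using hu
    by_cases hc : ∃ w, H.Adj u w ∧ D.σ w = some false
    · obtain ⟨w, hw, hw'⟩ := hc
      obtain ⟨z, hz1, hz2⟩ := many_pick hM' S hS
      refine ⟨z, hz1, fun i hi hui => hz2 _ ?_⟩
      have ki : κ i = true := (mem_filter.1 hi).2
      rcases hs : D.σ i with _ | b
      · exact hSXR' (m0 i ki hs)
      · cases b
        · exact (mem_sdiff.1 (mem_sdiff.1 (m2 i ki hs)).1).1
        · exact absurd (D.sep u i w ku hui hw hs hw') id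
    · obtain ⟨z, hz1, hz2⟩ := many_pick hM S hS
      refine ⟨z, hz1, fun i hi hui => hz2 _ ?_⟩
      have ki : κ i = true := (mem_filter.1 hi).2
      rcases hs : D.σ i with _ | b
      · exact hSXR (m0 i ki hs)
      · cases b
        · exact absurd ⟨i, hui, hs⟩ hc
        · exact (mem_sdiff.1 (hS1' (m1 i ki hs))).1

end MP3240W
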