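import Pool.Agent.Lib.MP_3240be_co.H43.Defs2
import Pool.Agent.Lib.MP_3240be_co.H43.Ovl

/-!
# MP_3240be_co, board WHV, row NOA
-/

set_option autoImplicit false

namespace MP3240W

open Finset MP3240T

open OVL in
theorem noa_proof (hX : ExnStatement) : NoaStatement := by
  classical
  intro n h H κ D V G R hR hM
  have hout : ∀ i, i ∉ clA κ → ∀ j, j ∉ clA κ → ¬ H.Adj i j := by
    intro i hi j hj hij
    simp only [clA, mem_filter, mem_univ, true_and, Bool.not_eq_true] at hi hj
    exact D.prop i j hij (hi.trans hj.symm)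
  have hin : ∀ i ∈ clA κ, ∀ j ∈ clA κ, ¬ H.Adj i j := by
    intro i hi j hj hij
    simp only [clA, mem_filter, mem_univ, true_and] at hi hj
    exact D.prop i j hij (hi.trans hj.symm)
  obtain ⟨v0, hv0⟩ : R.Nonempty := by
    rw [← Finset.card_pos]
    omega
  obtain ⟨φ, hφ1, hφ2⟩ := exists_inj_into (clA κ) R (by rw [D.cardA]; exact hR) v0
  refine hX V G n H (clA κ) φ hφ1 (fun i hi j hj hij => absurd hij (hin i hi j hj)) hout ?_
  intro u _ S hS
  obtain ⟨z, hz1, hz2⟩ := many_pick hM S hS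
  exact ⟨z, hz1, fun i hi _ => hz2 _ (hφ2 i hi)⟩

end MP3240W
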