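import Pool.Agent.Lib.MP_3240be_co.H43.Defs2

/-!
# MP_3240be_co, board WHV, row PC2 (pieces)

A copy of a 2-connected graph in a union of worlds and gadgets that are glued along the points
`μ m t` of a sparse hypergraph lies in one world or in one gadget.
-/

set_option autoImplicit false

namespace MP3240W

open Finset MP3240T
open Pool.Agent.Lib.MP_3240be_co.H36.Chrom (Sparse Leaf)

/-- The number of edges of a graph on `Fin n`. -/
theorem ed_card_le {n : ℕ} (H : SimpleGraph (Fin n)) : (ed H).card ≤ n * n := by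
  classical
  have h1 : ed H ⊆ (Finset.univ : Finset (Fin n × Fin n)).image (fun p => s(p.1, p.2)) := by
    intro e he
    induction e using Sym2.ind with
    | _ x y => exact Finset.mem_image.2 ⟨(x, y), Finset.mem_univ _, rfl⟩
  calc (ed H).card ≤ _ := Finset.card_le_card h1
    _ ≤ (Finset.univ : Finset (Fin n × Fin n)).card := Finset.card_image_le
    _ = n * n := by simp

/-- Row PC2, for `0 < n`. -/
theorem pc2_aux (n : ℕ) (H : SimpleGraph (Fin n)) (X I J M T : Type) (δ : M → T → I) (w : I → J)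
    (f : Fin n → X) (wld : J → Set X) (gdg : M → Set X) (μ : M → T → X) (hn : 0 < n)
    (htc : TwoC (ed H)) (hnb : ∀ u, ∃ v, H.Adj u v) (hf : Function.Injective f)
    (hw : Function.Injective w) (hδ : ∀ m, Function.Injective (δ m)) (hsp : Sparse (n * n) δ)
    (hcov : ∀ u v, H.Adj u v →
      (∃ j, f u ∈ wld j ∧ f v ∈ wld j) ∨ ∃ m, f u ∈ gdg m ∧ f v ∈ gdg m)
    (hww : ∀ j j' x, x ∈ wld j → x ∈ wld j' → j = j')
    (hgg : ∀ m m' x, m ≠ m' → x ∈ gdg m → x ∈ gdg m' → ∃ t t', x = μ m t ∧ δ m t = δ m' t')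
    (hwg : ∀ j m x, x ∈ wld j → x ∈ gdg m → ∃ t, x = μ m t ∧ j = w (δ m t)) :
    (∃ j, ∀ v, f v ∈ wld j) ∨ ∃ m, ∀ v, f v ∈ gdg m := by
  classical
  -- the part of an edge
  have hpart : ∀ e : Sym2 (Fin n), e ∈ ed H → ∃ p : J ⊕ M, ∀ v ∈ e,
      f v ∈ (Sum.elim wld gdg p : Set X) := by
    intro e he
    induction e using Sym2.ind with
    | _ x y =>
      rw [mem_ed] at he
      rcases hcov x y he with ⟨j, h1, h2⟩ | ⟨m, h1, h2⟩
      · refine ⟨Sum.inl j, fun v hv => ?_⟩
        rcases Sym2.mem_iff.1 hv with rfl | rfl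
        · exact h1
        · exact h2
      · refine ⟨Sum.inr m, fun v hv => ?_⟩
        rcases Sym2.mem_iff.1 hv with rfl | rfl
        · exact h1
        · exact h2
  have hJM : Nonempty (J ⊕ M) := by
    obtain ⟨v, hv⟩ := hnb ⟨0, hn⟩
    obtain ⟨p, -⟩ := hpart s(⟨0, hn⟩, v) (mem_ed.2 hv)
    exact ⟨p⟩
  choose! part hpt using hpart
  -- the gadgets that are used
  set S : Finset M := ((ed H).image part).preimage Sum.inr (Sum.inr_injective.injOn) with hS
  have hmemS : ∀ m, m ∈ S ↔ ∃ e ∈ ed H, part e = Sum.inr m := by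
    intro m
    rw [hS, Finset.mem_preimage, Finset.mem_image]
  -- the splitting argument
  have split : ∀ (A : J ⊕ M → Prop), (∃ e ∈ ed H, A (part e)) → (∃ e ∈ ed H, ¬ A (part e)) →
      ∃ u v, u ≠ v ∧ (∃ e ∈ ed H, ∃ e' ∈ ed H, A (part e) ∧ ¬ A (part e') ∧ u ∈ e ∧ u ∈ e') ∧
        ∃ e ∈ ed H, ∃ e' ∈ ed H, A (part e) ∧ ¬ A (part e') ∧ v ∈ e ∧ v ∈ e' := by
    intro A h1 h2
    obtain ⟨u, v, huv, hu, hv⟩ := htc ((ed H).filter (fun e => A (part e)))
      ((ed H).filter (fun e => ¬ A (part e)))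
      (by
        obtain ⟨e, he, ha⟩ := h1
        exact ⟨e, Finset.mem_filter.2 ⟨he, ha⟩⟩)
      (by
        obtain ⟨e, he, ha⟩ := h2
        exact ⟨e, Finset.mem_filter.2 ⟨he, ha⟩⟩)
      (Finset.disjoint_filter_filter_not _ _ _)
      (by
        intro e
        simp only [Finset.mem_filter]
        by_cases ha : A (part e)
        · simp [ha]
        · simp [ha])
    refine ⟨u, v, huv, ?_, ?_⟩
    · obtain ⟨⟨e, he, hue⟩, e', he', hue'⟩ := hu
      rw [Finset.mem_filter] at he he'
      exact ⟨e, he.1, e', he'.1, he.2, he'.2, hue, hue'⟩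
    · obtain ⟨⟨e, he, hue⟩, e', he', hue'⟩ := hv
      rw [Finset.mem_filter] at he he'
      exact ⟨e, he.1, e', he'.1, he.2, he'.2, hue, hue'⟩
  have hedge : ∀ u : Fin n, ∃ e ∈ ed H, u ∈ e := by
    intro u
    obtain ⟨v, hv⟩ := hnb u
    exact ⟨s(u, v), mem_ed.2 hv, Sym2.mem_mk_left u v⟩
  by_cases hS2 : 2 ≤ S.card
  · -- at least two gadgets
    exfalso
    have hSc : S.card ≤ n * n := by
      have h1 : S.card ≤ ((ed H).image part).card := by
        have h2 : (S.image (Sum.inr : M → J ⊕ M)) ⊆ (ed H).image part := by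
          intro p hp
          obtain ⟨m, hm, rfl⟩ := Finset.mem_image.1 hp
          exact Finset.mem_preimage.1 hm
        calc S.card = (S.image (Sum.inr : M → J ⊕ M)).card :=
              (Finset.card_image_of_injective _ Sum.inr_injective).symm
          _ ≤ _ := Finset.card_le_card h2
      exact h1.trans (Finset.card_image_le.trans (ed_card_le H))
    obtain ⟨m, hm, m1, hm1, hne, hleaf, _⟩ := hsp S hS2 hSc
    -- met by the other members of `S`
    let Met : I → Prop := fun i => ∃ m' ∈ S, m' ≠ m ∧ ∃ t', i = δ m' t'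
    let A : J ⊕ M → Prop := fun p =>
      p = Sum.inr m ∨ ∃ t, p = Sum.inl (w (δ m t)) ∧ ¬ Met (δ m t)
    obtain ⟨e0, he0, hp0⟩ := (hmemS m).1 hm
    obtain ⟨e1, he1, hp1⟩ := (hmemS m1).1 hm1
    obtain ⟨u, v, huv, hu, hv⟩ := split A ⟨e0, he0, Or.inl hp0⟩ ⟨e1, he1, by
      rintro (h | ⟨t, h, _⟩)
      · rw [hp1] at h
        exact hne (Sum.inr_injective h).symm
      · rw [hp1] at h
        exact absurd h (by simp)⟩
    have key : ∀ v : Fin n,
        (∃ e ∈ ed H, ∃ e' ∈ ed H, A (part e) ∧ ¬ A (part e') ∧ v ∈ e ∧ v ∈ e') →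
        ∃ t, f v = μ m t ∧ Met (δ m t) := by
      rintro v ⟨e, he, e', he', hA, hA', hve, hve'⟩
      have h1 := hpt e he v hve
      have h2 := hpt e' he' v hve'
      rcases hA with hA | ⟨t, hA, hun⟩
      · rw [hA] at h1
        rcases hp : part e' with j' | m'
        · rw [hp] at h2
          obtain ⟨t, ht1, ht2⟩ := hwg j' m (f v) h2 h1
          refine ⟨t, ht1, ?_⟩
          by_contra hno
          exact hA' (Or.inr ⟨t, by rw [hp, ht2], hno⟩)
        · rw [hp] at h2
          have hmm : m ≠ m' := by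
            rintro rfl
            exact hA' (Or.inl hp)
          obtain ⟨t, t', ht1, ht2⟩ := hgg m m' (f v) hmm h1 h2
          exact ⟨t, ht1, m', (hmemS m').2 ⟨e', he', hp⟩, hmm.symm, t', ht2⟩
      · exfalso
        rw [hA] at h1
        rcases hp : part e' with j' | m'
        · rw [hp] at h2
          have := hww _ _ (f v) h2 h1
          exact hA' (Or.inr ⟨t, by rw [hp, this], hun⟩)
        · rw [hp] at h2
          have hmm : m' ≠ m := by
            rintro rfl
            exact hA' (Or.inl hp)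
          obtain ⟨t', ht1, ht2⟩ := hwg _ m' (f v) h1 h2
          exact hun ⟨m', (hmemS m').2 ⟨e', he', hp⟩, hmm, t', hw ht2⟩
    obtain ⟨t1, ht1, m2, hm2, hne2, t2, hd2⟩ := key u hu
    obtain ⟨t3, ht3, m4, hm4, hne4, t4, hd4⟩ := key v hv
    have h5 := hleaf m2 hm2 m4 hm4 hne2 hne4 t1 t2 t3 t4 hd2 hd4
    have h6 := hδ m h5
    exact huv (hf (by rw [ht1, ht3, h6]))
  · rcases Nat.lt_or_ge S.card 1 with h0 | h1
    · -- no gadget
      have hS0 : S = ∅ := Finset.card_eq_zero.1 (by omega)
      obtain ⟨e0, he0, -⟩ := hedge ⟨0, hn⟩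
      have hall : ∀ e ∈ ed H, ∃ j, part e = Sum.inl j := by
        intro e he
        rcases hp : part e with j | m
        · exact ⟨j, rfl⟩
        · have : m ∈ S := (hmemS m).2 ⟨e, he, hp⟩
          rw [hS0] at this
          exact absurd this (Finset.notMem_empty m)
      obtain ⟨j0, hj0⟩ := hall e0 he0
      by_cases hex : ∃ e ∈ ed H, ¬ part e = Sum.inl j0
      · exfalso
        obtain ⟨u, v, huv, hu, _⟩ := split (fun p => p = Sum.inl j0) ⟨e0, he0, hj0⟩ hex
        obtain ⟨e, he, e', he', hA, hA', hve, hve'⟩ := hu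
        have h1 := hpt e he u hve
        have h2 := hpt e' he' u hve'
        obtain ⟨j', hj'⟩ := hall e' he'
        rw [hA] at h1
        rw [hj'] at h2
        exact hA' (by rw [hj', hww j' j0 (f u) h2 h1])
      · push Not at hex
        refine Or.inl ⟨j0, fun v => ?_⟩
        obtain ⟨e, he, hve⟩ := hedge v
        have h1 := hpt e he v hve
        rw [hex e he] at h1
        exact h1
    · -- one gadget
      obtain ⟨m0, hm0⟩ := Finset.card_eq_one.1 (show S.card = 1 by omega)
      have hmS : ∀ m, (∃ e ∈ ed H, part e = Sum.inr m) → m = m0 := by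
        intro m hm
        have := (hmemS m).2 hm
        rw [hm0] at this
        exact Finset.mem_singleton.1 this
      obtain ⟨e0, he0, hp0⟩ := (hmemS m0).1 (by rw [hm0]; exact Finset.mem_singleton_self m0)
      by_cases hex : ∃ e ∈ ed H, ∃ j, part e = Sum.inl j
      · exfalso
        obtain ⟨e1, he1, j0, hj0⟩ := hex
        obtain ⟨u, v, huv, hu, hv⟩ := split (fun p => p = Sum.inl j0) ⟨e1, he1, hj0⟩
          ⟨e0, he0, by rw [hp0]; simp⟩
        have key : ∀ v : Fin n, (∃ e ∈ ed H, ∃ e' ∈ ed H, part e = Sum.inl j0 ∧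
            ¬ part e' = Sum.inl j0 ∧ v ∈ e ∧ v ∈ e') → ∃ t, f v = μ m0 t ∧ j0 = w (δ m0 t) := by
          rintro v ⟨e, he, e', he', hA, hA', hve, hve'⟩
          have h1 := hpt e he v hve
          have h2 := hpt e' he' v hve'
          rw [hA] at h1
          rcases hp : part e' with j' | m'
          · exfalso
            rw [hp] at h2
            exact hA' (by rw [hp, hww j' j0 (f v) h2 h1])
          · rw [hp] at h2
            have hmm := hmS m' ⟨e', he', hp⟩
            subst hmm
            exact hwg j0 m' (f v) h1 h2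
        obtain ⟨t1, ht1, hj1⟩ := key u hu
        obtain ⟨t2, ht2, hj2⟩ := key v hv
        have h5 : t1 = t2 := hδ m0 (hw (hj1.symm.trans hj2))
        exact huv (hf (by rw [ht1, ht2, h5]))
      · push Not at hex
        refine Or.inr ⟨m0, fun v => ?_⟩
        obtain ⟨e, he, hve⟩ := hedge v
        have h1 := hpt e he v hve
        rcases hp : part e with j | m
        · exact absurd hp (hex e he j)
        · rw [hp] at h1
          have hmm := hmS m ⟨e, he, hp⟩
          subst hmm
          exact h1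

/-- Row PC2. -/
theorem pc2_proof : Pc2Statement :=
  fun n H X I J M _ δ w f wld gdg μ hn htc hnb hf hw hδ hsp hcov hww hgg hwg =>
    pc2_aux n H X I J M _ δ w f wld gdg μ hn htc hnb hf hw hδ hsp hcov hww hgg hwg

end MP3240W
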