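import Pool.Agent.Lib.MP_3240be_co.H43.Defs2

/-!
# Board WHV, row RDV: the red copies of `H` are the sets `z m j` (helper80)
-/

set_option autoImplicit false

namespace MP3240W

open Finset MP3240T
open Pool.Agent.Lib.MP_3240be_co.H36.Chrom (Sparse)

namespace Rdv

/-- Labels of the red components. -/
inductive Lb (g : ℕ) (M : Type) : Type
  | w0 : Lb g M
  | zz : M → Fin g → Lb g M
  | oth : Lb g M

/-- The label of a vertex. -/
def lbl {n h g : ℕ} {I M : Type} : VV n h g I M → Lb g M
  | .u _ => .w0
  | .l _ _ => .w0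
  | .z m j _ => .zz m j
  | .ch _ _ => .oth

theorem lbl_red {n h g N : ℕ} {I M : Type} {H : SimpleGraph (Fin n)} {x y : Fin n}
    {δ : M → Slot n N × Fin g → I} (a b : VV n h g I M) (h1 : redV a b)
    (h2 : relV H x y δ a b ∨ relV H x y δ b a) : lbl a = lbl b ∧ lbl a ≠ .oth := by
  rcases a with _ | _ | _ | _ <;> rcases b with _ | _ | _ | _ <;>
    simp_all [redV, relV, lbl]
  obtain ⟨h3, h4, -⟩ | ⟨h3, h4, -⟩ := h2
  · exact ⟨h3, h4⟩
  · exact ⟨h3.symm, h4.symm⟩

theorem red_of {n h g N : ℕ} {I M : Type} {H : SimpleGraph (Fin n)} {x y : Fin n}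
    {δ : M → Slot n N × Fin g → I} {a b : VV n h g I M}
    (hab : (cls (FV H x y δ) cV true).Adj a b) :
    (redV a b ∨ redV b a) ∧ (relV H x y δ a b ∨ relV H x y δ b a) := by
  obtain ⟨h1, h2, -⟩ := hab
  refine ⟨?_, ?_⟩
  · unfold cV at h2
    simpa using h2
  · unfold FV at h1
    rw [SimpleGraph.fromRel_adj] at h1
    exact h1.2

theorem lbl_adj {n h g N : ℕ} {I M : Type} {H : SimpleGraph (Fin n)} {x y : Fin n}
    {δ : M → Slot n N × Fin g → I} {a b : VV n h g I M}
    (hab : (cls (FV H x y δ) cV true).Adj a b) : lbl a = lbl b ∧ lbl a ≠ .oth := by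
  obtain ⟨h1 | h1, h2⟩ := red_of hab
  · exact lbl_red a b h1 h2
  · obtain ⟨h3, h4⟩ := lbl_red b a h1 h2.symm
    exact ⟨h3.symm, h3 ▸ h4⟩

/-- Being a common hub. -/
def isU {n h g : ℕ} {I M : Type} : VV n h g I M → Bool
  | .u _ => true
  | _ => false

theorem isU_ne {n h g : ℕ} {I M : Type} (a b : VV n h g I M) (ha : lbl a = .w0)
    (h1 : redV a b) : isU a ≠ isU b := by
  rcases a with _ | _ | _ | _ <;> rcases b with _ | _ | _ | _ <;>
    simp_all [redV, lbl, isU]

theorem isU_spec {n h g : ℕ} {I M : Type} (a : VV n h g I M) (ha : isU a = true) :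
    ∃ i, a = .u i := by
  rcases a with i | _ | _ | _
  · exact ⟨i, rfl⟩
  all_goals simp [isU] at ha

/-- A vertex of a connected graph with at least two vertices has a neighbour. -/
theorem exists_adj {n : ℕ} {H : SimpleGraph (Fin n)} (hc : H.Connected) {a b : Fin n}
    (hab : a ≠ b) : ∃ v, H.Adj a v := by
  obtain ⟨p⟩ := hc.preconnected a b
  cases p with
  | nil => exact absurd rfl hab
  | cons hadj _ => exact ⟨_, hadj⟩

/-- A function that is constant along the edges of a connected graph is constant. -/
theorem const_of {n : ℕ} {H : SimpleGraph (Fin n)} (hc : H.Connected) {L : Type} (g : Fin n → L)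
    (hg : ∀ i j, H.Adj i j → g i = g j) (i j : Fin n) : g i = g j := by
  obtain ⟨p⟩ := hc.preconnected i j
  induction p with
  | nil => rfl
  | cons hadj _ ih => exact (hg _ _ hadj).trans ih

/-- At most `h` vertices are mapped to hubs. -/
theorem card_isU {n h g : ℕ} {I M : Type} (f : Fin n → VV n h g I M)
    (hf : Function.Injective f) : (univ.filter (fun i => isU (f i) = true)).card ≤ h := by
  classical
  by_cases hh : h = 0
  · subst hh
    rw [Nat.le_zero, Finset.card_eq_zero, Finset.filter_eq_empty_iff]
    intro i _ hi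
    obtain ⟨k, -⟩ := isU_spec _ hi
    exact k.elim0
  · have h0 : 0 < h := Nat.pos_of_ne_zero hh
    let φ : VV n h g I M → Fin h := fun a => match a with
      | .u i => i
      | _ => ⟨0, h0⟩
    calc (univ.filter (fun i => isU (f i) = true)).card
        ≤ (univ : Finset (Fin h)).card := by
          refine Finset.card_le_card_of_injOn (fun i => φ (f i)) (fun _ _ => Finset.mem_univ _) ?_
          intro i hi j hj hij
          have hi' : isU (f i) = true := by simpa using hi
          have hj' : isU (f j) = true := by simpa using hj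
          obtain ⟨k, hk⟩ := isU_spec _ hi'
          obtain ⟨k', hk'⟩ := isU_spec _ hj'
          apply hf
          have h5 : φ (f i) = φ (f j) := hij
          rw [hk, hk'] at h5
          have h6 : k = k' := h5
          rw [hk, hk', h6]
      _ = h := by rw [Finset.card_univ, Fintype.card_fin]

end Rdv

open Rdv in
/-- Row RDV. -/
theorem rdv_proof : RdvStatement := by
  intro n h g N H x y I M δ κ D hc f hinj hf
  have hi1 : ∃ i, κ i = false := by
    have h1 : (univ.filter (fun x => κ x = false)).Nonempty := by
      rw [← Finset.card_pos]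
      exact lt_of_lt_of_le (Nat.succ_pos _) D.cardB
    obtain ⟨i, hi⟩ := h1
    exact ⟨i, by simpa using hi⟩
  obtain ⟨i1, hi1⟩ := hi1
  have hne : D.α ≠ i1 := by
    intro h1
    have h2 := D.hα
    rw [h1, hi1] at h2
    exact absurd h2 (by decide)
  obtain ⟨v, hv⟩ := exists_adj hc hne
  have hconst : ∀ i j, lbl (f i) = lbl (f j) :=
    const_of hc (fun i => lbl (f i)) (fun i j hij => (lbl_adj (hf i j hij)).1)
  have hoth : lbl (f D.α) ≠ .oth := (lbl_adj (hf D.α v hv)).2
  cases hl : lbl (f D.α) with
  | w0 =>
    exfalso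
    have hl' : ∀ i, lbl (f i) = .w0 := fun i => (hconst i D.α).trans hl
    have hxor : ∀ i j, (κ i ^^ isU (f i)) = (κ j ^^ isU (f j)) := by
      refine const_of hc (fun i => (κ i ^^ isU (f i))) ?_
      intro i j hij
      have h1 : κ i ≠ κ j := D.prop i j hij
      have h2 : isU (f i) ≠ isU (f j) := by
        obtain ⟨h3 | h3, -⟩ := red_of (hf i j hij)
        · exact isU_ne _ _ (hl' i) h3
        · exact (isU_ne _ _ (hl' j) h3).symm
      revert h1 h2
      show κ i ≠ κ j → isU (f i) ≠ isU (f j) → (κ i ^^ isU (f i)) = (κ j ^^ isU (f j))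
      cases κ i <;> cases κ j <;> cases isU (f i) <;> cases isU (f j) <;> simp
    have hcard := card_isU f hinj
    cases hb : (κ D.α ^^ isU (f D.α)) with
    | false =>
      have h1 : clA κ ⊆ univ.filter (fun i => isU (f i) = true) := by
        intro i hi
        have h2 : κ i = true := by simpa [clA] using hi
        have h3 := (hxor i D.α).trans hb
        rw [h2] at h3
        rw [Finset.mem_filter]
        refine ⟨Finset.mem_univ _, ?_⟩
        revert h3
        cases isU (f i) <;> simp
      have h2 := Finset.card_le_card h1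
      rw [D.cardA] at h2
      omega
    | true =>
      have h1 : univ.filter (fun x => κ x = false) ⊆ univ.filter (fun i => isU (f i) = true) := by
        intro i hi
        have h2 : κ i = false := by simpa using hi
        have h3 := (hxor i D.α).trans hb
        rw [h2] at h3
        rw [Finset.mem_filter]
        refine ⟨Finset.mem_univ _, ?_⟩
        revert h3
        cases isU (f i) <;> simp
      have h2 := Finset.card_le_card h1
      have h3 := D.cardB
      omega
  | zz m j =>
    refine ⟨m, j, fun i => ?_⟩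
    have hi : lbl (f i) = .zz m j := (hconst i D.α).trans hl
    generalize f i = a at hi
    rcases a with _ | _ | _ | ⟨m', j', v'⟩ <;> simp_all [lbl]
  | oth => exact absurd hl hoth

end MP3240W
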