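import Pool.Agent.Lib.MP_3240be_co.H43.Defs

/-!
# MP_3240be_co, board WHW, row TWO

A connected graph on at least three vertices without cut vertex is 2-connected in the matroid
sense.
-/

set_option autoImplicit false

namespace MP3240W

open Finset

/-- An edge has an end different from `c`. -/
theorem exists_end_ne {n : ℕ} {H : SimpleGraph (Fin n)} (c : Fin n) {J : Finset (Sym2 (Fin n))}
    (hJ : J.Nonempty) (hsub : ∀ e ∈ J, e ∈ ed H) : ∃ u, u ≠ c ∧ ∃ e ∈ J, u ∈ e := by
  obtain ⟨e, he⟩ := hJ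
  have h1 := hsub e he
  induction e using Sym2.ind with
  | _ x y =>
    rw [mem_ed] at h1
    by_cases hx : x = c
    · refine ⟨y, ?_, s(x, y), he, by simp⟩
      rintro rfl
      exact h1.ne hx
    · exact ⟨x, hx, s(x, y), he, by simp⟩

/-- Row TWO. -/
theorem two_proof : TwoStatement := by
  intro n H hn _ hcut J J' hJ hJ' hd hcov
  by_contra hno
  obtain ⟨c, hcc⟩ : ∃ c : Fin n, ∀ v, Shares J J' v → v = c := by
    by_cases h : ∃ v, Shares J J' v
    · obtain ⟨c, hc'⟩ := h
      refine ⟨c, fun v hv => ?_⟩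
      by_contra hne
      exact hno ⟨v, c, hne, hv, hc'⟩
    · exact ⟨⟨0, by omega⟩, fun v hv => absurd ⟨v, hv⟩ h⟩
  obtain ⟨u, huc, e, he, hue⟩ :=
    exists_end_ne (H := H) c hJ (fun e he => (hcov e).2 (Or.inl he))
  obtain ⟨u', huc', e', he', hue'⟩ :=
    exists_end_ne (H := H) c hJ' (fun e he => (hcov e).2 (Or.inr he))
  have hcl : ∀ a b : {x : Fin n | x ≠ c}, (H.induce {x | x ≠ c}).Reachable a b →
      (∃ e ∈ J, (a : Fin n) ∈ e) → ∃ e ∈ J, (b : Fin n) ∈ e := by
    intro a b hab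
    obtain ⟨p⟩ := hab
    induction p with
    | nil => exact id
    | @cons a b' b hadj p ih =>
      intro ha
      apply ih
      have h1 : H.Adj (a : Fin n) (b' : Fin n) := hadj
      rcases (hcov s((a : Fin n), (b' : Fin n))).1 (mem_ed.2 h1) with h2 | h2
      · exact ⟨_, h2, by simp⟩
      · exact absurd (hcc a ⟨ha, _, h2, by simp⟩) a.2
  have h1 := hcl ⟨u, huc⟩ ⟨u', huc'⟩ ((hcut c).preconnected _ _) ⟨e, he, hue⟩
  exact huc' (hcc u' ⟨h1, e', he', hue'⟩)

end MP3240W
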