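import Pool.Agent.Lib.MP_3240be_co.H43.Defs2
import Pool.Agent.Lib.MP_3240be_co.H43.Ovl

/-!
# MP_3240be_co, board WHV, row ZD2
-/

set_option autoImplicit false

namespace MP3240W

open Finset MP3240T

open OVL in
theorem zd2_proof (hE : ExnStatement) : Zd2Statement := by
  classical
  intro n h H κ D V G P S N l₁ v hP hSP hS hMany hvP hNP hl₁ hcard hvN hSN hPl
  have hnb : ∀ x, x ∈ nb H D.α ↔ H.Adj D.α x := by
    intro x
    simp [nb]
  have hA : ∀ x, x ∈ clA κ ↔ κ x = true := by
    intro x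
    simp [clA]
  have nbκ : ∀ x, x ∈ nb H D.α → κ x = false := by
    intro x hx
    have := D.prop D.α x ((hnb x).mp hx)
    rw [D.hα] at this
    cases hκ : κ x
    · rfl
    · exact absurd hκ.symm this
  have hQsub : D.Q ⊆ (clA κ).erase D.α := by
    intro x hx
    obtain ⟨h1, h2⟩ := D.hQA x hx
    exact Finset.mem_erase.mpr ⟨h2, (hA x).mpr h1⟩
  have hA' : ((clA κ).erase D.α).card = h := by
    rw [Finset.card_erase_of_mem ((hA _).mpr D.hα), D.cardA]
    rfl
  -- injection of `Q` into `S`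
  obtain ⟨fQ, hfQ1, hfQ2⟩ := exists_inj_into D.Q S (by have := D.small; omega) v
  -- injection of the rest of `A - α` into `P` minus the image
  have himg : (D.Q.image fQ).card = D.Q.card := Finset.card_image_of_injOn hfQ1
  have himgP : D.Q.image fQ ⊆ P := by
    intro x hx
    obtain ⟨y, hy, rfl⟩ := Finset.mem_image.mp hx
    exact hSP (hfQ2 y hy)
  obtain ⟨fR, hfR1, hfR2⟩ := exists_inj_into (((clA κ).erase D.α) \ D.Q) (P \ D.Q.image fQ) (by
    rw [Finset.card_sdiff_of_subset hQsub, Finset.card_sdiff_of_subset himgP, himg, hA', hP]) v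
  -- injection of `N(α) - β₁` into `N - l₁`
  obtain ⟨fN, hfN1, hfN2⟩ := exists_inj_into ((nb H D.α).erase D.β₁) (N.erase l₁) (by
    rw [Finset.card_erase_of_mem ((hnb _).mpr D.adj), Finset.card_erase_of_mem hl₁]
    omega) v
  let φ : Fin n → V := fun x =>
    if x = D.α then v else if x = D.β₁ then l₁ else if x ∈ nb H D.α then fN x else
      if x ∈ D.Q then fQ x else fR x
  have hβκ : κ D.β₁ = false := nbκ _ ((hnb _).mpr D.adj)
  have hαβ : D.β₁ ≠ D.α := by
    intro hc
    rw [hc, D.hα] at hβκ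
    exact Bool.noConfusion hβκ
  have hκne : ∀ x y, κ x = true → κ y = false → x ≠ y := by
    intro x y hx hy hc
    rw [hc, hy] at hx
    exact Bool.noConfusion hx
  have φα : φ D.α = v := by simp [φ]
  have φβ : φ D.β₁ = l₁ := by simp [φ, hαβ]
  have φN : ∀ x, x ∈ nb H D.α → x ≠ D.β₁ → φ x = fN x := by
    intro x hx hxβ
    have h1 : x ≠ D.α := (hκne _ _ D.hα (nbκ x hx)).symm
    simp only [φ, if_neg h1, if_neg hxβ, if_pos hx]
  have hAnb : ∀ x, κ x = true → x ∉ nb H D.α := by
    intro x hx hx'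
    exact hκne x x hx (nbκ x hx') rfl
  have φQ : ∀ x, x ∈ D.Q → φ x = fQ x := by
    intro x hx
    obtain ⟨h1, h2⟩ := D.hQA x hx
    simp only [φ, if_neg h2, if_neg (hκne x _ h1 hβκ), if_neg (hAnb x h1), if_pos hx]
  have φR : ∀ x, κ x = true → x ≠ D.α → x ∉ D.Q → φ x = fR x := by
    intro x h1 h2 hx
    simp only [φ, if_neg h2, if_neg (hκne x _ h1 hβκ), if_neg (hAnb x h1), if_neg hx]
  have memR : ∀ x, κ x = true → x ≠ D.α → x ∉ D.Q → x ∈ ((clA κ).erase D.α) \ D.Q := by
    intro x h1 h2 hx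
    exact Finset.mem_sdiff.mpr ⟨Finset.mem_erase.mpr ⟨h2, (hA x).mpr h1⟩, hx⟩
  -- images
  have φinP : ∀ x, κ x = true → x ≠ D.α → φ x ∈ P := by
    intro x h1 h2
    by_cases hx : x ∈ D.Q
    · rw [φQ x hx]
      exact hSP (hfQ2 x hx)
    · rw [φR x h1 h2 hx]
      exact (Finset.mem_sdiff.mp (hfR2 x (memR x h1 h2 hx))).1
  have memN : ∀ x, x ∈ nb H D.α → x ≠ D.β₁ → x ∈ (nb H D.α).erase D.β₁ := by
    intro x hx hxβ
    exact Finset.mem_erase.mpr ⟨hxβ, hx⟩
  have φinN : ∀ x, x ∈ nb H D.α → φ x ∈ N := by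
    intro x hx
    by_cases hxβ : x = D.β₁
    · rw [hxβ, φβ]
      exact hl₁
    · rw [φN x hx hxβ]
      exact (Finset.mem_erase.mp (hfN2 x (memN x hx hxβ))).2
  have hNv : ∀ x ∈ N, x ≠ v := by
    intro x hx hxv
    have := hvN x hx
    rw [hxv] at this
    exact G.loopless.irrefl v this
  have hNP' : ∀ x ∈ N, x ∉ P := by
    intro x hx hxP
    exact Finset.disjoint_left.mp hNP hx hxP
  have hW : ∀ x, x ∈ clA κ ∪ nb H D.α ↔ κ x = true ∨ x ∈ nb H D.α := by
    intro x
    rw [Finset.mem_union, hA]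
  -- injectivity inside the two kinds
  have injA : ∀ x y, κ x = true → x ≠ D.α → κ y = true → y ≠ D.α → φ x = φ y → x = y := by
    intro x y hx hxα hy hyα hxy
    by_cases hxQ : x ∈ D.Q
    · by_cases hyQ : y ∈ D.Q
      · rw [φQ x hxQ, φQ y hyQ] at hxy
        exact hfQ1 (Finset.mem_coe.mpr hxQ) (Finset.mem_coe.mpr hyQ) hxy
      · exfalso
        rw [φQ x hxQ, φR y hy hyα hyQ] at hxy
        refine (Finset.mem_sdiff.mp (hfR2 y (memR y hy hyα hyQ))).2 ?_
        rw [← hxy]
        exact Finset.mem_image_of_mem fQ hxQ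
    · by_cases hyQ : y ∈ D.Q
      · exfalso
        rw [φQ y hyQ, φR x hx hxα hxQ] at hxy
        refine (Finset.mem_sdiff.mp (hfR2 x (memR x hx hxα hxQ))).2 ?_
        rw [hxy]
        exact Finset.mem_image_of_mem fQ hyQ
      · rw [φR x hx hxα hxQ, φR y hy hyα hyQ] at hxy
        exact hfR1 (Finset.mem_coe.mpr (memR x hx hxα hxQ))
          (Finset.mem_coe.mpr (memR y hy hyα hyQ)) hxy
  have injN : ∀ x y, x ∈ nb H D.α → y ∈ nb H D.α → φ x = φ y → x = y := by
    intro x y hx hy hxy
    by_cases hxβ : x = D.β₁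
    · by_cases hyβ : y = D.β₁
      · rw [hxβ, hyβ]
      · exfalso
        rw [hxβ, φβ, φN y hy hyβ] at hxy
        exact (Finset.mem_erase.mp (hfN2 y (memN y hy hyβ))).1 hxy.symm
    · by_cases hyβ : y = D.β₁
      · exfalso
        rw [hyβ, φβ, φN x hx hxβ] at hxy
        exact (Finset.mem_erase.mp (hfN2 x (memN x hx hxβ))).1 hxy
      · rw [φN x hx hxβ, φN y hy hyβ] at hxy
        exact hfN1 (Finset.mem_coe.mpr (memN x hx hxβ)) (Finset.mem_coe.mpr (memN y hy hyβ)) hxy
  have sepAN : ∀ x y, κ x = true → y ∈ nb H D.α → φ x ≠ φ y := by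
    intro x y hx hy hxy
    by_cases hxα : x = D.α
    · apply hNv (φ y) (φinN y hy)
      rw [← hxy, hxα, φα]
    · apply hNP' (φ y) (φinN y hy)
      rw [← hxy]
      exact φinP x hx hxα
  refine hE V G n H (clA κ ∪ nb H D.α) φ ?_ ?_ ?_ ?_
  · intro x hx y hy hxy
    have hx' := (hW x).mp (Finset.mem_coe.mp hx)
    have hy' := (hW y).mp (Finset.mem_coe.mp hy)
    rcases hx' with hx' | hx' <;> rcases hy' with hy' | hy'
    · by_cases hxα : x = D.α
      · by_cases hyα : y = D.α
        · rw [hxα, hyα]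
        · exfalso
          apply hvP
          rw [← φα, ← hxα, hxy]
          exact φinP y hy' hyα
      · by_cases hyα : y = D.α
        · exfalso
          apply hvP
          rw [← φα, ← hyα, ← hxy]
          exact φinP x hx' hxα
        · exact injA x y hx' hxα hy' hyα hxy
    · exact absurd hxy (sepAN x y hx' hy')
    · exact absurd hxy.symm (sepAN y x hy' hx')
    · exact injN x y hx' hy' hxy
  · -- edges inside W
    have key : ∀ i j, κ i = true → j ∈ nb H D.α → H.Adj i j → G.Adj (φ i) (φ j) := by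
      intro i j hi hj hij
      by_cases hiα : i = D.α
      · rw [hiα, φα]
        exact hvN _ (φinN j hj)
      · by_cases hjβ : j = D.β₁
        · rw [hjβ, φβ]
          exact hPl _ (φinP i hi hiα)
        · have hiQ : i ∈ D.Q := D.hQ j i hjβ ((hnb j).mp hj) hij.symm hiα
          rw [φQ i hiQ]
          exact hSN _ (φinN j hj) _ (hfQ2 i hiQ)
    intro i hi j hj hij
    have hi' := (hW i).mp hi
    have hj' := (hW j).mp hj
    have hne := D.prop i j hij
    rcases hi' with hi' | hi' <;> rcases hj' with hj' | hj'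
    · exact absurd (hi'.trans hj'.symm) hne
    · exact key i j hi' hj' hij
    · exact (key j i hj' hi' hij.symm).symm
    · exact absurd ((nbκ i hi').trans (nbκ j hj').symm) hne
  · intro i hi j hj hij
    have hi' : κ i = false := by
      cases hκ : κ i
      · rfl
      · exact absurd ((hW i).mpr (Or.inl hκ)) hi
    have hj' : κ j = false := by
      cases hκ : κ j
      · rfl
      · exact absurd ((hW j).mpr (Or.inl hκ)) hj
    exact D.prop i j hij (hi'.trans hj'.symm)
  · intro u hu T hT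
    have hu' : κ u = false := by
      cases hκ : κ u
      · rfl
      · exact absurd ((hW u).mpr (Or.inl hκ)) hu
    obtain ⟨z, hz1, hz2⟩ := many_pick hMany T hT
    refine ⟨z, hz1, ?_⟩
    intro i hi hui
    have hi' : κ i = true := by
      cases hκ : κ i
      · exact absurd (hu'.trans hκ.symm) (D.prop u i hui)
      · rfl
    have hiα : i ≠ D.α := by
      intro hiα
      apply hu
      rw [hW]
      right
      rw [hnb, ← hiα]
      exact hui.symm
    exact hz2 (φ i) (φinP i hi' hiα)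

end MP3240W
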