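import Pool.Agent.Lib.MP_3240be_co.H43.Cross
import Pool.Agent.Lib.MP_3240be_co.H43.Arv
import Pool.Agent.Lib.MP_3240be_co.H43.Mnv
import Pool.Agent.Lib.MP_3240be_co.H43.Two
import Pool.Agent.Lib.MP_3240be_co.H43.G0
import Pool.Agent.Lib.MP_3240be_co.H43.Pc2
import Pool.Agent.Lib.MP_3240be_co.H43.Exn
import Pool.Agent.Lib.MP_3240be_co.H43.Hyp
import Pool.Agent.Lib.MP_3240be_co.H43.Zd2
import Pool.Agent.Lib.MP_3240be_co.H43.Noa
import Pool.Agent.Lib.MP_3240be_co.H43.Rdv
import Pool.Agent.Lib.MP_3240be_co.H43.Bv1h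
import Pool.Agent.Lib.MP_3240be_co.H43.Bv2
import Pool.Agent.Lib.MP_3240be_co.H43.Nfv
import Pool.Agent.Lib.MP_3240be_co.H43.Cov

/-!
# MP_3240be_co: 3-connected graphs and 2-connected bipartite graphs
-/

set_option autoImplicit false

namespace MP3240W

open Finset MP3240T MP3240WC
open Pool.Agent.Lib.MP_3240be_co.H82 (main3 TC)
open Pool.Agent.Lib.MP_3240be_co.H36.Chrom (ArrowsT iso_of_le)

theorem whv_main : MnvStatement :=
  mnv_proof (arv_proof (zd2_proof exn_proof) (noa_proof exn_proof))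
    (nfv_proof rdv_proof (bv2_proof pc2_proof (bv1h_proof g0_proof))) hyp_proof

/-- The two ways to say that `F` is Ramsey for `H`. -/
theorem arr_iff {V : Type} (F : SimpleGraph V) {n : ℕ} (H : SimpleGraph (Fin n)) :
    Arr F H ↔ ArrowsT F H := by
  constructor
  · intro h c hc
    obtain ⟨b, f, hf, hadj⟩ := h c hc
    exact ⟨b, f, hf, fun i j hij => ⟨(hadj i j hij).1, (hadj i j hij).2.1⟩⟩
  · intro h c hc
    obtain ⟨b, f, hf, hadj⟩ := h c hc
    exact ⟨b, f, hf, fun i j hij => ⟨(hadj i j hij).1, (hadj i j hij).2,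
      (hc _ _).trans (hadj i j hij).2⟩⟩

theorem connected_of {n : ℕ} {H : SimpleGraph (Fin n)} (h3 : 3 ≤ n)
    (h1 : ∀ a, StaysConnected H a a) : H.Connected := by
  have hne : Nonempty (Fin n) := ⟨⟨0, by omega⟩⟩
  refine SimpleGraph.Connected.mk (fun u v => ?_)
  obtain ⟨w, hwu, hwv⟩ := third h3 u v
  obtain ⟨p⟩ := (h1 w).preconnected ⟨u, hwu.symm, hwu.symm⟩ ⟨v, hwv.symm, hwv.symm⟩
  have main : ∀ (a b : {x : Fin n | x ≠ w ∧ x ≠ w})
      (_ : (H.induce {x | x ≠ w ∧ x ≠ w}).Walk a b), H.Reachable a.1 b.1 := by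
    intro a b p
    induction p with
    | nil => exact SimpleGraph.Reachable.refl _
    | cons hadj _ ih =>
      rename_i u1 u2 u3 _
      have h4 : H.Adj u1.1 u2.1 := hadj
      exact h4.reachable.trans ih
  exact main _ _ p

theorem twoC_of {n : ℕ} {H : SimpleGraph (Fin n)} (h3 : 3 ≤ n)
    (h1 : ∀ a, StaysConnected H a a) : TwoC (ed H) := by
  refine two_proof n H h3 (connected_of h3 h1) (fun a => ?_)
  have h2 := h1 a
  unfold StaysConnected at h2
  have e : ({x | x ≠ a ∧ x ≠ a} : Set (Fin n)) = {x | x ≠ a} := by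
    ext x
    simp
  rwa [e] at h2

theorem swap_card {n : ℕ} (κ : Fin n → Bool) : clA (fun x => !κ x) =
    univ.filter (fun x => κ x = false) := by
  ext x
  simp [clA]

/-- No 2-connected bipartite graph is Ramsey-equivalent to a larger connected graph. -/
theorem two_connected_bipartite {n n' : ℕ} (H : SimpleGraph (Fin n)) (H' : SimpleGraph (Fin n'))
    (h3 : 3 ≤ n) (κ : Fin n → Bool) (hκ : ∀ x y, H.Adj x y → κ x ≠ κ y)
    (h1 : ∀ a, StaysConnected H a a) (hconn : H'.Connected)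
    (hyes : ∃ f : Fin n → Fin n', Function.Injective f ∧ ∀ x y, H.Adj x y → H'.Adj (f x) (f y))
    (hiso : IsEmpty (H ≃g H')) :
    ∃ (m : ℕ) (F : SimpleGraph (Fin m)), ArrowsT F H ∧ ¬ ArrowsT F H' := by
  -- the class `A` is not the larger one
  obtain ⟨κ, hκ, hAB⟩ : ∃ κ : Fin n → Bool, (∀ x y, H.Adj x y → κ x ≠ κ y) ∧
      (clA κ).card ≤ (univ.filter (fun x => κ x = false)).card := by
    rcases Nat.le_total (clA κ).card (univ.filter (fun x => κ x = false)).card with h | h
    · exact ⟨κ, hκ, h⟩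
    · refine ⟨fun x => !κ x, fun x y hxy => ?_, ?_⟩
      · have h5 := hκ x y hxy
        show (!κ x) ≠ (!κ y)
        revert h5
        cases κ x <;> cases κ y <;> decide
      · rw [swap_card]
        have e : (univ.filter (fun x => (!κ x) = false)) = clA κ := by
          ext x
          simp [clA]
        rw [e]
        exact h
  by_cases hc : ∀ a b, κ a ≠ κ b → StaysConnected H a b
  · exact main3 H (tc_of_cross ⟨h3, κ, hκ, h1, hc⟩) H' hconn hyes hiso
  · push Not at hc
    obtain ⟨a, b, hab, hns⟩ := hc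
    obtain ⟨a, b, ha, hb, hns⟩ : ∃ a b, κ a = true ∧ κ b = false ∧ ¬ StaysConnected H a b := by
      rcases Bool.eq_false_or_eq_true (κ a) with ha | ha
      · refine ⟨a, b, ha, ?_, hns⟩
        rw [ha] at hab
        revert hab
        cases κ b <;> decide
      · refine ⟨b, a, ?_, ha, fun h => hns ?_⟩
        · rw [ha] at hab
          revert hab
          cases κ b <;> decide
        · unfold StaysConnected at h ⊢
          have e : ({x | x ≠ a ∧ x ≠ b} : Set (Fin n)) = {x | x ≠ b ∧ x ≠ a} := by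
            ext x
            exact and_comm
          rwa [e]
    obtain ⟨h, ⟨D⟩⟩ := cov_proof n H κ h3 hκ h1 hAB a b ha hb hns
    by_cases hno : ∃ f : Fin n' → Fin n, Function.Injective f ∧
        ∀ x y, H'.Adj x y → H.Adj (f x) (f y)
    · obtain ⟨e⟩ := iso_of_le H H' hyes hno
      exact (hiso.false e).elim
    · obtain ⟨m, F, hF1, hF2⟩ := whv_main n n' h H H' κ D (connected_of h3 h1) (twoC_of h3 h1)
        hconn hyes hno
      exact ⟨m, F, (arr_iff F H).1 hF1, fun h => hF2 ((arr_iff F H').2 h)⟩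

/-- 3-connected graphs (and the triangle) and 2-connected bipartite graphs. -/
theorem three_or_bipartite {n n' : ℕ} (H : SimpleGraph (Fin n)) (H' : SimpleGraph (Fin n'))
    (h3 : 3 ≤ n) (hH : (∀ a b, StaysConnected H a b) ∨
      ((∃ κ : Fin n → Bool, ∀ x y, H.Adj x y → κ x ≠ κ y) ∧ ∀ a, StaysConnected H a a))
    (hconn : H'.Connected)
    (hyes : ∃ f : Fin n → Fin n', Function.Injective f ∧ ∀ x y, H.Adj x y → H'.Adj (f x) (f y))
    (hiso : IsEmpty (H ≃g H')) :
    ∃ (m : ℕ) (F : SimpleGraph (Fin m)), ArrowsT F H ∧ ¬ ArrowsT F H' := by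
  rcases hH with h | ⟨⟨κ, hκ⟩, h⟩
  · exact main3 H (tc_of_three ⟨h3, h⟩) H' hconn hyes hiso
  · exact two_connected_bipartite H H' h3 κ hκ h hconn hyes hiso

end MP3240W
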