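import Pool.Agent.Lib.MP_3240be_co.H43.Defs2

/-!
# MP_3240be_co, board WHV, row BV1 (helper43's version): a blue copy of `H` in one gadget
-/

set_option autoImplicit false

namespace MP3240W

open Finset MP3240T
open Pool.Agent.Lib.MP_3240be_co.H36.Chrom (Sparse Leaf)

namespace Bvh

variable {n N : ℕ}

/-- The graph of one gadget without the edges between free vertices. -/
def gg (H : SimpleGraph (Fin n)) (x y : Fin n) : Fin n ⊕ Slot n N → Fin n ⊕ Slot n N → Prop
  | .inl u, .inr t => zAdj H x y u t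
  | .inr t, .inl u => zAdj H x y u t
  | .inr t, .inr t' => blobAdj H x y t t'
  | .inl _, .inl _ => False

/-- The blob of a slot. -/
def tri (t : Slot n N) : Fin n × Fin n × Fin N := (t.1, t.2.1, t.2.2.1)

theorem slot_ext {t t' : Slot n N} (h : tri t = tri t') (h' : t.2.2.2 = t'.2.2.2) : t = t' := by
  obtain ⟨a, b, c, d⟩ := t
  obtain ⟨a', b', c', d'⟩ := t'
  simp only [tri, Prod.mk.injEq] at h h' ⊢
  exact ⟨h.1, h.2.1, h.2.2, h'⟩

/-- `H` has no embedding into the gadget graph. -/
theorem core (hG : G0Statement) (H : SimpleGraph (Fin n)) (x y : Fin n) (hxy : H.Adj x y)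
    (htc : TwoC (ed H)) (hdeg : ∀ u, ∃ v, H.Adj u v) (F : Fin n → Fin n ⊕ Slot n N)
    (hF : Function.Injective F) (hadj : ∀ i j, H.Adj i j → gg H x y (F i) (F j)) : False := by
  classical
  -- the blob of `x y`
  obtain ⟨β, i0, t0, hi0, ht0, hβ⟩ : ∃ (β : Fin n × Fin n × Fin N) (i0 : Fin n) (t0 : Slot n N),
      i0 ∈ s(x, y) ∧ F i0 = .inr t0 ∧ tri t0 = β := by
    have h1 := hadj x y hxy
    rcases hx : F x with u | t
    · rcases hy : F y with u' | t'
      · rw [hx, hy] at h1
        exact h1.elim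
      · exact ⟨tri t', y, t', by simp, hy, rfl⟩
    · exact ⟨tri t, x, t, by simp, hx, rfl⟩
  set P : Sym2 (Fin n) → Prop := fun e => ∃ i t, i ∈ e ∧ F i = .inr t ∧ tri t = β with hP
  set D := (ed H).filter P with hD
  set D' := (ed H).filter (fun e => ¬ P e) with hD'
  -- the edges of `D`
  have hcase : ∀ e ∈ D, ∃ i k t, e = s(i, k) ∧ H.Adj i k ∧ F i = .inr t ∧ tri t = β ∧
      inner x y t ∧ ((∃ u, F k = .inl u ∧ zAdj H x y u t) ∨
        ∃ t', F k = .inr t' ∧ blobAdj H x y t t') := by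
    intro e he
    obtain ⟨he1, i, t, hie, hit, htb⟩ := mem_filter.1 he
    obtain ⟨k, rfl⟩ := Sym2.mem_iff_exists.1 hie
    have h1 : H.Adj i k := mem_ed.1 he1
    have h2 := hadj i k h1
    rw [hit] at h2
    rcases hk : F k with u | t'
    · rw [hk] at h2
      have h3 : zAdj H x y u t := h2
      exact ⟨i, k, t, rfl, h1, hit, htb, h3.2.1, Or.inl ⟨u, hk, h3⟩⟩
    · rw [hk] at h2
      have h3 : blobAdj H x y t t' := h2
      exact ⟨i, k, t, rfl, h1, hit, htb, h3.2.2.2.1, Or.inr ⟨t', hk, h3⟩⟩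
  -- the vertices of `D`
  set good : Fin n → Prop := fun w => (∃ t, F w = .inr t ∧ tri t = β ∧ inner x y t) ∨
    ((F w = .inl β.1 ∨ F w = .inl β.2.1) ∧ H.Adj β.1 β.2.1) with hgood
  have hgd : ∀ w, (∃ e ∈ D, w ∈ e) → good w := by
    rintro w ⟨e, he, hwe⟩
    obtain ⟨i, k, t, rfl, hik, hit, htb, hin, hk⟩ := hcase e he
    have hb1 : t.1 = β.1 := by rw [← htb]; rfl
    have hb2 : t.2.1 = β.2.1 := by rw [← htb]; rfl
    rcases Sym2.mem_iff.1 hwe with rfl | rfl
    · exact Or.inl ⟨t, hit, htb, hin⟩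
    · rcases hk with ⟨u, hk, hz⟩ | ⟨t', hk, hbl⟩
      · refine Or.inr ⟨?_, ?_⟩
        · rcases hz.2.2 with hz2 | hz2
          · left
            rw [hk, hz2.1, hb1]
          · right
            rw [hk, hz2.1, hb2]
        · rw [← hb1, ← hb2]
          exact hz.1
      · refine Or.inl ⟨t', hk, ?_, hbl.2.2.2.2.1⟩
        rw [← htb]
        simp only [tri, hbl.1, hbl.2.1, hbl.2.2.1]
  -- the map
  let φ : Fin n → Fin n := fun i => Sum.elim (fun u => if u = β.1 then x else y)
    (fun t : Slot n N => t.2.2.2) (F i)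
  have hφr : ∀ i t, F i = .inr t → φ i = t.2.2.2 := by
    intro i t hi
    simp only [φ, hi, Sum.elim_inr]
  have hφl : ∀ i u, F i = .inl u → φ i = if u = β.1 then x else y := by
    intro i u hi
    simp only [φ, hi, Sum.elim_inl]
  have hφ1 : ∀ i, F i = .inl β.1 → φ i = x := by
    intro i hi
    rw [hφl i _ hi, if_pos rfl]
  have hφ2 : ∀ i, H.Adj β.1 β.2.1 → F i = .inl β.2.1 → φ i = y := by
    intro i hb hi
    rw [hφl i _ hi, if_neg hb.ne']
  have hinj : ∀ u v, good u → good v → φ u = φ v → u = v := by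
    intro u v hu hv huv
    rcases hu with ⟨t, ht, htb, hin⟩ | ⟨hu, hb⟩
    · rcases hv with ⟨t', ht', htb', hin'⟩ | ⟨hv, hb⟩
      · rw [hφr u t ht, hφr v t' ht'] at huv
        apply hF
        rw [ht, ht', slot_ext (htb.trans htb'.symm) huv]
      · exfalso
        rcases hv with hv | hv
        · rw [hφr u t ht, hφ1 v hv] at huv
          exact hin.1 huv
        · rw [hφr u t ht, hφ2 v hb hv] at huv
          exact hin.2 huv
    · rcases hv with ⟨t', ht', htb', hin'⟩ | ⟨hv, -⟩
      · exfalso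
        rcases hu with hu | hu
        · rw [hφr v t' ht', hφ1 u hu] at huv
          exact hin'.1 huv.symm
        · rw [hφr v t' ht', hφ2 u hb hu] at huv
          exact hin'.2 huv.symm
      · rcases hu with hu | hu <;> rcases hv with hv | hv
        · exact hF (hu.trans hv.symm)
        · rw [hφ1 u hu, hφ2 v hb hv] at huv
          exact absurd huv hxy.ne
        · rw [hφ2 u hb hu, hφ1 v hv] at huv
          exact absurd huv.symm hxy.ne
        · exact hF (hu.trans hv.symm)
  have hmap : ∀ e ∈ D, e.map φ ∈ ed H ∧ e.map φ ≠ s(x, y) := by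
    intro e he
    obtain ⟨i, k, t, rfl, hik, hit, htb, hin, hk⟩ := hcase e he
    have hb1 : t.1 = β.1 := by rw [← htb]; rfl
    have hb2 : t.2.1 = β.2.1 := by rw [← htb]; rfl
    have h1 := hφr i t hit
    have key : ∀ c, H.Adj t.2.2.2 c → φ k = c →
        (s(i, k) : Sym2 (Fin n)).map φ ∈ ed H ∧ (s(i, k) : Sym2 (Fin n)).map φ ≠ s(x, y) := by
      intro c hc hkc
      rw [Sym2.map_mk, h1, hkc]
      refine ⟨mem_ed.2 hc, ?_⟩
      intro he2
      have h3 : t.2.2.2 ∈ s(x, y) := by
        rw [← he2]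
        simp
      rcases Sym2.mem_iff.1 h3 with h4 | h4
      · exact hin.1 h4
      · exact hin.2 h4
    rcases hk with ⟨u, hk, hz⟩ | ⟨t', hk, hbl⟩
    · have hb : H.Adj β.1 β.2.1 := by
        rw [← hb1, ← hb2]
        exact hz.1
      rcases hz.2.2 with hz2 | hz2
      · refine key x hz2.2.symm (hφ1 k ?_)
        rw [hk, hz2.1, hb1]
      · refine key y hz2.2.symm (hφ2 k hb ?_)
        rw [hk, hz2.1, hb2]
    · exact key t'.2.2.2 hbl.2.2.2.2.2 (hφr k t' hk)
  have he0 : s(x, y) ∈ D := mem_filter.2 ⟨mem_ed.2 hxy, i0, t0, hi0, ht0, hβ⟩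
  have hdis : Disjoint D D' := disjoint_filter_filter_not _ _ _
  have hcov : ∀ e, e ∈ ed H ↔ e ∈ D ∨ e ∈ D' := by
    intro e
    simp only [hD, hD', mem_filter]
    by_cases he : P e <;> simp [he]
  -- `D'` is not empty
  have hne : D'.Nonempty := by
    by_contra hemp
    have hall : ∀ e ∈ ed H, e ∈ D := by
      intro e he
      rcases (hcov e).1 he with h1 | h1
      · exact h1
      · exact absurd ⟨e, h1⟩ hemp
    have hφi : Function.Injective φ := by
      intro u v huv
      obtain ⟨u', hu'⟩ := hdeg u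
      obtain ⟨v', hv'⟩ := hdeg v
      exact hinj u v (hgd u ⟨s(u, u'), hall _ (mem_ed.2 hu'), by simp⟩)
        (hgd v ⟨s(v, v'), hall _ (mem_ed.2 hv'), by simp⟩) huv
    have hlt : ((ed H).image (Sym2.map φ)).card < (ed H).card := by
      apply card_lt_card
      refine ⟨?_, ?_⟩
      · intro e he
        obtain ⟨e', he', rfl⟩ := mem_image.1 he
        exact (hmap e' (hall e' he')).1
      · intro hsub
        obtain ⟨e', he', h1⟩ := mem_image.1 (hsub (mem_ed.2 hxy))
        exact (hmap e' (hall e' he')).2 h1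
    rw [card_image_of_injective _ (Sym2.map.injective hφi)] at hlt
    exact lt_irrefl _ hlt
  -- the shared vertices
  have hsh : ∀ w, Shares D D' w → (F w = .inl β.1 ∨ F w = .inl β.2.1) ∧ H.Adj β.1 β.2.1 := by
    rintro w ⟨hw1, e, he, hwe⟩
    rcases hgd w hw1 with ⟨t, ht, htb, -⟩ | h1
    · exact absurd ⟨w, t, hwe, ht, htb⟩ (mem_filter.1 he).2
    · exact h1
  obtain ⟨s, t, hst, hs, ht⟩ := htc D D' ⟨_, he0⟩ hne hdis hcov
  have fin : ∀ s t : Fin n, F s = .inl β.1 → F t = .inl β.2.1 → H.Adj β.1 β.2.1 → False := by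
    intro s t hs1 ht1 hb
    refine hG n H D D' s(x, y) s t φ htc hdis hcov he0 hne ?_ ?_ ?_ hmap ?_
    · intro hadj2
      have h1 := hadj s t hadj2
      rw [hs1, ht1] at h1
      exact h1
    · intro w hw
      rcases (hsh w hw).1 with h1 | h1
      · exact Or.inl (hF (h1.trans hs1.symm))
      · exact Or.inr (hF (h1.trans ht1.symm))
    · intro u v hu hv huv
      exact hinj u v (hgd u hu) (hgd v hv) huv
    · rw [hφ1 s hs1, hφ2 t hb ht1]
  obtain ⟨hs1, hb⟩ := hsh s hs
  obtain ⟨ht1, -⟩ := hsh t ht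
  rcases hs1 with hs1 | hs1 <;> rcases ht1 with ht1 | ht1
  · exact hst (hF (hs1.trans ht1.symm))
  · exact fin s t hs1 ht1 hb
  · exact fin t s ht1 hs1 hb
  · exact hst (hF (hs1.trans ht1.symm))

/-- The copy index of a vertex. -/
def jx {n h g : ℕ} {I M : Type} : VV n h g I M → Option (Fin g)
  | .l _ j => some j
  | .z _ j _ => some j
  | _ => none

theorem blobAdj_symm {n N : ℕ} {H : SimpleGraph (Fin n)} {x y : Fin n} {t t' : Slot n N}
    (h : blobAdj H x y t t') : blobAdj H x y t' t :=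
  ⟨h.1.symm, h.2.1.symm, h.2.2.1.symm, h.2.2.2.2.1, h.2.2.2.1, h.2.2.2.2.2.symm⟩

/-- In a sparse hypergraph two hyperedges share at most one point. -/
theorem lin {T V M : Type} {g : ℕ} (hg : 2 ≤ g) {δ : M → T → V} (hs : Sparse g δ) {m m' : M}
    (hm : m ≠ m') {a b a' b' : T} (h1 : δ m a = δ m' a') (h2 : δ m b = δ m' b') :
    δ m a = δ m b := by
  classical
  obtain ⟨m1, hm1, m2, hm2, hne, hl1, hl2⟩ := hs {m, m'} (by rw [card_pair hm])
    (by rw [card_pair hm]; exact hg)
  have key : Leaf δ {m, m'} m := by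
    rcases mem_insert.1 hm1 with e1 | e1
    · exact e1 ▸ hl1
    · rcases mem_insert.1 hm2 with e2 | e2
      · exact e2 ▸ hl2
      · exact absurd ((mem_singleton.1 e1).trans (mem_singleton.1 e2).symm) hne
  exact key m' (by simp) m' (by simp) hm.symm hm.symm a a' b b' h1 h2

/-- The vertex of the gadget graph. -/
def At {n h g N : ℕ} {I M : Type} (δ : M → Slot n N × Fin g → I) (m : M) (j : Fin g) :
    VV n h g I M → Fin n ⊕ Slot n N → Prop
  | a, .inl v => a = .z m j v
  | a, .inr t => a = .l (δ m (t, j)) j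

/-- A directed blue edge of the gadget. -/
theorem edge {n h g N : ℕ} {I M : Type} (H : SimpleGraph (Fin n)) (x y : Fin n)
    (δ : M → Slot n N × Fin g → I) (hn : 2 ≤ n) (hδ : ∀ m, Function.Injective (δ m))
    (hsp : Sparse (n * n) δ) (m : M) (j : Fin g) (a b : VV n h g I M) (p q : Fin n ⊕ Slot n N)
    (ha : At δ m j a p) (hb : At δ m j b q) (hr : relV H x y δ a b) (hab : a ≠ b)
    (hn1 : ¬ redV a b) : gg H x y p q := by
  have hnn : 2 ≤ n * n := by nlinarith
  rcases p with v | t <;> rcases q with v' | t' <;> subst ha <;> subst hb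
  · exact hn1 trivial
  · obtain ⟨-, t1, h1, h2⟩ := hr
    have h3 := congrArg Prod.fst (hδ m h1)
    simp only at h3
    rw [h3] at h2
    exact h2
  · exact hr.elim
  · obtain ⟨-, m1, t1, t2, h1, h2, h3⟩ := hr
    by_cases hm : m1 = m
    · subst hm
      have h4 := congrArg Prod.fst (hδ m1 h1)
      have h5 := congrArg Prod.fst (hδ m1 h2)
      simp only at h4 h5
      rw [h4, h5] at h3
      exact h3
    · exfalso
      apply hab
      have h4 := lin hnn hsp hm h1 h2
      rw [← h1, ← h2, h4]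

theorem gg_symm {n N : ℕ} {H : SimpleGraph (Fin n)} {x y : Fin n} {p q : Fin n ⊕ Slot n N}
    (h : gg H x y p q) : gg H x y q p := by
  rcases p with v | t <;> rcases q with v' | t'
  · exact h
  · exact h
  · exact h
  · exact blobAdj_symm h

/-- Blue edges do not change the copy index. -/
theorem jx_eq {n h g N : ℕ} {I M : Type} (H : SimpleGraph (Fin n)) (x y : Fin n)
    (δ : M → Slot n N × Fin g → I) (m : M) (a b : VV n h g I M)
    (ha : (∃ j v, a = .z m j v) ∨ ∃ t j, a = .l (δ m (t, j)) j)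
    (hb : (∃ j v, b = .z m j v) ∨ ∃ t j, b = .l (δ m (t, j)) j)
    (hr : relV H x y δ a b) : jx a = jx b := by
  rcases ha with ⟨j, v, rfl⟩ | ⟨t, j, rfl⟩ <;> rcases hb with ⟨j', v', rfl⟩ | ⟨t', j', rfl⟩
  · exact congrArg some hr.2.1
  · exact congrArg some hr.1
  · exact hr.elim
  · exact congrArg some hr.1

end Bvh

open Bvh in
/-- Row BV1. -/
theorem bv1h_proof (hG : G0Statement) : Bv1Statement := by
  classical
  intro n h g N H x y I M δ hn hxy htc hcon hδ hsp f m hf hadj hall
  have hblue : ∀ i k, H.Adj i k → f i ≠ f k ∧ (relV H x y δ (f i) (f k) ∨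
      relV H x y δ (f k) (f i)) ∧ ¬ redV (f i) (f k) ∧ ¬ redV (f k) (f i) := by
    intro i k hik
    have hab := hadj i k hik
    have e1 := (SimpleGraph.fromRel_adj _ _ _).1 hab.1
    have e2 : ¬ (redV (f i) (f k) ∨ redV (f k) (f i)) := by
      have e3 := hab.2.1
      unfold cV at e3
      exact of_decide_eq_false e3
    exact ⟨e1.1, e1.2, fun e => e2 (Or.inl e), fun e => e2 (Or.inr e)⟩
  obtain ⟨i0⟩ := hcon.nonempty
  obtain ⟨j, hj⟩ : ∃ j, jx (f i0) = some j := by
    rcases hall i0 with ⟨j, v, h1⟩ | ⟨t, j, h1⟩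
    · exact ⟨j, by rw [h1]; rfl⟩
    · exact ⟨j, by rw [h1]; rfl⟩
  have hjall : ∀ i, jx (f i) = some j := by
    intro i
    obtain ⟨p⟩ := hcon.preconnected i0 i
    have : ∀ (a b : Fin n) (_ : H.Walk a b), jx (f a) = some j → jx (f b) = some j := by
      intro a b p
      induction p with
      | nil => exact id
      | @cons a c b hac p ih =>
        intro ha
        apply ih
        rcases (hblue a c hac).2.1 with h1 | h1
        · rw [← jx_eq H x y δ m _ _ (hall a) (hall c) h1]
          exact ha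
        · rw [jx_eq H x y δ m _ _ (hall c) (hall a) h1]
          exact ha
    exact this i0 i p hj
  have hF : ∀ i, ∃ p : Fin n ⊕ Slot n N, At δ m j (f i) p := by
    intro i
    rcases hall i with ⟨j', v, h1⟩ | ⟨t, j', h1⟩
    · have h2 := hjall i
      rw [h1] at h2
      have h3 : j' = j := Option.some_injective _ h2
      exact ⟨.inl v, by rw [h1, h3]; rfl⟩
    · have h2 := hjall i
      rw [h1] at h2
      have h3 : j' = j := Option.some_injective _ h2
      exact ⟨.inr t, by rw [h1, h3]; rfl⟩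
  choose F hF using hF
  have hFi : Function.Injective F := by
    intro i k hik
    apply hf
    have h1 := hF i
    have h2 := hF k
    rw [← hik] at h2
    rcases hp : F i with v | t
    · rw [hp] at h1 h2
      exact Eq.trans h1 (Eq.symm h2)
    · rw [hp] at h1 h2
      exact Eq.trans h1 (Eq.symm h2)
  have hdeg : ∀ u : Fin n, ∃ v, H.Adj u v := by
    intro u
    have : Nontrivial (Fin n) := Fin.nontrivial_iff_two_le.2 hn
    exact hcon.preconnected.exists_adj_of_nontrivial u
  refine core hG H x y hxy htc hdeg F hFi ?_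
  intro i k hik
  obtain ⟨e0, e1, e2, e3⟩ := hblue i k hik
  rcases e1 with e1 | e1
  · exact edge H x y δ hn hδ hsp m j _ _ _ _ (hF i) (hF k) e1 e0 e2
  · exact gg_symm (edge H x y δ hn hδ hsp m j _ _ _ _ (hF k) (hF i) e1 e0.symm e3)

end MP3240W
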