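import Pool.Agent.Lib.MP_3240be_co.H43.Hyp

/-!
# MP_3240be_co, Theorem CORE: row INN (the inner data of a gadget)

Blobs `b` with a kind `kd b`, a type `ty b` and one passenger index `io b j` for every special
pair `j < s`; the incidence hypergraph `io` is sparse, and whatever labels (type, kind) the
passenger indices get and whatever bounded damage is done at every passenger index, there is an
undamaged blob all of whose passenger indices have the label `(ty b, kd b)` (and the same value of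
a further colouring `col`).
-/

set_option autoImplicit false

namespace MP3240Inn

open Pool.Agent.Lib.MP_3240be_co.H36.Chrom (Sparse Leaf)
open MP3240W (hyp_proof)

/-- Parts of the hyperedges of a sparse hypergraph form a sparse hypergraph. -/
theorem sparse_part {T C V M J : Type} {g : ℕ} {δ : M → T → V} (hδ : ∀ m, Function.Injective (δ m))
    (hs : Sparse g δ) (e : C → J → T) (he : ∀ c c' j j', e c j = e c' j' → c = c') :
    Sparse g (fun (b : C × M) j => δ b.2 (e b.1 j)) := by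
  classical
  intro S h2 hg
  -- a blob whose `m` is a leaf of the image is a leaf
  have key : ∀ b ∈ S, Leaf δ (S.image Prod.snd) b.2 →
      Leaf (fun (b : C × M) j => δ b.2 (e b.1 j)) S b := by
    intro b hb hl b' hb' b'' hb'' hne' hne'' t t' u u' e1 e2
    have f : ∀ b₁ ∈ S, b₁ ≠ b → ∀ v v', δ b.2 (e b.1 v) = δ b₁.2 (e b₁.1 v') → b₁.2 ≠ b.2 := by
      intro b₁ _ hne v v' h h'
      rw [h'] at h
      exact hne (Prod.ext (he _ _ _ _ (hδ _ h)).symm h')
    exact hl b'.2 (Finset.mem_image_of_mem _ hb') b''.2 (Finset.mem_image_of_mem _ hb'')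
      (f b' hb' hne' t t' e1) (f b'' hb'' hne'' u u' e2) _ _ _ _ e1 e2
  by_cases h1 : (S.image Prod.snd).card ≤ 1
  · -- all in one hyperedge: everything is a leaf
    obtain ⟨a, ha, b, hb, hab⟩ := Finset.one_lt_card.1 (by omega : 1 < S.card)
    have hl : ∀ x ∈ S, Leaf δ (S.image Prod.snd) x.2 := by
      intro x hx m' hm' m'' _ hne' _ 
      exact absurd (Finset.card_le_one.1 h1 _ hm' _ (Finset.mem_image_of_mem _ hx)) hne'
    exact ⟨a, ha, b, hb, hab, key a ha (hl a ha), key b hb (hl b hb)⟩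
  · obtain ⟨m, hm, m', hm', hne, hl, hl'⟩ := hs (S.image Prod.snd) (by omega)
      (le_trans Finset.card_image_le hg)
    obtain ⟨a, ha, rfl⟩ := Finset.mem_image.1 hm
    obtain ⟨b, hb, rfl⟩ := Finset.mem_image.1 hm'
    exact ⟨a, ha, b, hb, fun h => hne (by rw [h]), key a ha hl, key b hb hl'⟩

/-- Row INN. -/
def InnStatement : Prop :=
  ∀ (g B s : ℕ) (Q Φ K : Type) [Finite Q] [Finite Φ] [Finite K] [Nonempty Q] [Nonempty K]
    (φ₀ φ₁ : Φ), φ₀ ≠ φ₁ → 1 ≤ s →
    ∃ (Bl I : Type) (_ : Finite Bl) (_ : Finite I) (kd : Bl → Q) (ty : Bl → Φ)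
      (io : Bl → Fin s → I), (∀ b, Function.Injective (io b)) ∧ Sparse g io ∧
      ∀ (lab : I → Φ × Q) (col : I → K) (bad : I → Finset Bl), (∀ i, (bad i).card ≤ B) →
        ∃ b, (∀ j, lab (io b j) = (ty b, kd b) ∧ b ∉ bad (io b j)) ∧
          ∀ j j', col (io b j) = col (io b j')

theorem inn_proof : InnStatement := by
  intro g B s Q Φ K _ _ _ _ _ φ₀ φ₁ h01 hs
  classical
  obtain ⟨w₀⟩ := (inferInstance : Nonempty Q)
  have : Nonempty (Fin s) := ⟨⟨0, hs⟩⟩
  have j₀ : Fin s := ⟨0, hs⟩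
  have : Nonempty Φ := ⟨φ₀⟩
  obtain ⟨I, M, hI, hM, δ, hδ, hsp, hc⟩ := hyp_proof g B ((Q × Φ) × Fin s) ((Φ × Q) × K)
    ((w₀, φ₀), j₀) ((w₀, φ₁), j₀) (fun h => h01 (by
      have := congrArg (fun t : (Q × Φ) × Fin s => t.1.2) h
      exact this))
  refine ⟨(Q × Φ) × M, I, inferInstance, hI, fun b => b.1.1, fun b => b.1.2,
    fun b j => δ b.2 (b.1, j), fun b j j' h => congrArg Prod.snd (hδ _ h),
    sparse_part hδ hsp (fun c j => (c, j)) (fun c c' j j' h => congrArg Prod.fst h), ?_⟩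
  intro lab col bad hbad
  obtain ⟨m, hm, hmb⟩ := hc (fun i => (lab i, col i)) (fun i => (bad i).image Prod.snd)
    (fun i => le_trans Finset.card_image_le (hbad i))
  -- the common label
  obtain ⟨lφ, lw, hl⟩ : ∃ lφ : Φ, ∃ lw : Q, ∀ t, lab (δ m t) = (lφ, lw) :=
    ⟨(lab (δ m ((w₀, φ₀), j₀))).1, (lab (δ m ((w₀, φ₀), j₀))).2, fun t => by
      exact congrArg Prod.fst (hm t ((w₀, φ₀), j₀))⟩

  refine ⟨((lw, lφ), m), fun j => ⟨hl _, fun h => hmb ((lw, lφ), j) ?_⟩, fun j j' => ?_⟩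
  · exact Finset.mem_image.2 ⟨_, h, rfl⟩
  · exact congrArg Prod.snd (hm ((lw, lφ), j) ((lw, lφ), j'))

end MP3240Inn
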