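import Mathlib
import Pool.Agent.Lib.MP_3240be_co.H82.Final

/-!
# MP_3240be_co: the connectivity conditions of WellConnected, as library lemmas
-/

set_option autoImplicit false

namespace MP3240WC

open Pool.Agent.Lib.MP_3240be_co.H82

/-- `H` stays connected (and nonempty) after the deletion of the vertices `a` and `b`, which may
be equal. -/
def StaysConnected {n : ℕ} (H : SimpleGraph (Fin n)) (a b : Fin n) : Prop :=
  (H.induce {x | x ≠ a ∧ x ≠ b}).Connected

/-- `H` has at least three vertices and it stays connected after the deletion of any two vertices: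
the triangle and the 3-connected graphs. -/
def ThreeConnected {n : ℕ} (H : SimpleGraph (Fin n)) : Prop :=
  3 ≤ n ∧ ∀ a b : Fin n, StaysConnected H a b

/-- `H` has at least three vertices and two colour classes such that it stays connected after the
deletion of any vertex, and after the deletion of any two vertices in different classes. -/
def CrossConnected {n : ℕ} (H : SimpleGraph (Fin n)) : Prop :=
  3 ≤ n ∧ ∃ κ : Fin n → Bool, (∀ x y, H.Adj x y → κ x ≠ κ y) ∧
    (∀ a, StaysConnected H a a) ∧ ∀ a b, κ a ≠ κ b → StaysConnected H a b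

/-- Closed sets in the graph without `a` and `b`. -/
theorem closed {n : ℕ} {H : SimpleGraph (Fin n)} {a b : Fin n} (h : StaysConnected H a b)
    (A : Fin n → Prop) (hA : ∃ x, x ≠ a ∧ x ≠ b ∧ A x)
    (hcl : ∀ x y, x ≠ a → x ≠ b → y ≠ a → y ≠ b → H.Adj x y → A x → A y) :
    ∀ y, y ≠ a → y ≠ b → A y := by
  intro y hya hyb
  obtain ⟨x, hxa, hxb, hAx⟩ := hA
  obtain ⟨p⟩ := h.preconnected ⟨x, hxa, hxb⟩ ⟨y, hya, hyb⟩
  have main : ∀ (u v : {x : Fin n | x ≠ a ∧ x ≠ b})
      (_ : (H.induce {x | x ≠ a ∧ x ≠ b}).Walk u v), A u.1 → A v.1 := by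
    intro u v p
    induction p with
    | nil => exact id
    | cons hadj _ ih =>
      rename_i u1 u2 u3 _
      exact fun hu => ih (hcl _ _ u1.2.1 u1.2.2 u2.2.1 u2.2.2 hadj hu)
  exact main _ _ p hAx

theorem third {n : ℕ} (h3 : 3 ≤ n) (x y : Fin n) : ∃ z : Fin n, z ≠ x ∧ z ≠ y := by
  by_contra hcon
  push Not at hcon
  have hs : (Finset.univ : Finset (Fin n)) ⊆ {x, y} := by
    intro z _
    by_cases hz : z = x
    · rw [hz]
      exact Finset.mem_insert_self _ _
    · rw [hcon z hz]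
      exact Finset.mem_insert_of_mem (Finset.mem_singleton_self _)
  have h1 := Finset.card_le_card hs
  rw [Finset.card_univ, Fintype.card_fin] at h1
  have h2 := Finset.card_le_two (a := x) (b := y)
  omega

/-- Deletion of at most two vertices, in terms of closed sets. -/
theorem sep_of {n : ℕ} {H : SimpleGraph (Fin n)} (h3 : 3 ≤ n)
    (h1 : ∀ a, StaysConnected H a a) (I J : Fin n → Prop)
    (hI : ∀ x y, I x → I y → x = y) (hJ : ∀ x y, J x → J y → x = y)
    (h2 : ∀ a b, I a → J b → StaysConnected H a b)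
    (A : Fin n → Prop) (hA : ∃ x, ¬ I x ∧ ¬ J x ∧ A x)
    (hcl : ∀ x y, ¬ I x → ¬ J x → ¬ I y → ¬ J y → H.Adj x y → A x → A y) :
    ∀ y, ¬ I y → ¬ J y → A y := by
  intro y hyI hyJ
  obtain ⟨x, hxI, hxJ, hAx⟩ := hA
  -- vertices that contain `I` and `J` and avoid `x` and `y`
  obtain ⟨a, b, hab, hxa, hxb, hya, hyb, hn⟩ : ∃ a b, StaysConnected H a b ∧ x ≠ a ∧ x ≠ b ∧
      y ≠ a ∧ y ≠ b ∧ ∀ z, z ≠ a → z ≠ b → ¬ I z ∧ ¬ J z := by
    by_cases hi : ∃ a, I a
    · obtain ⟨a, ha⟩ := hi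
      have hz : ∀ z, z ≠ a → ¬ I z := fun z hz hIz => hz (hI _ _ hIz ha)
      by_cases hj : ∃ b, J b
      · obtain ⟨b, hb⟩ := hj
        exact ⟨a, b, h2 a b ha hb, fun e => hxI (e ▸ ha), fun e => hxJ (e ▸ hb),
          fun e => hyI (e ▸ ha), fun e => hyJ (e ▸ hb),
          fun z hza hzb => ⟨hz z hza, fun hJz => hzb (hJ _ _ hJz hb)⟩⟩
      · exact ⟨a, a, h1 a, fun e => hxI (e ▸ ha), fun e => hxI (e ▸ ha),
          fun e => hyI (e ▸ ha), fun e => hyI (e ▸ ha),
          fun z hza _ => ⟨hz z hza, fun hJz => hj ⟨z, hJz⟩⟩⟩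
    · by_cases hj : ∃ b, J b
      · obtain ⟨b, hb⟩ := hj
        exact ⟨b, b, h1 b, fun e => hxJ (e ▸ hb), fun e => hxJ (e ▸ hb),
          fun e => hyJ (e ▸ hb), fun e => hyJ (e ▸ hb),
          fun z hzb _ => ⟨fun hIz => hi ⟨z, hIz⟩, fun hJz => hzb (hJ _ _ hJz hb)⟩⟩
      · obtain ⟨z, hzx, hzy⟩ := third h3 x y
        exact ⟨z, z, h1 z, hzx.symm, hzx.symm, hzy.symm, hzy.symm,
          fun z _ _ => ⟨fun hIz => hi ⟨z, hIz⟩, fun hJz => hj ⟨z, hJz⟩⟩⟩
  exact closed hab A ⟨x, hxa, hxb, hAx⟩ (fun u v hua hub hva hvb huv hu =>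
    hcl u v (hn u hua hub).1 (hn u hua hub).2 (hn v hva hvb).1 (hn v hva hvb).2 huv hu)
    y hya hyb

theorem tc_of_three {n : ℕ} {H : SimpleGraph (Fin n)} (h : ThreeConnected H) : TC False H where
  ne := ⟨⟨0, by have := h.1; omega⟩⟩
  third := third h.1
  bip := fun hf => hf.elim
  sep := fun I J hI hJ _ A hA hcl =>
    sep_of h.1 (fun a => h.2 a a) I J hI hJ (fun a b _ _ => h.2 a b) A hA hcl

theorem tc_of_cross {n : ℕ} {H : SimpleGraph (Fin n)} (h : CrossConnected H) : TC True H := by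
  obtain ⟨h3, κ, hκ, h1, h2⟩ := h
  refine ⟨⟨⟨0, by omega⟩⟩, third h3, fun _ => ⟨κ, hκ⟩, ?_⟩
  intro I J hI hJ hκ' A hA hcl
  obtain ⟨κ', hκ1, hκ2⟩ := hκ' trivial
  refine sep_of h3 h1 I J hI hJ (fun a b ha hb => h2 a b ?_) A hA hcl
  -- the two proper colourings agree or are complementary
  have hall := sep_of h3 h1 (fun _ => False) (fun _ => False) (fun _ _ h => h.elim)
    (fun _ _ h => h.elim) (fun _ _ h => h.elim)
    (fun z => (κ z == κ' z) = (κ a == κ' a)) ⟨a, fun h => h, fun h => h, rfl⟩ (by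
      intro x y _ _ _ _ hxy hx
      have e1 := hκ x y hxy
      have e2 := hκ1 x y hxy
      rw [← hx]
      revert e1 e2
      cases κ x <;> cases κ y <;> cases κ' x <;> cases κ' y <;> decide)
  have e1 := hall b (fun h => h) (fun h => h)
  have e2 := hκ2 a b ha hb
  revert e1 e2
  cases κ a <;> cases κ b <;> cases κ' a <;> cases κ' b <;> decide


end MP3240WC
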