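import Pool.Agent.Lib.MP_3240be_co.H51.Defs
import Pool.Agent.Lib.MP_3240be_co.H36.Chrom.Hyper

/-!
# MP_3240be_co: 2-connected bipartite graphs with a small separator of the smaller class

Definitions and statements of the rows (board WHW, helper43).  Paper: finding 4462 (Theorem W),
with the simplification that the hub sets `C_i` (here `ch i`) need no linking.
-/

set_option autoImplicit false

namespace MP3240W

open Finset MP3240T
open Pool.Agent.Lib.MP_3240be_co.H36.Chrom (Sparse)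

/-- At least `N` vertices are joined to all of `R` in `G`. -/
def Many {V : Type} (G : SimpleGraph V) (N : ℕ) (R : Finset V) : Prop :=
  ∃ Z : Finset V, N ≤ Z.card ∧ ∀ z ∈ Z, ∀ y ∈ R, G.Adj y z

/-- `H` is bipartite, `κ = true` is the class `A`, `|A| = h + 1 ≤ |B|`; the elements of `A` with
`σ = none` are the separator `X` (`k` elements, `2 k ≤ h`), those with `σ = some true` and
`σ = some false` are the two sides: no vertex of `B` is adjacent to both sides. -/
structure SepD {n : ℕ} (H : SimpleGraph (Fin n)) (κ : Fin n → Bool) (h k : ℕ) where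
  prop : ∀ i j, H.Adj i j → κ i ≠ κ j
  cardA : (clA κ).card = h + 1
  cardB : h + 1 ≤ (univ.filter (fun x => κ x = false)).card
  σ : Fin n → Option Bool
  cardX : (univ.filter (fun x => κ x = true ∧ σ x = none)).card = k
  side : ∀ s : Bool, ∃ x, κ x = true ∧ σ x = some s
  sep : ∀ b x y, κ b = false → H.Adj b x → H.Adj b y → σ x = some true → σ y = some false → False
  small : 2 * k ≤ h

/-! ## 2-connectedness of sets of edges -/

/-- `v` is an end of an edge of `I` and of an edge of `J`. -/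
def Shares {X : Type} (I J : Finset (Sym2 X)) (v : X) : Prop := (∃ e ∈ I, v ∈ e) ∧ ∃ e ∈ J, v ∈ e

/-- Matroid style 2-connectedness: the parts of every partition of `I` into two nonempty parts
share two vertices. -/
def TwoC {X : Type} (I : Finset (Sym2 X)) : Prop :=
  ∀ J J' : Finset (Sym2 X), J.Nonempty → J'.Nonempty → Disjoint J J' →
    (∀ e, e ∈ I ↔ e ∈ J ∨ e ∈ J') → ∃ u v, u ≠ v ∧ Shares J J' u ∧ Shares J J' v

/-- The set of edges of `H`. -/
noncomputable def ed {n : ℕ} (H : SimpleGraph (Fin n)) : Finset (Sym2 (Fin n)) := by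
  classical exact univ.filter (fun e => e ∈ H.edgeSet)

theorem mem_ed {n : ℕ} {H : SimpleGraph (Fin n)} {x y : Fin n} : s(x, y) ∈ ed H ↔ H.Adj x y := by
  classical
  simp [ed]

/-- Row TWO: a connected graph on at least three vertices without cut vertex. -/
def TwoStatement : Prop :=
  ∀ (n : ℕ) (H : SimpleGraph (Fin n)), 3 ≤ n → H.Connected →
    (∀ a : Fin n, (H.induce {x | x ≠ a}).Connected) → TwoC (ed H)

/-- Row G0 (special case of helper12's Theorem G, finding 4442): `D` and `D'` partition the edges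
of the 2-connected graph `H`, they share only the non-adjacent vertices `s`, `t`, and `e0` lies in
`D`.  Then `D + st` has no embedding into `H` that maps `st` to `e0`.  Proof: `Op I = φ(I ∩ D)`,
with `e0` added if `I` is not contained in `D`; take a 2-connected `I` with `e0 ∈ I`, `Op I ⊆ I`
and as few edges as possible. -/
def G0Statement : Prop :=
  ∀ (n : ℕ) (H : SimpleGraph (Fin n)) (D D' : Finset (Sym2 (Fin n))) (e0 : Sym2 (Fin n))
    (s t : Fin n) (φ : Fin n → Fin n), TwoC (ed H) → Disjoint D D' →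
    (∀ e, e ∈ ed H ↔ e ∈ D ∨ e ∈ D') → e0 ∈ D → D'.Nonempty → ¬ H.Adj s t →
    (∀ v, Shares D D' v → v = s ∨ v = t) →
    (∀ u v, (∃ e ∈ D, u ∈ e) → (∃ e ∈ D, v ∈ e) → φ u = φ v → u = v) →
    (∀ e ∈ D, e.map φ ∈ ed H ∧ e.map φ ≠ e0) → s(φ s, φ t) = e0 → False

/-- Row PCL (pieces): worlds `wld j`, gadgets `gdg m`, glued at single vertices `μ m t` along the
sparse hypergraph `δ`; a copy `f` of a 2-connected graph lies in one world or in one gadget. -/
def PclStatement : Prop :=
  ∀ (n : ℕ) (H : SimpleGraph (Fin n)) (X I J M T : Type) (δ : M → T → I) (w : I → J)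
    (f : Fin n → X) (wld : J → Set X) (gdg : M → Set X) (μ : M → T → X),
    TwoC (ed H) → (∀ u, ∃ v, H.Adj u v) → Function.Injective f → Function.Injective w →
    (∀ m, Function.Injective (δ m)) → Sparse (n * n) δ →
    (∀ u v, H.Adj u v → (∃ j, f u ∈ wld j ∧ f v ∈ wld j) ∨ ∃ m, f u ∈ gdg m ∧ f v ∈ gdg m) →
    (∀ j j' x, x ∈ wld j → x ∈ wld j' → j = j') → (∀ m m' x, x ∈ gdg m → x ∈ gdg m' → m = m') →
    (∀ j m x, x ∈ wld j → x ∈ gdg m → ∃ t, x = μ m t ∧ j = w (δ m t)) →
    (∃ j, ∀ v, f v ∈ wld j) ∨ ∃ m, ∀ v, f v ∈ gdg m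

/-! ## Embeddings, full sets -/

/-- Row EXN: finite version of the extension lemma. -/
def ExnStatement : Prop :=
  ∀ (V : Type) (G : SimpleGraph V) (n : ℕ) (H : SimpleGraph (Fin n)) (W : Finset (Fin n))
    (φ : Fin n → V), Set.InjOn φ (W : Set (Fin n)) →
    (∀ i ∈ W, ∀ j ∈ W, H.Adj i j → G.Adj (φ i) (φ j)) →
    (∀ i, i ∉ W → ∀ j, j ∉ W → ¬ H.Adj i j) →
    (∀ u, u ∉ W → ∀ S : Finset V, S.card < n → ∃ z, z ∉ S ∧ ∀ i ∈ W, H.Adj u i → G.Adj (φ i) z) →
    Emb H G

/-- Row OVL ((W1)). -/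
def OvlStatement : Prop :=
  ∀ (n h k : ℕ) (H : SimpleGraph (Fin n)) (κ : Fin n → Bool) (_ : SepD H κ h k) (V : Type)
    [DecidableEq V] (G : SimpleGraph V), ¬ Emb H G →
    (∀ R : Finset V, R.card = h + 1 → ¬ Many G n R) ∧
    (∀ R R' : Finset V, R.card = h → R'.card = h → Many G n R → Many G n R' →
      k ≤ (R ∩ R').card → R = R')

/-- Row LNK ((W2), (W3)): two hub sets which share `k` hubs, both with infinitely many partners. -/
def LnkStatement : Prop :=
  ∀ (n h k : ℕ) (H : SimpleGraph (Fin n)) (κ : Fin n → Bool) (_ : SepD H κ h k) (V : Type)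
    [DecidableEq V] (F : SimpleGraph V) (c : V → V → Bool), (∀ x y, c x y = c y x) →
    (∀ b, ¬ Emb H (cls F c b)) → ∀ (Y : Bool → Finset V) (P : Bool → ℕ → Finset V)
    (z : Bool → ℕ → ℕ → V), (∀ s, (Y s).card = h) → (∀ s j, (P s j).card = h) →
    (∀ s j, Disjoint (Y s) (P s j)) → (∀ s j j', j ≠ j' → Disjoint (P s j) (P s j')) →
    k ≤ (Y false ∩ Y true).card → Y false ≠ Y true → (∀ s j, Function.Injective (z s j)) →
    (∀ s j t, ∀ y ∈ Y s ∪ P s j, F.Adj y (z s j t)) →
    ∃ b : Bool, Full (cls F c b) (Y false) ∧ ¬ Many (cls F c (!b)) n (Y false)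

/-- Row TYP ((W4)): `P` red-full and not blue-full, `C i` arbitrary disjoint hub sets; `τ i = none`
means that `i` is good. -/
def TypStatement : Prop :=
  ∀ (n h k : ℕ) (H : SimpleGraph (Fin n)) (κ : Fin n → Bool) (_ : SepD H κ h k) (V : Type)
    [DecidableEq V] (F : SimpleGraph V) (c : V → V → Bool), (∀ x y, c x y = c y x) →
    (∀ b, ¬ Emb H (cls F c b)) → ∀ (red : Bool) (I : Type) (P : Finset V) (C : I → Finset V),
    P.card = h → (∀ i, (C i).card = h) → (∀ i, Disjoint P (C i)) →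
    (∀ i j, i ≠ j → Disjoint (C i) (C j)) → Many (cls F c red) n P →
    ¬ Many (cls F c (!red)) n P →
    ∃ τ : I → Option (Finset V), (∀ i T, τ i = some T → T ⊆ P) ∧
      (∀ i j T, τ i = some T → τ j = some T → i = j) ∧
      ∀ i, τ i = none → ∀ L : Finset V, (∀ l ∈ L, ∀ y ∈ P ∪ C i, F.Adj y l) →
        (∀ l ∈ L, ¬ ((∀ y ∈ P, c y l = red) ∧ ∀ y ∈ C i, c y l = !red)) →
        L.card ≤ n * 2 ^ (2 * h)

/-- Row STA: `n` disjoint stars joined to `h` hubs are enough. -/
def StaStatement : Prop :=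
  ∀ (n h q : ℕ) (H : SimpleGraph (Fin n)), Emb H (SH h q) → ∀ (V : Type) (G : SimpleGraph V)
    (Y : Finset V) (st : Fin n → Option (Fin q) → V), Y.card = h →
    (∀ j j' o o', st j o = st j' o' → j = j' ∧ o = o') → (∀ j o, ∀ y ∈ Y, G.Adj y (st j o)) →
    (∀ j r, G.Adj (st j none) (st j (some r))) → Emb H G

/-- Row ZED ((W7)). -/
def ZedStatement : Prop :=
  ∀ (n h k : ℕ) (H : SimpleGraph (Fin n)) (κ : Fin n → Bool) (_ : SepD H κ h k) (α : Fin n),
    κ α = true → ∀ (V : Type) (G : SimpleGraph V) (P N : Finset V) (z : V), P.card = h →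
    Full G P → z ∉ P → (nb H α).card ≤ N.card → (∀ x ∈ N, G.Adj z x) →
    (∀ x ∈ N, ∀ y ∈ P, G.Adj y x) → Emb H G

/-- Row KAP: there are no stars `K_(1,0)`, some stars are large enough. -/
def KapStatement : Prop :=
  ∀ (n h k : ℕ) (H : SimpleGraph (Fin n)) (κ : Fin n → Bool) (_ : SepD H κ h k), H.Connected →
    ¬ Emb H (SH h 0) ∧ ∃ q, Emb H (SH h q)

/-- Row HYP: a sparse hypergraph on which bounded damage at every vertex leaves a hyperedge that
is monochromatic for a given labelling. -/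
def HypStatement : Prop :=
  ∀ (g B : ℕ) (T K : Type) [Finite T] [Finite K] [Nonempty K] (t0 t1 : T), t0 ≠ t1 →
    ∃ (I M : Type) (_ : Finite I) (_ : Finite M) (δ : M → T → I),
      (∀ m, Function.Injective (δ m)) ∧ Sparse g δ ∧
      ∀ (lab : I → K) (bad : I → Finset M), (∀ i, (bad i).card ≤ B) →
        ∃ m, (∀ t t', lab (δ m t) = lab (δ m t')) ∧ ∀ t, m ∉ bad (δ m t)

/-! ## The host -/

/-- The slots of a gadget: `(v, v', ν, w)` is the copy of `w` in the blob number `ν` of `v v'`. -/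
abbrev Slot (n N : ℕ) : Type := Fin n × Fin n × Fin N × Fin n

/-- The vertices of the host.  Hubs: `y0` (the set `Y_0 = P`), `y1` (the hubs of `Y_1` outside
`Y_0`; `Y_1` also contains `y0 l`, `l < k`), `par s j` (partners of `Y_s`), `ch i` (the set `C_i`);
lows: `low s j t` (joined to `Y_s` and `par s j`), `mn m t` (main lows), `pr m t r` (private lows
of `mn m t`); `z m v`: the free vertices of the gadget `m`. -/
inductive VW (n h k q N : ℕ) (I M : Type) : Type
  | y0 : Fin h → VW n h k q N I M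
  | y1 : Fin (h - k) → VW n h k q N I M
  | par : Bool → ℕ → Fin h → VW n h k q N I M
  | low : Bool → ℕ → ℕ → VW n h k q N I M
  | ch : I → Fin h → VW n h k q N I M
  | mn : M → Slot n N → VW n h k q N I M
  | pr : M → Slot n N → Fin (2 * q) → VW n h k q N I M
  | z : M → Fin n → VW n h k q N I M

/-- The slot is neither `x` nor `y`. -/
def inner {n N : ℕ} (x y : Fin n) (t : Slot n N) : Prop := t.2.2.2 ≠ x ∧ t.2.2.2 ≠ y

/-- The edges of the host, in one direction. -/
def relW {n h k q N : ℕ} {I M : Type} (H : SimpleGraph (Fin n)) (x y : Fin n)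
    (δ : M → Slot n N → I) : VW n h k q N I M → VW n h k q N I M → Prop
  | .y0 _, .low false _ _ => True
  | .y0 l, .low true _ _ => l.val < k
  | .y1 _, .low true _ _ => True
  | .par s j _, .low s' j' _ => s = s' ∧ j = j'
  | .y0 _, .mn _ _ => True
  | .y0 _, .pr _ _ _ => True
  | .ch i _, .mn m t => δ m t = i
  | .ch i _, .pr m t _ => δ m t = i
  | .mn m t, .pr m' t' _ => m = m' ∧ t = t'
  | .mn m t, .mn m' t' => m = m' ∧ t.1 = t'.1 ∧ t.2.1 = t'.2.1 ∧ t.2.2.1 = t'.2.2.1 ∧
      inner x y t ∧ inner x y t' ∧ H.Adj t.2.2.2 t'.2.2.2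
  | .z m v, .mn m' t => m = m' ∧ H.Adj t.1 t.2.1 ∧ inner x y t ∧
      ((v = t.1 ∧ H.Adj x t.2.2.2) ∨ (v = t.2.1 ∧ H.Adj y t.2.2.2))
  | .z m v, .z m' v' => m = m' ∧ H.Adj v v'
  | _, _ => False

/-- The host. -/
def FW {n h k q N : ℕ} {I M : Type} (H : SimpleGraph (Fin n)) (x y : Fin n)
    (δ : M → Slot n N → I) : SimpleGraph (VW n h k q N I M) := SimpleGraph.fromRel (relW H x y δ)

/-- The red edges of the good colouring, in one direction. -/
def redW {n h k q N : ℕ} {I M : Type} : VW n h k q N I M → VW n h k q N I M → Prop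
  | .y0 _, .low false _ _ => True
  | .par true _ _, .low _ _ _ => True
  | .y0 _, .mn _ _ => True
  | .y0 _, .pr _ _ _ => True
  | .mn _ _, .pr _ _ r => r.val < q
  | .z _ _, .z _ _ => True
  | _, _ => False

/-- The good colouring (`true` = red). -/
noncomputable def cW {n h k q N : ℕ} {I M : Type} (a b : VW n h k q N I M) : Bool := by
  classical exact decide (redW a b ∨ redW b a)

/-- Hubs joined to stars, the stars are indexed by `A`. -/
def SHg (A : Type) (h q : ℕ) : SimpleGraph (Fin h ⊕ (A × Option (Fin q))) :=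
  SimpleGraph.fromRel (fun u v => match u, v with
    | .inl _, .inr _ => True
    | .inr (m, none), .inr (m', some _) => m = m'
    | _, _ => False)

/-- Row SHE. -/
def SheStatement : Prop :=
  ∀ (n h q : ℕ) (H : SimpleGraph (Fin n)) (A : Type) [Countable A], Emb H (SHg A h q) →
    Emb H (SH h q)

/-- Row RED: the red copies of `H` are the sets `z m`. -/
def RedStatement : Prop :=
  ∀ (n h k q N : ℕ) (H : SimpleGraph (Fin n)) (x y : Fin n) (I M : Type) [Finite I] [Finite M]
    (δ : M → Slot n N → I) (κ : Fin n → Bool), SepD H κ h k → H.Connected → ¬ Emb H (SH h q) →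
    ∀ f : Fin n → VW n h k q N I M, Function.Injective f →
      (∀ i j, H.Adj i j → (cls (FW H x y δ) cW true).Adj (f i) (f j)) →
      ∃ m, ∀ i, ∃ v, f i = .z m v

/-- Row BL1: a blue copy of `H` in the blobs of one gadget. -/
def Bl1Statement : Prop :=
  ∀ (n h k q N : ℕ) (H : SimpleGraph (Fin n)) (x y : Fin n) (I M : Type)
    (δ : M → Slot n N → I), H.Adj x y → TwoC (ed H) →
    ∀ (f : Fin n → VW n h k q N I M) (m : M), Function.Injective f →
      (∀ i j, H.Adj i j → (cls (FW H x y δ) cW false).Adj (f i) (f j)) →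
      ¬ ∀ i, (∃ v, f i = .z m v) ∨ ∃ t, f i = .mn m t

/-- Row BL2: no blue copy of `H`. -/
def Bl2Statement : Prop :=
  ∀ (n h k q N : ℕ) (H : SimpleGraph (Fin n)) (x y : Fin n) (I M : Type) [Finite I] [Finite M]
    (δ : M → Slot n N → I), H.Adj x y → TwoC (ed H) → H.Connected → 2 ≤ n → 2 * k ≤ h →
    ¬ Emb H (SH h q) → (∀ m, Function.Injective (δ m)) → Sparse (n * n) δ →
    ¬ Emb H (cls (FW (h := h) (k := k) (q := q) H x y δ) cW false)

/-- Row NFW: the host is not Ramsey for `H'`. -/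
def NfwStatement : Prop :=
  ∀ (n n' h k q N : ℕ) (H : SimpleGraph (Fin n)) (H' : SimpleGraph (Fin n')) (x y : Fin n)
    (I M : Type) [Finite I] [Finite M] (δ : M → Slot n N → I) (κ : Fin n → Bool), SepD H κ h k →
    H.Adj x y → TwoC (ed H) → H.Connected → ¬ Emb H (SH h q) → (∀ m, Function.Injective (δ m)) →
    Sparse (n * n) δ → H'.Connected → Emb H H' → ¬ Emb H' H →
    ¬ Arr (FW (h := h) (k := k) (q := q) H x y δ) H'

/-- Row ARW: the host is Ramsey for `H`. -/
def ArwStatement : Prop :=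
  ∀ (n h k q N : ℕ) (H : SimpleGraph (Fin n)) (x y α : Fin n) (I M : Type) [Finite I] [Finite M]
    (δ : M → Slot n N → I) (κ : Fin n → Bool), SepD H κ h k → κ α = true → H.Adj x y →
    N + 1 = 2 * (nb H α).card → Emb H (SH h (q + 1)) → (∀ m, Function.Injective (δ m)) →
    (∀ (lab : I → Option (Finset (Fin h))) (bad : I → Finset M),
      (∀ i, (bad i).card ≤ n * 2 ^ (2 * h) + 3 * n) →
      ∃ m, (∀ t t', lab (δ m t) = lab (δ m t')) ∧ ∀ t, m ∉ bad (δ m t)) →
    Arr (FW (h := h) (k := k) (q := q) H x y δ) H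

/-- Row MAIN: Theorem W. -/
def MainStatement : Prop :=
  ∀ (n n' h k : ℕ) (H : SimpleGraph (Fin n)) (H' : SimpleGraph (Fin n')) (κ : Fin n → Bool),
    SepD H κ h k → H.Connected → TwoC (ed H) → H'.Connected → Emb H H' → ¬ Emb H' H →
    ∃ (m : ℕ) (F : SimpleGraph (Fin m)), Arr F H ∧ ¬ Arr F H'

end MP3240W
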